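import Pool.Agent.Y199.Bi.NN

/-! A family over `ℂ` with the given two charts is an integral homology fibre bundle. -/

set_option autoImplicit false

namespace Pool.Agent.Y199.Bi

open Pool.Agent.Helper922.HB Complex

universe u v

variable {X : Type u} [TopologicalSpace X]

theorem HE_rpI {Y : Type v} [TopologicalSpace Y] (f : C(X, Y)) (U V : Set Y)
    (h : HE (rp f (U ∩ V))) : HE (rpI f U V) := h

theorem transport {M : Type v} [TopologicalSpace M] (f : X → ℂ) (s : ℂ) (U : Set X)
    (h : U ≃ₜ M) (σ : M → ℂ) (hσ : ∀ x : U, σ (h x) = f x.1) (H : HE (sub {m : M | σ m = s})) :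
    HE (rp (sub (f ⁻¹' {s})) U) := by
  let φ : ↥((sub (f ⁻¹' {s})) ⁻¹' U) ≃ₜ {m : M | σ m = s} :=
    { toFun := fun x => ⟨h ⟨x.1.1, x.2⟩, by
        have h1 : f x.1.1 = s := x.1.2
        change σ _ = s
        rw [hσ, h1]⟩
      invFun := fun m => ⟨⟨(h.symm m.1).1, by
        have h1 : σ m.1 = s := m.2
        change f _ = s
        rw [← hσ, h.apply_symm_apply, h1]⟩, (h.symm m.1).2⟩
      left_inv := fun x => by
        apply Subtype.ext; apply Subtype.ext
        change (h.symm (h ⟨x.1.1, x.2⟩)).1 = x.1.1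
        rw [h.symm_apply_apply]
      right_inv := fun m => by
        apply Subtype.ext
        exact h.apply_symm_apply m.1
      continuous_toFun := by
        refine Continuous.subtype_mk ?_ _
        exact h.continuous.comp (Continuous.subtype_mk
          (continuous_subtype_val.comp continuous_subtype_val) _)
      continuous_invFun := by
        refine Continuous.subtype_mk (Continuous.subtype_mk ?_ _) _
        exact continuous_subtype_val.comp (h.symm.continuous.comp continuous_subtype_val) }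
  have h1 : HE (⟨h, h.continuous⟩ : C(U, M)) := HE_of_homeo h _ fun x => rfl
  have h2 : HE (⟨φ, φ.continuous⟩ : C(_, {m : M | σ m = s})) := HE_of_homeo φ _ fun x => rfl
  refine HE.of_comp_left h1 ?_
  have h3 : (⟨h, h.continuous⟩ : C(U, M)).comp (rp (sub (f ⁻¹' {s})) U) =
      (sub {m : M | σ m = s}).comp ⟨φ, φ.continuous⟩ := by
    ext x
    rfl
  rw [h3]
  exact H.comp h2

variable (A : Type) [TopologicalSpace A]

/-- The two charts of the family. -/
structure Charts (A : Type) [TopologicalSpace A] (f : X → ℂ) where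
  /-- the affine part -/
  U : Set X
  /-- the part near infinity -/
  V : Set X
  openU : IsOpen U
  openV : IsOpen V
  cover : ∀ x, x ∈ U ∨ x ∈ V
  /-- the affine chart -/
  hU : U ≃ₜ A × Circle × ℂ × ℂ
  hU_f : ∀ x, ((hU x).2.1 : ℂ) * ((hU x).2.2.2 ^ 2 - (hU x).2.2.1 ^ 3) = f x.1
  /-- the chart near infinity -/
  hV : V ≃ₜ NN A
  hV_f : ∀ x, (hV x).1.2.2.2 = f x.1
  hV_U : ∀ x : V, (hV x).1.2.2.1 ≠ 0 ↔ x.1 ∈ U

variable {A}

theorem Charts.HE_fibre {f : X → ℂ} (c : Charts A f) (s : ℂ) :
    HE (sub (f ⁻¹' {s})) := by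
  refine HE_of_cover _ c.U c.V c.openU c.openV c.cover ?_ ?_ (HE_rpI _ _ _ ?_)
  · refine transport f s c.U c.hU (fun m => (m.2.1 : ℂ) * (m.2.2.2 ^ 2 - m.2.2.1 ^ 3))
      c.hU_f ?_
    exact incT_HE A s
  · exact transport f s c.V c.hV (fun m => m.1.2.2.2) c.hV_f (NN_HE A s)
  · let ψ : ↥(c.U ∩ c.V) ≃ₜ NP A :=
      { toFun := fun x => ⟨(c.hV ⟨x.1, x.2.2⟩).1, (c.hV ⟨x.1, x.2.2⟩).2,
          (c.hV_U ⟨x.1, x.2.2⟩).mpr x.2.1⟩
        invFun := fun m => ⟨(c.hV.symm ⟨m.1, m.2.1⟩).1,
          (c.hV_U _).mp (by rw [c.hV.apply_symm_apply]; exact m.2.2), (c.hV.symm ⟨m.1, m.2.1⟩).2⟩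
        left_inv := fun x => by
          apply Subtype.ext
          change (c.hV.symm (c.hV ⟨x.1, x.2.2⟩)).1 = x.1
          rw [c.hV.symm_apply_apply]
        right_inv := fun m => by
          apply Subtype.ext
          change (c.hV (c.hV.symm ⟨m.1, m.2.1⟩)).1 = m.1
          rw [c.hV.apply_symm_apply]
        continuous_toFun := by
          refine Continuous.subtype_mk ?_ _
          exact continuous_subtype_val.comp (c.hV.continuous.comp (Continuous.subtype_mk
            continuous_subtype_val _))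
        continuous_invFun := by
          refine Continuous.subtype_mk ?_ _
          exact continuous_subtype_val.comp (c.hV.symm.continuous.comp (Continuous.subtype_mk
            continuous_subtype_val _)) }
    exact transport f s (c.U ∩ c.V) ψ (fun m => m.1.2.2.2)
      (fun x => c.hV_f ⟨x.1, x.2.2⟩) (NP_HE A s)

theorem Charts.bundle {f : X → ℂ} (c : Charts A f) : IsZHomologyFiberBundle f := by
  refine ⟨{Set.univ}, ?_, fun y => ⟨Set.univ, rfl, trivial⟩, ?_⟩
  · rintro U rfl
    exact isOpen_univ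
  · rintro U rfl y hy
    rw [← HE_iff_bijective]
    have h1 : HE (sub (f ⁻¹' Set.univ) : C(↥(f ⁻¹' Set.univ), X)) := by
      refine HE_of_homeo (Homeomorph.Set.univ X) _ fun x => rfl
    refine HE.of_comp_left h1 ?_
    exact c.HE_fibre y

end Pool.Agent.Y199.Bi
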