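import Pool.Agent.Helper922.HB.Defs

/-! The topology of projective space. -/

set_option autoImplicit false

open scoped LinearAlgebra.Projectivization

namespace Pool.Agent.Y199.Bi

open Pool.Agent.Helper922.HB

universe u

variable {ι : Type u} [Fintype ι]

theorem continuous_mk :
    Continuous (fun z : {z : ι → ℂ // z ≠ 0} => (Projectivization.mk ℂ z.1 z.2 : ℙ ℂ (ι → ℂ))) := by
  have h : (fun z : {z : ι → ℂ // z ≠ 0} => (Projectivization.mk ℂ z.1 z.2 : ℙ ℂ (ι → ℂ)))
      = Projectivization.mk' ℂ := by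
    funext z
    exact (Projectivization.mk'_eq_mk ℂ z).symm
  rw [h]
  exact continuous_coinduced_rng

theorem cont_mk {α : Type*} [TopologicalSpace α] {f : α → ι → ℂ} (hf : Continuous f)
    (h : ∀ a, f a ≠ 0) : Continuous (fun a => (Projectivization.mk ℂ (f a) (h a) : ℙ ℂ (ι → ℂ))) :=
  continuous_mk.comp (Continuous.subtype_mk hf h)

theorem isOpen_proj_iff (W : Set (ℙ ℂ (ι → ℂ))) :
    IsOpen W ↔ IsOpen {z : {z : ι → ℂ // z ≠ 0} | Projectivization.mk ℂ z.1 z.2 ∈ W} := by
  have h1 : IsOpen W ↔ IsOpen ((Projectivization.mk' ℂ : {v : ι → ℂ // v ≠ 0} → _) ⁻¹' W) :=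
    isOpen_coinduced
  rw [h1]
  have h2 : ((Projectivization.mk' ℂ : {v : ι → ℂ // v ≠ 0} → _) ⁻¹' W)
      = {z : {z : ι → ℂ // z ≠ 0} | Projectivization.mk ℂ z.1 z.2 ∈ W} := by
    ext z
    rw [Set.mem_preimage, Projectivization.mk'_eq_mk]
    rfl
  rw [h2]

instance t2Space_proj : T2Space (ℙ ℂ (ι → ℂ)) := by
  have hq : IsOpenQuotientMap
      (fun z : {z : ι → ℂ // z ≠ 0} => (Projectivization.mk ℂ z.1 z.2 : ℙ ℂ (ι → ℂ))) := by
    refine ⟨?_, continuous_mk, ?_⟩
    · intro p
      induction p with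
      | h z hz => exact ⟨⟨z, hz⟩, rfl⟩
    · intro U hU
      rw [isOpen_proj_iff]
      have h1 : {z : {z : ι → ℂ // z ≠ 0} | Projectivization.mk ℂ z.1 z.2 ∈
          (fun z : {z : ι → ℂ // z ≠ 0} => (Projectivization.mk ℂ z.1 z.2 : ℙ ℂ (ι → ℂ))) '' U}
          = ⋃ c : ℂˣ, (fun z : {z : ι → ℂ // z ≠ 0} =>
            (⟨(c : ℂ) • z.1, smul_ne_zero c.ne_zero z.2⟩ : {z : ι → ℂ // z ≠ 0})) ⁻¹' U := by
        ext z
        simp only [Set.mem_ofPred_eq, Set.mem_image, Set.mem_iUnion, Set.mem_preimage]
        constructor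
        · rintro ⟨w, hw, he⟩
          rw [Projectivization.mk_eq_mk_iff'] at he
          obtain ⟨a, ha⟩ := he
          have ha0 : a ≠ 0 := by
            rintro rfl
            rw [zero_smul] at ha
            exact w.2 ha.symm
          refine ⟨Units.mk0 a ha0, ?_⟩
          have : (⟨((Units.mk0 a ha0 : ℂˣ) : ℂ) • z.1, smul_ne_zero (Units.ne_zero _) z.2⟩ :
            {z : ι → ℂ // z ≠ 0}) = w := Subtype.ext ha
          rw [this]
          exact hw
        · rintro ⟨c, hc⟩
          refine ⟨_, hc, ?_⟩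
          rw [Projectivization.mk_eq_mk_iff']
          exact ⟨(c : ℂ), rfl⟩
      rw [h1]
      apply isOpen_iUnion
      intro c
      apply hU.preimage
      apply Continuous.subtype_mk
      fun_prop
  rw [t2Space_iff_of_isOpenQuotientMap hq]
  have h2 : {q : {z : ι → ℂ // z ≠ 0} × {z : ι → ℂ // z ≠ 0} |
      Projectivization.mk ℂ q.1.1 q.1.2 = Projectivization.mk ℂ q.2.1 q.2.2}
      = ⋂ i, ⋂ j, {q | q.1.1 i * q.2.1 j = q.1.1 j * q.2.1 i} := by
    ext q
    simp only [Set.mem_ofPred_eq, Set.mem_iInter]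
    rw [Projectivization.mk_eq_mk_iff']
    constructor
    · rintro ⟨a, ha⟩ i j
      rw [← ha]
      simp only [Pi.smul_apply, smul_eq_mul]
      ring
    · intro h
      obtain ⟨k, hk⟩ : ∃ k, q.2.1 k ≠ 0 := by
        by_contra hcon
        push Not at hcon
        exact q.2.2 (funext hcon)
      refine ⟨q.1.1 k / q.2.1 k, ?_⟩
      funext i
      simp only [Pi.smul_apply, smul_eq_mul]
      have := h i k
      field_simp
      rw [← this]
      ring
  have h3 := isClosed_iInter (fun i : ι => isClosed_iInter (fun j : ι =>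
    isClosed_eq
      (f := fun q : {z : ι → ℂ // z ≠ 0} × {z : ι → ℂ // z ≠ 0} => q.1.1 i * q.2.1 j)
      (g := fun q => q.1.1 j * q.2.1 i)
      (((continuous_apply i).comp (continuous_subtype_val.comp continuous_fst)).mul
        ((continuous_apply j).comp (continuous_subtype_val.comp continuous_snd)))
      (((continuous_apply j).comp (continuous_subtype_val.comp continuous_fst)).mul
        ((continuous_apply i).comp (continuous_subtype_val.comp continuous_snd)))))
  rw [← h2] at h3
  exact h3

/-- Two open quotients of the same space with the same fibres are homeomorphic. -/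
theorem exists_homeo {Z X Y : Type*} [TopologicalSpace Z] [TopologicalSpace X]
    [TopologicalSpace Y] (p : Z → X) (q : Z → Y) (hp : IsOpenQuotientMap p)
    (hq : IsOpenQuotientMap q) (h : ∀ z z', p z = p z' ↔ q z = q z') :
    ∃ e : X ≃ₜ Y, ∀ z, e (p z) = q z := by
  classical
  choose a ha using hp.surjective
  choose b hb using hq.surjective
  have h1 : ∀ z, q (a (p z)) = q z := fun z => (h _ _).mp (ha (p z))
  have h2 : ∀ z, p (b (q z)) = p z := fun z => (h _ _).mpr (hb (q z))
  refine ⟨{ toFun := fun x => q (a x)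
            invFun := fun y => p (b y)
            left_inv := fun x => ?_
            right_inv := fun y => ?_
            continuous_toFun := ?_
            continuous_invFun := ?_ }, h1⟩
  · change p (b (q (a x))) = x
    rw [h2, ha]
  · change q (a (p (b y))) = y
    rw [h1, hb]
  · rw [hp.isQuotientMap.continuous_iff]
    have : (fun x => q (a x)) ∘ p = q := funext h1
    rw [this]
    exact hq.continuous
  · rw [hq.isQuotientMap.continuous_iff]
    have : (fun y => p (b y)) ∘ q = p := funext h2
    rw [this]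
    exact hp.continuous

end Pool.Agent.Y199.Bi
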