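import Pool.Agent.Y199.Bi.Sig
import Pool.Agent.Y199.Bi.Prj

/-! The total space: parametrisation, fibres of the parametrisation, properness, openness. -/

set_option autoImplicit false

open scoped LinearAlgebra.Projectivization

namespace Pool.Agent.Y199.Bi

open Complex Pool.Agent.Helper922.HB

noncomputable section

/-- index set of the homogeneous coordinates -/
abbrev II := Fin 3 × Fin 4

/-- parameters of the characters -/
def tt : Fin 3 → ℝ := ![0, 1 / 3, 1 / 2]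

/-- homogeneous coordinates -/
def Psi (u : ℂ) (w : Fin 3 → ℂ) : II → ℂ := fun p => w p.1 * ET (tt p.1) u p.2

theorem Psi_ne {w : Fin 3 → ℂ} (hw : w ≠ 0) (u : ℂ) : Psi u w ≠ 0 := by
  intro h
  apply hw
  funext i
  by_contra hi
  apply ET_ne (tt i) u
  funext j
  have := congrFun h (i, j)
  exact (mul_eq_zero.mp this).resolve_left hi

theorem Psi_smul (c u : ℂ) (w : Fin 3 → ℂ) : Psi u (c • w) = c • Psi u w := by
  funext p
  simp only [Psi, Pi.smul_apply, smul_eq_mul]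
  ring

/-- the parameter space -/
abbrev PP : Type := {q : ℂ × (Fin 3 → ℂ) × ℂ //
  q.2.1 ≠ 0 ∧ q.2.1 2 ^ 2 * q.2.1 0 = q.2.1 1 ^ 3 + q.2.2 * q.2.1 0 ^ 3}

/-- the parametrisation -/
def Phi (q : PP) : ℂ × ℙ ℂ (II → ℂ) :=
  (q.1.2.2, Projectivization.mk ℂ (Psi q.1.1 q.1.2.1) (Psi_ne q.2.1 _))

/-- the total space -/
def XX : Set (ℂ × ℙ ℂ (II → ℂ)) := Set.range Phi

/-- the action of the integers on the coordinates -/
def act (m : ℤ) (w : Fin 3 → ℂ) : Fin 3 → ℂ := fun i => exp (2 * Real.pi * I * tt i * m) * w i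

theorem act_ne {m : ℤ} {w : Fin 3 → ℂ} (hw : w ≠ 0) : act m w ≠ 0 := by
  intro h
  apply hw
  funext i
  exact (mul_eq_zero.mp (congrFun h i)).resolve_left (exp_ne_zero _)

theorem act_0 (m : ℤ) (w : Fin 3 → ℂ) : act m w 0 = w 0 := by
  simp [act, tt]

theorem act_1 (m : ℤ) (w : Fin 3 → ℂ) : act m w 1 = exp (2 * Real.pi * I * m / 3) * w 1 := by
  simp only [act, tt, Matrix.cons_val_one, Matrix.cons_val_zero]
  congr 2
  push_cast
  ring

theorem act_2 (m : ℤ) (w : Fin 3 → ℂ) : act m w 2 = exp (Real.pi * I * m) * w 2 := by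
  simp only [act, tt, Matrix.cons_val]
  congr 2
  push_cast
  ring

theorem act_1_cube (m : ℤ) (w : Fin 3 → ℂ) : act m w 1 ^ 3 = w 1 ^ 3 := by
  rw [act_1, mul_pow, ← exp_nat_mul]
  have : ((3 : ℕ) : ℂ) * (2 * Real.pi * I * m / 3) = m * (2 * Real.pi * I) := by push_cast; ring
  rw [this, exp_int_mul_two_pi_mul_I, one_mul]

theorem act_2_sq (m : ℤ) (w : Fin 3 → ℂ) : act m w 2 ^ 2 = w 2 ^ 2 := by
  rw [act_2, mul_pow, ← exp_nat_mul]
  have : ((2 : ℕ) : ℂ) * (Real.pi * I * m) = m * (2 * Real.pi * I) := by push_cast; ring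
  rw [this, exp_int_mul_two_pi_mul_I, one_mul]

/-- translation by the group -/
def trans (m n : ℤ) (c : ℂˣ) (q : PP) : PP :=
  ⟨(q.1.1 + (m + n * I), (c : ℂ) • act m q.1.2.1, q.1.2.2), by
    refine ⟨smul_ne_zero c.ne_zero (act_ne q.2.1), ?_⟩
    have h := q.2.2
    simp only [Pi.smul_apply, smul_eq_mul]
    have h1 := act_1_cube m q.1.2.1
    have h2 := act_2_sq m q.1.2.1
    have h0 := act_0 m q.1.2.1
    rw [mul_pow, mul_pow, mul_pow, h1, h2, h0]
    linear_combination (c : ℂ) ^ 3 * h⟩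

theorem continuous_trans (m n : ℤ) (c : ℂˣ) : Continuous (trans m n c) := by
  unfold trans act
  fun_prop

theorem Psi_add (m n : ℤ) (u : ℂ) : ∃ g : ℂ, g ≠ 0 ∧ ∀ w : Fin 3 → ℂ,
    Psi (u + (m + n * I)) (act m w) = g • Psi u w := by
  obtain ⟨g, hg, h⟩ := ET_add m n
  refine ⟨g u, hg u, fun w => ?_⟩
  funext p
  simp only [Psi, Pi.smul_apply, smul_eq_mul, act]
  rw [h, Pi.smul_apply, smul_eq_mul]
  have : exp (2 * Real.pi * I * tt p.1 * m) * exp (-(2 * Real.pi * I * tt p.1 * m)) = 1 := by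
    rw [← exp_add, add_neg_cancel, exp_zero]
  linear_combination w p.1 * g u * ET (tt p.1) u p.2 * this

theorem Phi_trans (m n : ℤ) (c : ℂˣ) (q : PP) : Phi (trans m n c q) = Phi q := by
  refine Prod.ext rfl ((Projectivization.mk_eq_mk_iff' ℂ _ _ _ _).mpr ?_)
  obtain ⟨g, hg, h⟩ := Psi_add m n q.1.1
  refine ⟨c * g, ?_⟩
  change (c * g) • Psi q.1.1 q.1.2.1 = Psi (q.1.1 + (m + n * I)) ((c : ℂ) • act m q.1.2.1)
  rw [Psi_smul, h, smul_smul]

theorem Phi_eq {q q' : PP} (h : Phi q = Phi q') :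
    ∃ (m n : ℤ) (c : ℂˣ), q' = trans m n c q := by
  have hs : q.1.2.2 = q'.1.2.2 := congrArg Prod.fst h
  have hp : Projectivization.mk ℂ (Psi q.1.1 q.1.2.1) (Psi_ne q.2.1 _) =
    Projectivization.mk ℂ (Psi q'.1.1 q'.1.2.1) (Psi_ne q'.2.1 _) := congrArg Prod.snd h
  rw [Projectivization.mk_eq_mk_iff'] at hp
  obtain ⟨a, ha⟩ := hp
  have ha0 : a ≠ 0 := by
    rintro rfl
    rw [zero_smul] at ha
    exact Psi_ne q.2.1 _ ha.symm
  obtain ⟨i, hi⟩ : ∃ i, q.1.2.1 i ≠ 0 := by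
    by_contra hcon
    push Not at hcon
    exact q.2.1 (funext hcon)
  have hb : ∀ i j, a * (q'.1.2.1 i * ET (tt i) q'.1.1 j) = q.1.2.1 i * ET (tt i) q.1.1 j :=
    fun i j => congrFun ha (i, j)
  have h1 : ET (tt i) q.1.1 = (a * q'.1.2.1 i / q.1.2.1 i) • ET (tt i) q'.1.1 := by
    funext j
    simp only [Pi.smul_apply, smul_eq_mul]
    have := hb i j
    field_simp
    linear_combination -this
  obtain ⟨m', n', hmn⟩ := ET_inj h1
  obtain ⟨g, hg, hadd⟩ := ET_add (-m') (-n')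
  have hu : q'.1.1 = q.1.1 + (((-m' : ℤ) : ℂ) + ((-n' : ℤ) : ℂ) * I) := by
    push_cast
    linear_combination -hmn
  refine ⟨-m', -n', Units.mk0 (a * g q.1.1)⁻¹ (inv_ne_zero (mul_ne_zero ha0 (hg _))), ?_⟩
  apply Subtype.ext
  refine Prod.ext hu (Prod.ext ?_ hs.symm)
  funext i
  change q'.1.2.1 i = (a * g q.1.1)⁻¹ * (exp (2 * Real.pi * I * tt i * ((-m' : ℤ) : ℂ)) * q.1.2.1 i)
  obtain ⟨j, hj⟩ : ∃ j, ET (tt i) q.1.1 j ≠ 0 := by
    by_contra hcon
    push Not at hcon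
    exact ET_ne _ _ (funext hcon)
  have h2 := hb i j
  rw [hu, hadd, Pi.smul_apply, smul_eq_mul] at h2
  have h3 : exp (2 * Real.pi * I * tt i * ((-m' : ℤ) : ℂ)) *
      exp (-(2 * Real.pi * I * tt i * ((-m' : ℤ) : ℂ))) = 1 := by
    rw [← exp_add, add_neg_cancel, exp_zero]
  have h4 : a * g q.1.1 * exp (-(2 * Real.pi * I * tt i * ((-m' : ℤ) : ℂ))) * q'.1.2.1 i =
      q.1.2.1 i := by
    apply mul_right_cancel₀ hj
    linear_combination h2
  rw [← h4]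
  have hg' := hg q.1.1
  have h5 : (a * g q.1.1)⁻¹ * (exp (2 * Real.pi * I * tt i * ((-m' : ℤ) : ℂ)) *
      (a * g q.1.1 * exp (-(2 * Real.pi * I * tt i * ((-m' : ℤ) : ℂ))) * q'.1.2.1 i)) =
      (a * g q.1.1)⁻¹ * (a * g q.1.1) * (exp (2 * Real.pi * I * tt i * ((-m' : ℤ) : ℂ)) *
      exp (-(2 * Real.pi * I * tt i * ((-m' : ℤ) : ℂ)))) * q'.1.2.1 i := by ring
  rw [h5, h3, inv_mul_cancel₀ (mul_ne_zero ha0 hg')]
  ring

theorem continuous_ET (t : ℝ) : Continuous (ET t) := (ET_diff t).continuous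

theorem continuous_Psi {α : Type*} [TopologicalSpace α] {f : α → ℂ} {w : α → Fin 3 → ℂ}
    (hf : Continuous f) (hw : Continuous w) : Continuous fun a => Psi (f a) (w a) := by
  refine continuous_pi fun p => ?_
  have h1 := (continuous_ET (tt p.1)).comp hf
  exact ((continuous_apply p.1).comp hw).mul ((continuous_apply p.2).comp h1)

theorem continuous_Phi : Continuous Phi := by
  refine Continuous.prodMk (by fun_prop) ?_
  exact cont_mk (continuous_Psi (by fun_prop) (by fun_prop)) _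

/-- the fundamental domain -/
def KK : Set PP := {q | 0 ≤ q.1.1.re ∧ q.1.1.re ≤ 1 ∧ 0 ≤ q.1.1.im ∧ q.1.1.im ≤ 1 ∧ ‖q.1.2.1‖ = 1}

theorem exists_KK (q : PP) : ∃ q' ∈ KK, Phi q' = Phi q := by
  set m := ⌊q.1.1.re⌋ with hm
  set n := ⌊q.1.1.im⌋ with hn
  have hw : act (-m) q.1.2.1 ≠ 0 := act_ne q.2.1
  have hpos : 0 < ‖act (-m) q.1.2.1‖ := norm_pos_iff.mpr hw
  refine ⟨trans (-m) (-n) (Units.mk0 ((‖act (-m) q.1.2.1‖ : ℝ) : ℂ)⁻¹ (inv_ne_zero (by
    exact_mod_cast hpos.ne'))) q, ?_, Phi_trans _ _ _ _⟩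
  have h1 := Int.floor_le q.1.1.re
  have h2 := Int.lt_floor_add_one q.1.1.re
  have h3 := Int.floor_le q.1.1.im
  have h4 := Int.lt_floor_add_one q.1.1.im
  have e1 : (q.1.1 + (((-m : ℤ) : ℂ) + ((-n : ℤ) : ℂ) * I)).re = q.1.1.re - m := by
    simp
    ring
  have e2 : (q.1.1 + (((-m : ℤ) : ℂ) + ((-n : ℤ) : ℂ) * I)).im = q.1.1.im - n := by
    simp
    ring
  refine ⟨?_, ?_, ?_, ?_, ?_⟩
  · change 0 ≤ (q.1.1 + (((-m : ℤ) : ℂ) + ((-n : ℤ) : ℂ) * I)).re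
    rw [e1]; linarith
  · change (q.1.1 + (((-m : ℤ) : ℂ) + ((-n : ℤ) : ℂ) * I)).re ≤ 1
    rw [e1]; linarith
  · change 0 ≤ (q.1.1 + (((-m : ℤ) : ℂ) + ((-n : ℤ) : ℂ) * I)).im
    rw [e2]; linarith
  · change (q.1.1 + (((-m : ℤ) : ℂ) + ((-n : ℤ) : ℂ) * I)).im ≤ 1
    rw [e2]; linarith
  · change ‖((‖act (-m) q.1.2.1‖ : ℝ) : ℂ)⁻¹ • act (-m) q.1.2.1‖ = 1
    rw [norm_smul, norm_inv, norm_real, norm_norm, inv_mul_cancel₀ hpos.ne']

theorem isClosed_KK' : IsClosed {q : ℂ × (Fin 3 → ℂ) × ℂ |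
    (0 ≤ q.1.re ∧ q.1.re ≤ 1 ∧ 0 ≤ q.1.im ∧ q.1.im ≤ 1 ∧ ‖q.2.1‖ = 1) ∧
    q.2.1 2 ^ 2 * q.2.1 0 = q.2.1 1 ^ 3 + q.2.2 * q.2.1 0 ^ 3} := by
  have e1 : IsClosed {q : ℂ × (Fin 3 → ℂ) × ℂ | 0 ≤ q.1.re} :=
    isClosed_le continuous_const (by fun_prop)
  have e2 : IsClosed {q : ℂ × (Fin 3 → ℂ) × ℂ | q.1.re ≤ 1} :=
    isClosed_le (by fun_prop) continuous_const
  have e3 : IsClosed {q : ℂ × (Fin 3 → ℂ) × ℂ | 0 ≤ q.1.im} :=
    isClosed_le continuous_const (by fun_prop)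
  have e4 : IsClosed {q : ℂ × (Fin 3 → ℂ) × ℂ | q.1.im ≤ 1} :=
    isClosed_le (by fun_prop) continuous_const
  have e5 : IsClosed {q : ℂ × (Fin 3 → ℂ) × ℂ | ‖q.2.1‖ = 1} :=
    isClosed_eq (by fun_prop) continuous_const
  have e6 : IsClosed {q : ℂ × (Fin 3 → ℂ) × ℂ |
      q.2.1 2 ^ 2 * q.2.1 0 = q.2.1 1 ^ 3 + q.2.2 * q.2.1 0 ^ 3} :=
    isClosed_eq (by fun_prop) (by fun_prop)
  exact (e1.inter (e2.inter (e3.inter (e4.inter e5)))).inter e6

theorem isClosed_image {C : Set PP} (hC : IsClosed C) (hCK : C ⊆ KK) :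
    IsClosed (Phi '' C) := by
  -- sequentially through properness
  have hprop : IsProperMap (fun q : C => Phi q.1) := by
    refine isProperMap_of_comp_of_t2 (continuous_Phi.comp continuous_subtype_val)
      continuous_fst ?_
    have he : (Prod.fst ∘ fun q : C => Phi q.1) = fun q : C => q.1.1.2.2 := rfl
    rw [he, isProperMap_iff_isCompact_preimage]
    refine ⟨by fun_prop, fun T hT => ?_⟩
    let v : C → ℂ × (Fin 3 → ℂ) × ℂ := fun q => q.1.1
    have hv : Topology.IsEmbedding v :=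
      Topology.IsEmbedding.subtypeVal.comp Topology.IsEmbedding.subtypeVal
    rw [hv.isCompact_iff]
    -- the image is closed and bounded
    have hcl : IsClosed (v '' ((fun q : C => q.1.1.2.2) ⁻¹' T)) := by
      obtain ⟨D, hD, hDC⟩ := isClosed_induced_iff.mp hC
      have : v '' ((fun q : C => q.1.1.2.2) ⁻¹' T) = ({q : ℂ × (Fin 3 → ℂ) × ℂ |
          (0 ≤ q.1.re ∧ q.1.re ≤ 1 ∧ 0 ≤ q.1.im ∧ q.1.im ≤ 1 ∧ ‖q.2.1‖ = 1) ∧
          q.2.1 2 ^ 2 * q.2.1 0 = q.2.1 1 ^ 3 + q.2.2 * q.2.1 0 ^ 3} ∩ D) ∩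
          ((fun q : ℂ × (Fin 3 → ℂ) × ℂ => q.2.2) ⁻¹' T) := by
        ext z
        constructor
        · rintro ⟨q, hq, rfl⟩
          have h1 := hCK q.2
          refine ⟨⟨⟨h1, q.1.2.2⟩, ?_⟩, hq⟩
          have h2 : q.1 ∈ Subtype.val ⁻¹' D := by rw [hDC]; exact q.2
          exact h2
        · rintro ⟨⟨⟨h1, h2⟩, h3⟩, h4⟩
          have hz : z.2.1 ≠ 0 := by
            intro h0
            have := h1.2.2.2.2
            rw [h0, norm_zero] at this
            exact zero_ne_one this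
          have hzC : (⟨z, hz, h2⟩ : PP) ∈ C := by
            rw [← hDC]; exact h3
          exact ⟨⟨⟨z, hz, h2⟩, hzC⟩, h4, rfl⟩
      rw [this]
      exact (isClosed_KK'.inter hD).inter (hT.isClosed.preimage (by fun_prop))
    refine Metric.isCompact_of_isClosed_isBounded hcl ?_
    obtain ⟨M, hM⟩ := hT.isBounded.exists_norm_le
    refine (Metric.isBounded_closedBall (x := (0 : ℂ × (Fin 3 → ℂ) × ℂ)) (r := max 2 M)).subset ?_
    rintro _ ⟨q, hq, rfl⟩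
    obtain ⟨h1, h2, h3, h4, h5⟩ := hCK q.2
    rw [mem_closedBall_zero_iff, Prod.norm_def, Prod.norm_def]
    refine max_le ?_ (max_le ?_ ?_)
    · refine le_trans ?_ (le_max_left _ _)
      calc ‖q.1.1.1‖ ≤ |q.1.1.1.re| + |q.1.1.1.im| := Complex.norm_le_abs_re_add_abs_im _
        _ ≤ 1 + 1 := by
            rw [abs_of_nonneg h1, abs_of_nonneg h3]
            linarith
        _ = 2 := by norm_num
    · refine le_trans ?_ (le_max_left _ _)
      change ‖q.1.1.2.1‖ ≤ 2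
      rw [h5]; norm_num
    · exact (hM _ hq).trans (le_max_right _ _)
  have h1 := hprop.isClosedMap.isClosed_range
  rwa [Set.range_comp' (g := Phi) (f := Subtype.val), Subtype.range_val] at h1

theorem isClosed_preimage_KK : IsClosed KK := by
  have h := isClosed_KK'.preimage (continuous_subtype_val (p := fun q : ℂ × (Fin 3 → ℂ) × ℂ =>
    q.2.1 ≠ 0 ∧ q.2.1 2 ^ 2 * q.2.1 0 = q.2.1 1 ^ 3 + q.2.2 * q.2.1 0 ^ 3))
  convert h using 1
  ext q
  exact ⟨fun hq => ⟨hq, q.2.2⟩, fun hq => hq.1⟩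

theorem isClosed_XX : IsClosed XX := by
  have h : XX = Phi '' KK := by
    ext p
    constructor
    · rintro ⟨q, rfl⟩
      obtain ⟨q', hq', h⟩ := exists_KK q
      exact ⟨q', hq', h⟩
    · rintro ⟨q, -, rfl⟩
      exact ⟨q, rfl⟩
  rw [h]
  exact isClosed_image isClosed_preimage_KK subset_rfl

/-- the parametrisation as a map to the total space -/
def PhiX (q : PP) : XX := ⟨Phi q, q, rfl⟩

theorem continuous_PhiX : Continuous PhiX := Continuous.subtype_mk continuous_Phi _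

theorem PhiX_surj : Function.Surjective PhiX := by
  rintro ⟨_, q, rfl⟩
  exact ⟨q, rfl⟩

theorem PhiX_eq_iff {q q' : PP} : PhiX q = PhiX q' ↔ ∃ (m n : ℤ) (c : ℂˣ), q' = trans m n c q := by
  constructor
  · intro h
    exact Phi_eq (congrArg Subtype.val h)
  · rintro ⟨m, n, c, rfl⟩
    apply Subtype.ext
    exact (Phi_trans m n c q).symm

theorem isOpenMap_PhiX : IsOpenMap PhiX := by
  intro N hN
  have hsat : IsOpen (PhiX ⁻¹' (PhiX '' N)) := by
    have : PhiX ⁻¹' (PhiX '' N) = ⋃ (m : ℤ) (n : ℤ) (c : ℂˣ), trans m n c ⁻¹' N := by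
      ext q
      simp only [Set.mem_preimage, Set.mem_image, Set.mem_iUnion]
      constructor
      · rintro ⟨q', hq', h⟩
        obtain ⟨m, n, c, rfl⟩ := PhiX_eq_iff.mp h.symm
        exact ⟨m, n, c, hq'⟩
      · rintro ⟨m, n, c, h⟩
        exact ⟨_, h, (PhiX_eq_iff.mpr ⟨m, n, c, rfl⟩).symm⟩
    rw [this]
    exact isOpen_iUnion fun m => isOpen_iUnion fun n => isOpen_iUnion fun c =>
      hN.preimage (continuous_trans m n c)
  have hcl : IsClosed (Phi '' (KK ∩ (PhiX ⁻¹' (PhiX '' N))ᶜ)) :=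
    isClosed_image (isClosed_preimage_KK.inter hsat.isClosed_compl) Set.inter_subset_left
  rw [← isClosed_compl_iff]
  have : (PhiX '' N)ᶜ = Subtype.val ⁻¹' (Phi '' (KK ∩ (PhiX ⁻¹' (PhiX '' N))ᶜ)) := by
    ext p
    constructor
    · intro hp
      obtain ⟨q, rfl⟩ := PhiX_surj p
      obtain ⟨q', hq', h⟩ := exists_KK q
      refine ⟨q', ⟨hq', ?_⟩, h⟩
      intro hc
      apply hp
      have h' : PhiX q' = PhiX q := Subtype.ext h
      rw [← h']
      exact hc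
    · rintro ⟨q, ⟨-, hq⟩, h⟩ hp
      apply hq
      have h' : PhiX q = p := Subtype.ext h
      change PhiX q ∈ PhiX '' N
      rw [h']
      exact hp
  rw [this]
  exact hcl.preimage continuous_subtype_val

end

end Pool.Agent.Y199.Bi
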