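import Pool.Agent.Y199.Bi.Loc
import Pool.Agent.Y199.Bi.Asm

/-! The two topological charts of the total space. -/

set_option autoImplicit false

open scoped LinearAlgebra.Projectivization

namespace Pool.Agent.Y199.Bi

open Complex Pool.Agent.Helper922.HB

noncomputable section

theorem PhiX_trans (m n : ℤ) (c : ℂˣ) (q : PP) : PhiX (trans m n c q) = PhiX q :=
  Subtype.ext (Phi_trans m n c q)

theorem PhiX_psi1 {q : PP} (h0 : q.1.2.1 0 ≠ 0) :
    PhiX (psi1 ![q.1.1, q.1.2.1 1 / q.1.2.1 0, q.1.2.1 2 / q.1.2.1 0]) = PhiX q := by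
  rw [← PhiX_trans 0 0 (Units.mk0 _ h0) (psi1 _)]
  congr 1
  apply Subtype.ext
  refine Prod.ext ?_ (Prod.ext ?_ ?_)
  · change q.1.1 + (((0 : ℤ) : ℂ) + ((0 : ℤ) : ℂ) * I) = q.1.1
    simp
  · change (q.1.2.1 0) • act 0 _ = q.1.2.1
    rw [act_zero]
    funext i
    fin_cases i
    · change q.1.2.1 0 * 1 = q.1.2.1 0
      ring
    · change q.1.2.1 0 * (q.1.2.1 1 / q.1.2.1 0) = q.1.2.1 1
      field_simp
    · change q.1.2.1 0 * (q.1.2.1 2 / q.1.2.1 0) = q.1.2.1 2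
      field_simp
  · change (q.1.2.1 2 / q.1.2.1 0) ^ 2 - (q.1.2.1 1 / q.1.2.1 0) ^ 3 = q.1.2.2
    have := q.2.2
    field_simp
    linear_combination this

theorem PhiX_psi2 {q : PP} (h0 : q.1.2.1 2 ≠ 0)
    (h : ‖q.1.2.2‖ * ‖q.1.2.1 0‖ ^ 2 < ‖q.1.2.1 2‖ ^ 2) :
    PhiX (psi2 ![q.1.1, q.1.2.1 1 / q.1.2.1 2 /
      cb (1 - q.1.2.2 * (q.1.2.1 0 / q.1.2.1 2) ^ 2), q.1.2.2]) = PhiX q := by
  have hcube := D2_cube h0 h
  have hcb := cb_ne (D2_slit h0 h)
  rw [← PhiX_trans 0 0 (Units.mk0 _ h0) (psi2 _)]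
  congr 1
  apply Subtype.ext
  refine Prod.ext ?_ (Prod.ext ?_ rfl)
  · change q.1.1 + (((0 : ℤ) : ℂ) + ((0 : ℤ) : ℂ) * I) = q.1.1
    simp
  · change (q.1.2.1 2) • act 0 _ = q.1.2.1
    rw [act_zero]
    funext i
    fin_cases i
    · change q.1.2.1 2 * (q.1.2.1 1 / q.1.2.1 2 /
        cb (1 - q.1.2.2 * (q.1.2.1 0 / q.1.2.1 2) ^ 2)) ^ 3 = q.1.2.1 0
      rw [hcube]
      field_simp
    · change q.1.2.1 2 * ((q.1.2.1 1 / q.1.2.1 2 /
        cb (1 - q.1.2.2 * (q.1.2.1 0 / q.1.2.1 2) ^ 2)) * cb (1 - q.1.2.2 *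
          (q.1.2.1 1 / q.1.2.1 2 /
        cb (1 - q.1.2.2 * (q.1.2.1 0 / q.1.2.1 2) ^ 2)) ^ 6)) = q.1.2.1 1
      have e6 : (q.1.2.1 1 / q.1.2.1 2 /
        cb (1 - q.1.2.2 * (q.1.2.1 0 / q.1.2.1 2) ^ 2)) ^ 6 =
          (q.1.2.1 0 / q.1.2.1 2) ^ 2 := by
        have e9 : ∀ t z : ℂ, t ^ 3 = z → t ^ 6 = z ^ 2 := by
          rintro t z rfl
          ring
        exact e9 _ _ hcube
      rw [e6, div_mul_cancel₀ _ hcb]
      field_simp
    · change q.1.2.1 2 * 1 = q.1.2.1 2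
      ring

theorem openQ {Z : Type} [TopologicalSpace Z] (ψ : Z → PP) (hψ : Continuous ψ)
    (D : Set PP) (hD : IsOpen D) (h1 : ∀ z, ψ z ∈ D) (R : D → Z) (hR : Continuous R)
    (h2 : ∀ z, R ⟨ψ z, h1 z⟩ = z) (h3 : ∀ q : D, PhiX (ψ (R q)) = PhiX q.1) :
    IsOpenQuotientMap (fun z => (⟨PhiX (ψ z), ψ z, h1 z, rfl⟩ : ↥(PhiX '' D))) := by
  refine ⟨?_, Continuous.subtype_mk (continuous_PhiX.comp hψ) _, ?_⟩
  · rintro ⟨_, q, hq, rfl⟩
    exact ⟨R ⟨q, hq⟩, Subtype.ext (h3 ⟨q, hq⟩)⟩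
  · intro N hN
    have h5 : (fun z => (⟨PhiX (ψ z), ψ z, h1 z, rfl⟩ : ↥(PhiX '' D))) '' N =
        Subtype.val ⁻¹' (PhiX '' (Subtype.val '' (R ⁻¹' N))) := by
      ext x
      constructor
      · rintro ⟨v, hv, rfl⟩
        refine ⟨ψ v, ⟨⟨ψ v, h1 v⟩, ?_, rfl⟩, rfl⟩
        change R ⟨ψ v, h1 v⟩ ∈ N
        rw [h2]
        exact hv
      · rintro ⟨_, ⟨q, hq, rfl⟩, hx⟩
        refine ⟨R q, hq, Subtype.ext ?_⟩
        rw [← hx]
        exact h3 q
    rw [h5]
    exact (isOpenMap_PhiX _ (hD.isOpenMap_subtype_val _ (hN.preimage hR))).preimage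
      continuous_subtype_val

/-- the affine part of the parameter space -/
def D1 : Set PP := {q | q.1.2.1 0 ≠ 0}

/-- the part of the parameter space near infinity -/
def D2 : Set PP := {q | q.1.2.1 2 ≠ 0 ∧ ‖q.1.2.2‖ * ‖q.1.2.1 0‖ ^ 2 < ‖q.1.2.1 2‖ ^ 2}

theorem isOpen_D1 : IsOpen D1 := isOpen_ne_fun (by fun_prop) continuous_const

theorem isOpen_D2 : IsOpen D2 := by
  have o1 : IsOpen {q : PP | q.1.2.1 2 ≠ 0} := isOpen_ne_fun (by fun_prop) continuous_const
  have o2 : IsOpen {q : PP | ‖q.1.2.2‖ * ‖q.1.2.1 0‖ ^ 2 < ‖q.1.2.1 2‖ ^ 2} :=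
    isOpen_lt (by fun_prop) (by fun_prop)
  exact o1.inter o2

theorem D_cover (x : XX) : x ∈ PhiX '' D1 ∨ x ∈ PhiX '' D2 := by
  obtain ⟨q, rfl⟩ := PhiX_surj x
  by_cases h0 : q.1.2.1 0 = 0
  · right
    have h1 : q.1.2.1 1 = 0 := by
      have := q.2.2
      rw [h0] at this
      have h3 : q.1.2.1 1 ^ 3 = 0 := by linear_combination -this
      exact pow_eq_zero_iff three_ne_zero |>.mp h3
    have h2 : q.1.2.1 2 ≠ 0 := by
      intro h2
      apply q.2.1
      funext i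
      fin_cases i
      · exact h0
      · exact h1
      · exact h2
    refine ⟨q, ⟨h2, ?_⟩, rfl⟩
    rw [h0, norm_zero]
    have : 0 < ‖q.1.2.1 2‖ := norm_pos_iff.mpr h2
    have h4 : ‖q.1.2.2‖ * (0 : ℝ) ^ 2 = 0 := by ring
    rw [h4]
    positivity
  · left
    exact ⟨q, h0, rfl⟩

theorem mem_D1_iff (q : PP) : PhiX q ∈ PhiX '' D1 ↔ q ∈ D1 := by
  constructor
  · rintro ⟨q', hq', h⟩
    obtain ⟨m, n, c, rfl⟩ := PhiX_eq_iff.mp h
    change (c : ℂ) * act m q'.1.2.1 0 ≠ 0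
    rw [act_0]
    exact mul_ne_zero c.ne_zero hq'
  · intro h
    exact ⟨q, h, rfl⟩

/-- the exponential to the circle with period one -/
def EE (r : ℝ) : Circle := Circle.exp (2 * Real.pi * r)

theorem EE_coe (r : ℝ) : (EE r : ℂ) = exp (2 * Real.pi * I * r) := by
  rw [EE, Circle.coe_exp]
  congr 1
  push_cast
  ring

theorem EE_quot : IsOpenQuotientMap EE := by
  have h1 : IsOpenQuotientMap (Circle.exp : ℝ → Circle) :=
    ⟨Circle.exp_surjective, Circle.exp.continuous, isLocalHomeomorph_circleExp.isOpenMap⟩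
  have h2 : IsOpenQuotientMap (fun r : ℝ => 2 * Real.pi * r) :=
    (Homeomorph.mulLeft₀ (2 * Real.pi) (by positivity)).isOpenQuotientMap
  exact h1.comp h2

theorem EE_eq {r r' : ℝ} : EE r = EE r' ↔ ∃ m : ℤ, r' = r + m := by
  unfold EE
  rw [Circle.exp_eq_exp]
  have hpi : (2 * Real.pi) ≠ 0 := by positivity
  constructor
  · rintro ⟨m, hm⟩
    refine ⟨-m, ?_⟩
    have h1 : 2 * Real.pi * r = 2 * Real.pi * (r' + m) := by rw [hm]; ring
    have h2 := mul_left_cancel₀ hpi h1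
    push_cast
    linarith
  · rintro ⟨m, rfl⟩
    refine ⟨-m, ?_⟩
    push_cast
    ring

theorem re_u (r b : ℝ) : ((r : ℂ) + b * I).re = r := by simp

theorem im_u (r b : ℝ) : ((r : ℂ) + b * I).im = b := by simp

theorem exp_cancel (z : ℂ) : exp (-z) * exp z = 1 := by
  rw [← exp_add, neg_add_cancel, exp_zero]

/-- the parametrisation of the affine part -/
def psiA (z : ℝ × ℝ × ℂ × ℂ) : PP :=
  psi1 ![(z.2.1 : ℂ) + z.1 * I, exp (2 * Real.pi * I * z.2.1 / 3) * z.2.2.1,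
    exp (Real.pi * I * z.2.1) * z.2.2.2]

theorem continuous_psiA : Continuous psiA := by
  refine cont_psi1.comp (continuous_pi fun i => ?_)
  fin_cases i
  · change Continuous fun z : ℝ × ℝ × ℂ × ℂ => (z.2.1 : ℂ) + z.1 * I
    fun_prop
  · change Continuous fun z : ℝ × ℝ × ℂ × ℂ => exp (2 * Real.pi * I * z.2.1 / 3) * z.2.2.1
    fun_prop
  · change Continuous fun z : ℝ × ℝ × ℂ × ℂ => exp (Real.pi * I * z.2.1) * z.2.2.2
    fun_prop

/-- the inverse on the parameter space -/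
def RA (q : D1) : ℝ × ℝ × ℂ × ℂ :=
  (q.1.1.1.im, q.1.1.1.re, exp (-(2 * Real.pi * I * q.1.1.1.re / 3)) *
    (q.1.1.2.1 1 / q.1.1.2.1 0), exp (-(Real.pi * I * q.1.1.1.re)) * (q.1.1.2.1 2 / q.1.1.2.1 0))

theorem continuous_RA : Continuous RA := by
  have h1 : Continuous fun q : D1 => q.1.1.2.1 1 / q.1.1.2.1 0 :=
    Continuous.div (by fun_prop) (by fun_prop) fun q => q.2
  have h2 : Continuous fun q : D1 => q.1.1.2.1 2 / q.1.1.2.1 0 :=
    Continuous.div (by fun_prop) (by fun_prop) fun q => q.2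
  unfold RA
  fun_prop

/-- the parametrisation of the affine part of the total space -/
def pA (z : ℝ × ℝ × ℂ × ℂ) : ↥(PhiX '' D1) :=
  ⟨PhiX (psiA z), psiA z, one_ne_zero, rfl⟩

theorem pA_quot : IsOpenQuotientMap pA := by
  refine openQ psiA continuous_psiA D1 isOpen_D1 (fun z => one_ne_zero) RA continuous_RA ?_ ?_
  · rintro ⟨b, r, x, y⟩
    refine Prod.ext ?_ (Prod.ext ?_ (Prod.ext ?_ ?_))
    · exact im_u r b
    · exact re_u r b
    · change exp (-(2 * Real.pi * I * (((r : ℂ) + b * I).re : ℝ) / 3)) *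
        (exp (2 * Real.pi * I * r / 3) * x / 1) = x
      rw [re_u, div_one, ← mul_assoc, exp_cancel, one_mul]
    · change exp (-(Real.pi * I * (((r : ℂ) + b * I).re : ℝ))) *
        (exp (Real.pi * I * r) * y / 1) = y
      rw [re_u, div_one, ← mul_assoc, exp_cancel, one_mul]
  · intro q
    rw [← PhiX_psi1 (q := q.1) q.2]
    refine congrArg (fun v => PhiX (psi1 v)) ?_
    funext i
    fin_cases i
    · exact re_add_im q.1.1.1
    · change exp (2 * Real.pi * I * q.1.1.1.re / 3) * (exp (-(2 * Real.pi * I * q.1.1.1.re / 3)) *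
        (q.1.1.2.1 1 / q.1.1.2.1 0)) = q.1.1.2.1 1 / q.1.1.2.1 0
      rw [← mul_assoc, mul_comm (exp _) (exp _), exp_cancel, one_mul]
    · change exp (Real.pi * I * q.1.1.1.re) * (exp (-(Real.pi * I * q.1.1.1.re)) *
        (q.1.1.2.1 2 / q.1.1.2.1 0)) = q.1.1.2.1 2 / q.1.1.2.1 0
      rw [← mul_assoc, mul_comm (exp _) (exp _), exp_cancel, one_mul]

/-- the model of the affine part -/
def qA (z : ℝ × ℝ × ℂ × ℂ) : Circle × Circle × ℂ × ℂ := (EE z.1, EE z.2.1, z.2.2)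

theorem qA_quot : IsOpenQuotientMap qA :=
  EE_quot.prodMap (EE_quot.prodMap IsOpenQuotientMap.id)

theorem expm3 (r : ℝ) (m : ℤ) : exp (2 * Real.pi * I * ((r + m : ℝ) : ℂ) / 3) =
    exp (2 * Real.pi * I * m / 3) * exp (2 * Real.pi * I * r / 3) := by
  rw [← exp_add]
  congr 1
  push_cast
  ring

theorem expm2 (r : ℝ) (m : ℤ) : exp (Real.pi * I * ((r + m : ℝ) : ℂ)) =
    exp (Real.pi * I * m) * exp (Real.pi * I * r) := by
  rw [← exp_add]
  congr 1
  push_cast
  ring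

theorem pA_eq (z z' : ℝ × ℝ × ℂ × ℂ) : pA z = pA z' ↔ qA z = qA z' := by
  obtain ⟨b, r, x, y⟩ := z
  obtain ⟨b', r', x', y'⟩ := z'
  have h0 : pA (b, r, x, y) = pA (b', r', x', y') ↔
      PhiX (psiA (b, r, x, y)) = PhiX (psiA (b', r', x', y')) :=
    ⟨fun h => congrArg Subtype.val h, fun h => Subtype.ext h⟩
  rw [h0, PhiX_eq_iff]
  constructor
  · rintro ⟨m, n, c, h⟩
    have e0 : (r' : ℂ) + b' * I = (r : ℂ) + b * I + (m + n * I) := congrArg (fun q : PP => q.1.1) h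
    have e1 := congrArg (fun q : PP => q.1.2.1) h
    have e2 : (1 : ℂ) = c * act m (w1 _) 0 := congrFun e1 0
    have e3 : exp (2 * Real.pi * I * r' / 3) * x' = c * act m (w1 _) 1 := congrFun e1 1
    have e4 : exp (Real.pi * I * r') * y' = c * act m (w1 _) 2 := congrFun e1 2
    rw [act_0] at e2
    rw [act_1] at e3
    rw [act_2] at e4
    have hc : (c : ℂ) = 1 := by
      have : (1 : ℂ) = c * 1 := e2
      rw [mul_one] at this
      exact this.symm
    have hr : r' = r + m := by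
      have := congrArg Complex.re e0
      simpa using this
    have hb : b' = b + n := by
      have := congrArg Complex.im e0
      simpa using this
    rw [hc, one_mul, hr, expm3] at e3
    rw [hc, one_mul, hr, expm2] at e4
    have e3' : exp (2 * Real.pi * I * m / 3) * exp (2 * Real.pi * I * r / 3) * x' =
      exp (2 * Real.pi * I * m / 3) * (exp (2 * Real.pi * I * r / 3) * x) := e3
    have e4' : exp (Real.pi * I * m) * exp (Real.pi * I * r) * y' =
      exp (Real.pi * I * m) * (exp (Real.pi * I * r) * y) := e4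
    rw [← mul_assoc] at e3' e4'
    have hx := mul_left_cancel₀ (mul_ne_zero (exp_ne_zero _) (exp_ne_zero _)) e3'
    have hy := mul_left_cancel₀ (mul_ne_zero (exp_ne_zero _) (exp_ne_zero _)) e4'
    refine Prod.ext (EE_eq.mpr ⟨n, hb⟩) (Prod.ext (EE_eq.mpr ⟨m, hr⟩) (Prod.ext hx.symm hy.symm))
  · intro h
    obtain ⟨n, hn⟩ := EE_eq.mp (congrArg Prod.fst h)
    obtain ⟨m, hm⟩ := EE_eq.mp (congrArg (fun p => p.2.1) h)
    have hx : x = x' := congrArg (fun p => p.2.2.1) h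
    have hy : y = y' := congrArg (fun p => p.2.2.2) h
    have hn' : b' = b + n := hn
    have hm' : r' = r + m := hm
    refine ⟨m, n, 1, ?_⟩
    apply Subtype.ext
    have key1 : exp (2 * Real.pi * I * r' / 3) * x' =
        exp (2 * Real.pi * I * m / 3) * (exp (2 * Real.pi * I * r / 3) * x) := by
      rw [hm', expm3, hx]; ring
    have key2 : exp (Real.pi * I * r') * y' =
        exp (Real.pi * I * m) * (exp (Real.pi * I * r) * y) := by
      rw [hm', expm2, hy]; ring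
    refine Prod.ext ?_ (Prod.ext ?_ ?_)
    · change (r' : ℂ) + b' * I = (r : ℂ) + b * I + (m + n * I)
      rw [hn', hm']
      push_cast
      ring
    · change w1 _ = (1 : ℂ) • act m (w1 _)
      rw [one_smul]
      funext i
      fin_cases i
      · change (1 : ℂ) = act m (w1 _) 0
        rw [act_0]
        rfl
      · change _ = act m (w1 _) 1
        rw [act_1]
        exact key1
      · change _ = act m (w1 _) 2
        rw [act_2]
        exact key2
    · change (exp (Real.pi * I * r') * y') ^ 2 - (exp (2 * Real.pi * I * r' / 3) * x') ^ 3 =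
        (exp (Real.pi * I * r) * y) ^ 2 - (exp (2 * Real.pi * I * r / 3) * x) ^ 3
      have k1 : exp (2 * Real.pi * I * m / 3) ^ 3 = 1 := by
        rw [← exp_nat_mul]
        have : ((3 : ℕ) : ℂ) * (2 * Real.pi * I * m / 3) = m * (2 * Real.pi * I) := by
          push_cast; ring
        rw [this, exp_int_mul_two_pi_mul_I]
      have k2 : exp (Real.pi * I * m) ^ 2 = 1 := by
        rw [← exp_nat_mul]
        have : ((2 : ℕ) : ℂ) * (Real.pi * I * m) = m * (2 * Real.pi * I) := by push_cast; ring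
        rw [this, exp_int_mul_two_pi_mul_I]
      rw [key1, key2, mul_pow _ (_ * x), mul_pow _ (_ * y), k1, k2, one_mul, one_mul]

theorem norm_e (z : ℂ) (hz : z.re = 0) : ‖exp z‖ = 1 := by
  rw [norm_exp, hz, Real.exp_zero]

/-- the parameters near infinity -/
abbrev ZZ : Type := {z : ℝ × ℝ × ℂ × ℂ // ‖z.2.2.2‖ * ‖z.2.2.1‖ ^ 6 < 1}

/-- the parametrisation near infinity -/
def psiN (z : ZZ) : PP :=
  psi2 ![(z.1.2.1 : ℂ) + z.1.1 * I, exp (-(Real.pi * I * z.1.2.1 / 3)) * z.1.2.2.1, z.1.2.2.2]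

theorem re_zero1 (r : ℝ) : (Real.pi * I * r / 3 : ℂ).re = 0 := by
  have : (Real.pi * I * r / 3 : ℂ) = ((Real.pi * r / 3 : ℝ) : ℂ) * I := by push_cast; ring
  rw [this, re_ofReal_mul, I_re, mul_zero]

theorem norm_psiN (z : ZZ) : ‖z.1.2.2.2‖ * ‖exp (-(Real.pi * I * z.1.2.1 / 3)) * z.1.2.2.1‖ ^ 6 < 1 := by
  rw [norm_mul, norm_e _ (by rw [neg_re, re_zero1, neg_zero]), one_mul]
  exact z.2

theorem psiN_mem (z : ZZ) : psiN z ∈ D2 := by
  refine ⟨one_ne_zero, ?_⟩
  change ‖z.1.2.2.2‖ * ‖(exp (-(Real.pi * I * z.1.2.1 / 3)) * z.1.2.2.1) ^ 3‖ ^ 2 < ‖(1 : ℂ)‖ ^ 2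
  rw [norm_pow, ← pow_mul, norm_one, one_pow]
  exact norm_psiN z

theorem continuous_psiN : Continuous psiN := by
  refine Continuous.subtype_mk ?_ _
  refine Continuous.prodMk ?_ (Continuous.prodMk ?_ ?_)
  · change Continuous fun z : ZZ => (z.1.2.1 : ℂ) + z.1.1 * I
    fun_prop
  · refine continuous_pi fun i => ?_
    have h1 : Continuous fun z : ZZ => exp (-(Real.pi * I * z.1.2.1 / 3)) * z.1.2.2.1 := by
      fun_prop
    have h2 : Continuous fun z : ZZ => z.1.2.2.2 := by fun_prop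
    fin_cases i
    · exact h1.pow 3
    · exact h1.mul (cont_cb (continuous_const.sub (h2.mul (h1.pow 6)))
        fun z => slit_of_lt (by rw [norm_mul, norm_pow]; exact norm_psiN z))
    · exact continuous_const
  · change Continuous fun z : ZZ => z.1.2.2.2
    fun_prop

theorem RN_mem (q : D2) : ‖q.1.1.2.2‖ * ‖exp (Real.pi * I * q.1.1.1.re / 3) *
    (q.1.1.2.1 1 / q.1.1.2.1 2 / cb (1 - q.1.1.2.2 * (q.1.1.2.1 0 / q.1.1.2.1 2) ^ 2))‖ ^ 6 < 1 := by
  rw [norm_mul, norm_e _ (re_zero1 _), one_mul]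
  have h1 := D2_cube q.2.1 q.2.2
  have e9 : ∀ t z : ℂ, t ^ 3 = z → ‖t‖ ^ 6 = ‖z‖ ^ 2 := by
    rintro t z rfl
    rw [norm_pow]
    ring
  rw [e9 _ _ h1, norm_div, div_pow, mul_div_assoc']
  have h2 : 0 < ‖q.1.1.2.1 2‖ := norm_pos_iff.mpr q.2.1
  rw [div_lt_one (by positivity)]
  exact q.2.2

/-- the inverse on the parameter space -/
def RN (q : D2) : ZZ :=
  ⟨(q.1.1.1.im, q.1.1.1.re, exp (Real.pi * I * q.1.1.1.re / 3) *
    (q.1.1.2.1 1 / q.1.1.2.1 2 / cb (1 - q.1.1.2.2 * (q.1.1.2.1 0 / q.1.1.2.1 2) ^ 2)),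
      q.1.1.2.2), RN_mem q⟩

theorem continuous_RN : Continuous RN := by
  refine Continuous.subtype_mk ?_ _
  have h1 : Continuous fun q : D2 => q.1.1.2.1 1 / q.1.1.2.1 2 :=
    Continuous.div (by fun_prop) (by fun_prop) fun q => q.2.1
  have h2 : Continuous fun q : D2 => q.1.1.2.1 0 / q.1.1.2.1 2 :=
    Continuous.div (by fun_prop) (by fun_prop) fun q => q.2.1
  have h3 : Continuous fun q : D2 => q.1.1.2.2 := by fun_prop
  have h4 : Continuous fun q : D2 => cb (1 - q.1.1.2.2 * (q.1.1.2.1 0 / q.1.1.2.1 2) ^ 2) :=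
    cont_cb (continuous_const.sub (h3.mul (h2.pow 2))) fun q => D2_slit q.2.1 q.2.2
  have h5 := h1.div h4 fun q => cb_ne (D2_slit q.2.1 q.2.2)
  have h6 : Continuous fun q : D2 => exp (Real.pi * I * q.1.1.1.re / 3) := by fun_prop
  refine Continuous.prodMk (by fun_prop) (Continuous.prodMk (by fun_prop)
    (Continuous.prodMk (h6.mul h5) h3))

/-- the parametrisation of the part near infinity of the total space -/
def pN (z : ZZ) : ↥(PhiX '' D2) :=
  ⟨PhiX (psiN z), psiN z, psiN_mem z, rfl⟩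

theorem exp_cancel' (z : ℂ) : exp z * exp (-z) = 1 := by
  rw [← exp_add, add_neg_cancel, exp_zero]

theorem pN_quot : IsOpenQuotientMap pN := by
  refine openQ psiN continuous_psiN D2 isOpen_D2 psiN_mem RN continuous_RN ?_ ?_
  · rintro ⟨⟨b, r, v, s⟩, hz⟩
    apply Subtype.ext
    have hsl : cb (1 - s * (exp (-(Real.pi * I * r / 3)) * v) ^ 6) ≠ 0 :=
      cb_ne (slit_of_lt (by rw [norm_mul, norm_pow]; exact norm_psiN ⟨⟨b, r, v, s⟩, hz⟩))
    refine Prod.ext ?_ (Prod.ext ?_ (Prod.ext ?_ ?_))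
    · exact im_u r b
    · exact re_u r b
    · change exp (Real.pi * I * (((r : ℂ) + b * I).re : ℝ) / 3) *
        (exp (-(Real.pi * I * r / 3)) * v * cb (1 - s * (exp (-(Real.pi * I * r / 3)) * v) ^ 6)
          / 1 / cb (1 - s * ((exp (-(Real.pi * I * r / 3)) * v) ^ 3 / 1) ^ 2)) = v
      rw [re_u, div_one, div_one, ← pow_mul, mul_div_cancel_right₀ _ hsl, ← mul_assoc,
        exp_cancel', one_mul]
    · rfl
  · intro q
    rw [← PhiX_psi2 (q := q.1) q.2.1 q.2.2]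
    refine congrArg (fun v => PhiX (psi2 v)) ?_
    funext i
    fin_cases i
    · exact re_add_im q.1.1.1
    · change exp (-(Real.pi * I * q.1.1.1.re / 3)) * (exp (Real.pi * I * q.1.1.1.re / 3) *
        (q.1.1.2.1 1 / q.1.1.2.1 2 / cb (1 - q.1.1.2.2 * (q.1.1.2.1 0 / q.1.1.2.1 2) ^ 2))) =
        q.1.1.2.1 1 / q.1.1.2.1 2 / cb (1 - q.1.1.2.2 * (q.1.1.2.1 0 / q.1.1.2.1 2) ^ 2)
      rw [← mul_assoc, exp_cancel, one_mul]
    · rfl

/-- the model near infinity -/
def qN (z : ZZ) : NN Circle := ⟨(EE z.1.1, EE z.1.2.1, z.1.2.2), z.2⟩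

theorem qN_quot : IsOpenQuotientMap qN := by
  refine ⟨?_, ?_, ?_⟩
  · rintro ⟨⟨a, w, v, s⟩, h⟩
    obtain ⟨b, rfl⟩ := EE_quot.surjective a
    obtain ⟨r, rfl⟩ := EE_quot.surjective w
    exact ⟨⟨(b, r, v, s), h⟩, rfl⟩
  · have := EE_quot.continuous
    refine Continuous.subtype_mk ?_ _
    fun_prop
  · intro N hN
    have h1 : IsOpen {z : ℝ × ℝ × ℂ × ℂ | ‖z.2.2.2‖ * ‖z.2.2.1‖ ^ 6 < 1} :=
      isOpen_lt (by fun_prop) continuous_const
    have h2 := qA_quot.isOpenMap _ (h1.isOpenMap_subtype_val _ hN)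
    have h3 : qN '' N = Subtype.val ⁻¹' (qA '' (Subtype.val '' N)) := by
      ext x
      constructor
      · rintro ⟨z, hz, rfl⟩
        exact ⟨z.1, ⟨z, hz, rfl⟩, rfl⟩
      · rintro ⟨_, ⟨z, hz, rfl⟩, hx⟩
        exact ⟨z, hz, Subtype.ext hx⟩
    rw [h3]
    exact h2.preimage continuous_subtype_val

theorem expn3 (r : ℝ) (m : ℤ) : exp (-(Real.pi * I * ((r + m : ℝ) : ℂ) / 3)) =
    exp (-(Real.pi * I * m / 3)) * exp (-(Real.pi * I * r / 3)) := by
  rw [← exp_add]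
  congr 1
  push_cast
  ring

theorem expn_cube (m : ℤ) : exp (-(Real.pi * I * m / 3)) ^ 3 = exp (-(Real.pi * I * m)) := by
  rw [← exp_nat_mul]
  congr 1
  push_cast
  ring

theorem expn_six (m : ℤ) : exp (-(Real.pi * I * m / 3)) ^ 6 = 1 := by
  rw [← exp_nat_mul]
  have : ((6 : ℕ) : ℂ) * (-(Real.pi * I * m / 3)) = ((-m : ℤ) : ℂ) * (2 * Real.pi * I) := by
    push_cast; ring
  rw [this, exp_int_mul_two_pi_mul_I]

theorem expn_comb (m : ℤ) : exp (-(Real.pi * I * m)) * exp (2 * Real.pi * I * m / 3) =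
    exp (-(Real.pi * I * m / 3)) := by
  rw [← exp_add]
  congr 1
  ring

theorem pN_eq (z z' : ZZ) : pN z = pN z' ↔ qN z = qN z' := by
  obtain ⟨⟨b, r, v, s⟩, hz⟩ := z
  obtain ⟨⟨b', r', v', s'⟩, hz'⟩ := z'
  have h0 : pN ⟨(b, r, v, s), hz⟩ = pN ⟨(b', r', v', s'), hz'⟩ ↔
      PhiX (psiN ⟨(b, r, v, s), hz⟩) = PhiX (psiN ⟨(b', r', v', s'), hz'⟩) :=
    ⟨fun h => congrArg Subtype.val h, fun h => Subtype.ext h⟩
  have hsl : cb (1 - s * (exp (-(Real.pi * I * r / 3)) * v) ^ 6) ≠ 0 :=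
    cb_ne (slit_of_lt (by rw [norm_mul, norm_pow]; exact norm_psiN ⟨⟨b, r, v, s⟩, hz⟩))
  rw [h0, PhiX_eq_iff]
  constructor
  · rintro ⟨m, n, c, h⟩
    have e0 : (r' : ℂ) + b' * I = (r : ℂ) + b * I + (m + n * I) := congrArg (fun q : PP => q.1.1) h
    have e7 : s' = s := congrArg (fun q : PP => q.1.2.2) h
    have e1 := congrArg (fun q : PP => q.1.2.1) h
    have e2 : (exp (-(Real.pi * I * r' / 3)) * v') ^ 3 = c * act m (w2 _) 0 := congrFun e1 0
    have e3 : exp (-(Real.pi * I * r' / 3)) * v' *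
      cb (1 - s' * (exp (-(Real.pi * I * r' / 3)) * v') ^ 6) = c * act m (w2 _) 1 := congrFun e1 1
    have e4 : (1 : ℂ) = c * act m (w2 _) 2 := congrFun e1 2
    rw [act_0] at e2
    rw [act_1] at e3
    rw [act_2] at e4
    have hr : r' = r + m := by
      have := congrArg Complex.re e0
      simpa using this
    have hb : b' = b + n := by
      have := congrArg Complex.im e0
      simpa using this
    have hc : (c : ℂ) = exp (-(Real.pi * I * m)) := by
      have h1 : (1 : ℂ) = c * (exp (Real.pi * I * m) * 1) := e4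
      have h2 := exp_cancel (Real.pi * I * m)
      have h3 : (c : ℂ) = exp (-(Real.pi * I * m)) * (c * (exp (Real.pi * I * m) * 1)) := by
        linear_combination -(c : ℂ) * h2
      rw [h3, ← h1, mul_one]
    have e2' : (exp (-(Real.pi * I * r' / 3)) * v') ^ 3 =
        c * (exp (-(Real.pi * I * r / 3)) * v) ^ 3 := e2
    have e6 : (exp (-(Real.pi * I * r' / 3)) * v') ^ 6 = (exp (-(Real.pi * I * r / 3)) * v) ^ 6 := by
      have h1 : (c : ℂ) ^ 2 = 1 := by
        rw [hc, ← exp_nat_mul]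
        have : ((2 : ℕ) : ℂ) * (-(Real.pi * I * m)) = ((-m : ℤ) : ℂ) * (2 * Real.pi * I) := by
          push_cast; ring
        rw [this, exp_int_mul_two_pi_mul_I]
      have h2 : ∀ t t' k : ℂ, t' ^ 3 = k * t ^ 3 → k ^ 2 = 1 → t' ^ 6 = t ^ 6 := by
        intro t t' k h3 h4
        have h5 : t' ^ 6 = (t' ^ 3) ^ 2 := by ring
        rw [h5, h3]
        linear_combination t ^ 6 * h4
      exact h2 _ _ _ e2' h1
    rw [e6, e7] at e3
    have e3' : exp (-(Real.pi * I * r' / 3)) * v' *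
        cb (1 - s * (exp (-(Real.pi * I * r / 3)) * v) ^ 6) = c * (exp (2 * Real.pi * I * m / 3) *
        (exp (-(Real.pi * I * r / 3)) * v *
          cb (1 - s * (exp (-(Real.pi * I * r / 3)) * v) ^ 6))) := e3
    have e8 : exp (-(Real.pi * I * r' / 3)) * v' =
        exp (-(Real.pi * I * m / 3)) * (exp (-(Real.pi * I * r / 3)) * v) := by
      apply mul_right_cancel₀ hsl
      rw [e3', hc, ← expn_comb]
      ring
    rw [hr, expn3, mul_assoc] at e8
    have hv := mul_left_cancel₀ (exp_ne_zero _) (mul_left_cancel₀ (exp_ne_zero _) e8)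
    apply Subtype.ext
    exact Prod.ext (EE_eq.mpr ⟨n, hb⟩) (Prod.ext (EE_eq.mpr ⟨m, hr⟩) (Prod.ext hv.symm e7.symm))
  · intro h
    have h := congrArg Subtype.val h
    obtain ⟨n, hn⟩ := EE_eq.mp (congrArg Prod.fst h)
    obtain ⟨m, hm⟩ := EE_eq.mp (congrArg (fun p => p.2.1) h)
    have hv : v = v' := congrArg (fun p => p.2.2.1) h
    have hs : s = s' := congrArg (fun p => p.2.2.2) h
    have hn' : b' = b + n := hn
    have hm' : r' = r + m := hm
    refine ⟨m, n, Units.mk0 _ (exp_ne_zero (-(Real.pi * I * m))), ?_⟩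
    apply Subtype.ext
    have key : exp (-(Real.pi * I * r' / 3)) * v' =
        exp (-(Real.pi * I * m / 3)) * (exp (-(Real.pi * I * r / 3)) * v) := by
      rw [hm', expn3, hv]; ring
    have key6 : (exp (-(Real.pi * I * r' / 3)) * v') ^ 6 =
        (exp (-(Real.pi * I * r / 3)) * v) ^ 6 := by
      rw [key, mul_pow (exp (-(Real.pi * I * m / 3))), expn_six, one_mul]
    refine Prod.ext ?_ (Prod.ext ?_ hs.symm)
    · change (r' : ℂ) + b' * I = (r : ℂ) + b * I + (m + n * I)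
      rw [hn', hm']
      push_cast
      ring
    · change w2 _ = (exp (-(Real.pi * I * m))) • act m (w2 _)
      funext i
      fin_cases i
      · change (exp (-(Real.pi * I * r' / 3)) * v') ^ 3 = exp (-(Real.pi * I * m)) *
          act m (w2 _) 0
        rw [act_0, key, mul_pow (exp (-(Real.pi * I * m / 3))), expn_cube]
        rfl
      · change exp (-(Real.pi * I * r' / 3)) * v' *
          cb (1 - s' * (exp (-(Real.pi * I * r' / 3)) * v') ^ 6) = exp (-(Real.pi * I * m)) *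
            act m (w2 _) 1
        rw [act_1, key6, key, ← hs, ← expn_comb]
        change _ = exp (-(Real.pi * I * m)) * (exp (2 * Real.pi * I * m / 3) *
          (exp (-(Real.pi * I * r / 3)) * v * cb (1 - s * (exp (-(Real.pi * I * r / 3)) * v) ^ 6)))
        ring
      · change (1 : ℂ) = exp (-(Real.pi * I * m)) * act m (w2 _) 2
        rw [act_2]
        change (1 : ℂ) = exp (-(Real.pi * I * m)) * (exp (Real.pi * I * m) * 1)
        rw [mul_one, exp_cancel]

/-- the projection to the disc -/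
def fX (p : XX) : ℂ := p.1.1

theorem exists_charts : Nonempty (Charts Circle fX) := by
  obtain ⟨eA, hA⟩ := exists_homeo pA qA pA_quot qA_quot pA_eq
  obtain ⟨eN, hN⟩ := exists_homeo pN qN pN_quot qN_quot pN_eq
  refine ⟨{ U := PhiX '' D1
            V := PhiX '' D2
            openU := isOpenMap_PhiX _ isOpen_D1
            openV := isOpenMap_PhiX _ isOpen_D2
            cover := D_cover
            hU := eA
            hU_f := ?_
            hV := eN
            hV_f := ?_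
            hV_U := ?_ }⟩
  · intro x
    obtain ⟨⟨b, r, X, Y⟩, rfl⟩ := pA_quot.surjective x
    rw [hA]
    change (EE r : ℂ) * (Y ^ 2 - X ^ 3) =
      (exp (Real.pi * I * r) * Y) ^ 2 - (exp (2 * Real.pi * I * r / 3) * X) ^ 3
    rw [EE_coe, mul_pow, mul_pow, ← exp_nat_mul, ← exp_nat_mul]
    have k1 : ((2 : ℕ) : ℂ) * (Real.pi * I * r) = 2 * Real.pi * I * r := by push_cast; ring
    have k2 : ((3 : ℕ) : ℂ) * (2 * Real.pi * I * r / 3) = 2 * Real.pi * I * r := by
      push_cast; ring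
    rw [k1, k2]
    ring
  · intro x
    obtain ⟨z, rfl⟩ := pN_quot.surjective x
    rw [hN]
    rfl
  · intro x
    obtain ⟨⟨⟨b, r, v, s⟩, hz⟩, rfl⟩ := pN_quot.surjective x
    rw [hN]
    change v ≠ 0 ↔ PhiX (psiN ⟨(b, r, v, s), hz⟩) ∈ PhiX '' D1
    rw [mem_D1_iff]
    change v ≠ 0 ↔ (exp (-(Real.pi * I * r / 3)) * v) ^ 3 ≠ 0
    have h1 := exp_ne_zero (-(Real.pi * I * r / 3))
    constructor
    · intro hv
      exact pow_ne_zero 3 (mul_ne_zero h1 hv)
    · rintro h2 rfl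
      apply h2
      ring

theorem fX_bundle : IsZHomologyFiberBundle fX := by
  obtain ⟨c⟩ := exists_charts
  exact c.bundle

end

end Pool.Agent.Y199.Bi
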