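import Pool.Agent.Y199.Bi.MVC

/-! Homology of `A × S¹`: additivity of the power maps, and a gluing lemma. -/

set_option autoImplicit false

namespace Pool.Agent.Y199.Bi

open Pool.Agent.Helper922.HB

universe u v w

section modules

variable {X : Type u} [TopologicalSpace X] {Y : Type v} [TopologicalSpace Y]
  {Z : Type w} [TopologicalSpace Z]

/-- class of a cycle -/
noncomputable def cl {n : ℕ} (z : Sing X n →₀ ℤ) (hz : z ∈ Cyc X n) : Homology X n :=
  Submodule.Quotient.mk ⟨z, hz⟩

theorem cl_surj {n : ℕ} (x : Homology X n) : ∃ z, ∃ hz : z ∈ Cyc X n, cl z hz = x := by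
  obtain ⟨z, rfl⟩ := Submodule.Quotient.mk_surjective _ x
  exact ⟨z.1, z.2, rfl⟩

theorem cl_eq_iff {n : ℕ} {z z' : Sing X n →₀ ℤ} (hz : z ∈ Cyc X n) (hz' : z' ∈ Cyc X n) :
    cl z hz = cl z' hz' ↔ z - z' ∈ Bdy X n := by
  rw [cl, cl, Submodule.Quotient.eq]
  rfl

theorem cl_eq_zero {n : ℕ} {z : Sing X n →₀ ℤ} (hz : z ∈ Cyc X n) :
    cl z hz = 0 ↔ z ∈ Bdy X n := by
  rw [cl, Submodule.Quotient.mk_eq_zero]
  rfl

theorem map_cl (f : C(X, Y)) {n : ℕ} {z : Sing X n →₀ ℤ} (hz : z ∈ Cyc X n) :
    Homology.map f n (cl z hz) = cl (push f n z) (push_mem_Cyc f n z hz) := rfl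

theorem cl_add {n : ℕ} {z z' : Sing X n →₀ ℤ} (hz : z ∈ Cyc X n) (hz' : z' ∈ Cyc X n) :
    cl z hz + cl z' hz' = cl (z + z') ((Cyc X n).add_mem hz hz') := rfl

theorem cl_neg {n : ℕ} {z : Sing X n →₀ ℤ} (hz : z ∈ Cyc X n) :
    - cl z hz = cl (-z) ((Cyc X n).neg_mem hz) := rfl

theorem map_comp (f : C(X, Y)) (g : C(Y, Z)) (n : ℕ) (x : Homology X n) :
    Homology.map (g.comp f) n x = Homology.map g n (Homology.map f n x) := by
  obtain ⟨z, hz, rfl⟩ := cl_surj x
  rw [map_cl, map_cl, map_cl, cl_eq_iff, push_push, sub_self]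
  exact (Bdy Z n).zero_mem

theorem map_id (n : ℕ) (x : Homology X n) : Homology.map (ContinuousMap.id X) n x = x := by
  obtain ⟨z, hz, rfl⟩ := cl_surj x
  rw [map_cl, cl_eq_iff, push_id, sub_self]
  exact (Bdy X n).zero_mem

theorem map_homotopic (H : C(X × unitInterval, Y)) (f g : C(X, Y))
    (h0 : ∀ x, H (x, 0) = f x) (h1 : ∀ x, H (x, 1) = g x) (n : ℕ) :
    Homology.map f n = Homology.map g n := by
  apply LinearMap.ext
  intro x
  obtain ⟨z, hz, rfl⟩ := cl_surj x
  rw [map_cl, map_cl, eq_comm, cl_eq_iff]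
  exact push_sub_mem_of_homotopy H f g h0 h1 n z hz

theorem mvE1 (U V : Set X) (hU : IsOpen U) (hV : IsOpen V) (hUV : ∀ x, x ∈ U ∨ x ∈ V) {n : ℕ}
    (x : Homology U n) (y : Homology V n)
    (h : Homology.map (sub U) n x + Homology.map (sub V) n y = 0) :
    ∃ c : Homology ↥(U ∩ V) n, Homology.map (inl U V) n c = x ∧
      Homology.map (inr U V) n c = -y := by
  obtain ⟨u, hu, rfl⟩ := cl_surj x
  obtain ⟨v, hv, rfl⟩ := cl_surj y
  rw [map_cl, map_cl, cl_add, cl_eq_zero] at h
  obtain ⟨d, hd, h1, h2⟩ := mv_inj U V hU hV hUV n u v hu hv h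
  refine ⟨cl d hd, ?_, ?_⟩
  · rw [map_cl, eq_comm, cl_eq_iff]; exact h1
  · rw [map_cl, eq_comm, cl_neg, cl_eq_iff]
    have := (Bdy _ n).neg_mem h2
    rwa [neg_add'] at this

theorem mvE2 (U V : Set X) (hU : IsOpen U) (hV : IsOpen V) (hUV : ∀ x, x ∈ U ∨ x ∈ V) {n : ℕ}
    (z : Homology X (n + 1)) :
    ∃ d : Homology ↥(U ∩ V) n, Homology.map (inl U V) n d = 0 ∧
      Homology.map (inr U V) n d = 0 ∧
      (d = 0 → ∃ x y, z = Homology.map (sub U) (n + 1) x + Homology.map (sub V) (n + 1) y) := by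
  obtain ⟨c, hc, rfl⟩ := cl_surj z
  obtain ⟨u, v, d, hd, hs, hu, hv⟩ := mv_split U V hU hV hUV n c hc
  refine ⟨cl d hd, ?_, ?_, ?_⟩
  · rw [map_cl, cl_eq_zero, ← hu]; exact ⟨u, rfl⟩
  · rw [map_cl, cl_eq_zero]
    refine ⟨-v, ?_⟩
    rw [map_neg, hv, neg_neg]
  · intro h0
    rw [cl_eq_zero] at h0
    obtain ⟨e, he⟩ := h0
    have hcu : u - push (inl U V) (n + 1) e ∈ Cyc _ (n + 1) := by
      change bdry _ n _ = 0
      rw [map_sub, hu, bdry_push, he, sub_self]
    have hcv : v + push (inr U V) (n + 1) e ∈ Cyc _ (n + 1) := by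
      change bdry _ n _ = 0
      rw [map_add, hv, bdry_push, he, neg_add_cancel]
    refine ⟨cl _ hcu, cl _ hcv, ?_⟩
    rw [map_cl, map_cl, cl_add, cl_eq_iff]
    have : push (sub U) (n + 1) (u - push (inl U V) (n + 1) e) +
        push (sub V) (n + 1) (v + push (inr U V) (n + 1) e) =
        push (sub U) (n + 1) u + push (sub V) (n + 1) v := by
      rw [map_sub, map_add, mvx_push_inl, mvx_push_inr]; abel
    rw [this]
    exact hs

theorem mem_cyc0 {X : Type u} [TopologicalSpace X] (z : Sing X 0 →₀ ℤ) : z ∈ Cyc X 0 :=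
  Submodule.mem_top

theorem mvE0 (U V : Set X) (hUV : ∀ x, x ∈ U ∨ x ∈ V) (z : Homology X 0) :
    ∃ x y, z = Homology.map (sub U) 0 x + Homology.map (sub V) 0 y := by
  obtain ⟨c, hc, rfl⟩ := cl_surj z
  obtain ⟨u, v, huv⟩ := mv_zero U V hUV c
  refine ⟨cl u (mem_cyc0 u), cl v (mem_cyc0 v), ?_⟩
  rw [map_cl, map_cl, cl_add, cl_eq_iff, ← huv, sub_self]
  exact (Bdy X 0).zero_mem

/-- every cycle is homologous to a sum of small chains -/
theorem small_split (U V : Set X) (hU : IsOpen U) (hV : IsOpen V) (hUV : ∀ x, x ∈ U ∨ x ∈ V)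
    (n : ℕ) (z : Sing X n →₀ ℤ) (hz : z ∈ Cyc X n) :
    ∃ (u : Sing U n →₀ ℤ) (v : Sing V n →₀ ℤ),
      z - (push (sub U) n u + push (sub V) n v) ∈ Bdy X n := by
  cases n with
  | zero =>
    obtain ⟨u, v, huv⟩ := mv_zero U V hUV z
    refine ⟨u, v, ?_⟩
    rw [← huv, sub_self]
    exact (Bdy X 0).zero_mem
  | succ n =>
    obtain ⟨u, v, d, hd, hs, hu, hv⟩ := mv_split U V hU hV hUV n z hz
    exact ⟨u, v, hs⟩

/-- four maps which agree in pairs on the members of a cover -/
theorem additivity (U V : Set X) (hU : IsOpen U) (hV : IsOpen V) (hUV : ∀ x, x ∈ U ∨ x ∈ V)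
    (f₁ f₂ f₃ f₀ : C(X, Y)) (h1 : ∀ x ∈ U, f₃ x = f₁ x) (h2 : ∀ x ∈ U, f₂ x = f₀ x)
    (h3 : ∀ x ∈ V, f₃ x = f₂ x) (h4 : ∀ x ∈ V, f₁ x = f₀ x) (n : ℕ) (x : Homology X n) :
    Homology.map f₃ n x + Homology.map f₀ n x = Homology.map f₁ n x + Homology.map f₂ n x := by
  obtain ⟨z, hz, rfl⟩ := cl_surj x
  simp only [map_cl, cl_add]
  rw [cl_eq_iff]
  obtain ⟨u, v, huv⟩ := small_split U V hU hV hUV n z hz
  have hf : ∀ (f g : C(X, Y)) (T : Set X) (t : Sing T n →₀ ℤ), (∀ x ∈ T, f x = g x) →
      push f n (push (sub T) n t) = push g n (push (sub T) n t) := by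
    intro f g T t h
    rw [push_push, push_push]
    have : f.comp (sub T) = g.comp (sub T) := by
      ext a
      exact h a.1 a.2
    rw [this]
  have key : push f₃ n (push (sub U) n u + push (sub V) n v) +
      push f₀ n (push (sub U) n u + push (sub V) n v) =
      push f₁ n (push (sub U) n u + push (sub V) n v) +
      push f₂ n (push (sub U) n u + push (sub V) n v) := by
    simp only [map_add]
    rw [hf f₃ f₁ U u h1, hf f₂ f₀ U u h2, hf f₃ f₂ V v h3, hf f₁ f₀ V v h4]
    abel
  have e : ∀ f : C(X, Y), push f n z - push f n (push (sub U) n u + push (sub V) n v) ∈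
      Bdy Y n := by
    intro f
    rw [← map_sub]
    exact push_mem_Bdy f n _ huv
  have h5 := (Bdy Y n).sub_mem ((Bdy Y n).add_mem (e f₃) (e f₀))
    ((Bdy Y n).add_mem (e f₁) (e f₂))
  have h6 : ∀ a b c d a' b' c' d' : Sing Y n →₀ ℤ, a' + b' = c' + d' →
      a - a' + (b - b') - (c - c' + (d - d')) = a + b - (c + d) := by
    intro a b c d a' b' c' d' h
    have : a - a' + (b - b') - (c - c' + (d - d')) = a + b - (c + d) - (a' + b') + (c' + d') := by
      abel
    rw [this, h]
    abel
  rwa [h6 _ _ _ _ _ _ _ _ key] at h5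

end modules

section circle

/-- A degree zero correction: a continuous branch of the argument off `i`. -/
theorem exists_branch1 : ∃ D : C(Circle, ℝ), ∀ z : Circle, (z : ℂ).im ≤ 1 / 2 →
    z * Circle.exp (D z) = 1 := by
  let S : Set Circle := {z | (z : ℂ).im ≤ 1 / 2}
  have hS : IsClosed S := isClosed_le (by fun_prop) continuous_const
  have hslit : ∀ z ∈ S, Complex.I * (z : ℂ) ∈ Complex.slitPlane := by
    intro z hz
    rw [Complex.mem_slitPlane_iff]
    have h1 : Complex.normSq (z : ℂ) = 1 := Circle.normSq_coe z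
    rw [Complex.normSq_apply] at h1
    have hz' : (z : ℂ).im ≤ 1 / 2 := hz
    by_cases hx : (z : ℂ).re = 0
    · left
      rw [hx] at h1
      simp only [Complex.mul_re, Complex.I_re, Complex.I_im, zero_mul, one_mul, zero_sub]
      nlinarith
    · right
      simp only [Complex.mul_im, Complex.I_re, Complex.I_im, zero_mul, one_mul, zero_add]
      exact hx
  let g : C(S, ℝ) := ⟨fun z => Real.pi / 2 - Complex.arg (Complex.I * ((z : Circle) : ℂ)), by
    refine continuous_const.sub ?_
    refine continuous_iff_continuousAt.mpr fun z => ?_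
    have h2 : ContinuousAt Complex.arg (Complex.I * ((z : Circle) : ℂ)) :=
      Complex.continuousAt_arg (hslit z z.2)
    have h3 : Continuous (fun z : S => Complex.I * ((z : Circle) : ℂ)) := by fun_prop
    exact ContinuousAt.comp (f := fun z : S => Complex.I * ((z : Circle) : ℂ)) h2 h3.continuousAt⟩
  obtain ⟨D, hD⟩ := ContinuousMap.exists_restrict_eq hS g
  refine ⟨D, fun z hz => ?_⟩
  have h1 : D z = Real.pi / 2 - Complex.arg (Complex.I * (z : ℂ)) := by
    have := DFunLike.congr_fun hD (⟨z, hz⟩ : S)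
    exact this
  apply Circle.ext
  rw [Circle.coe_mul, Circle.coe_exp, h1, Circle.coe_one]
  have h2 : Complex.exp (Complex.arg (Complex.I * (z : ℂ)) * Complex.I) = Complex.I * (z : ℂ) := by
    have := Complex.norm_mul_exp_arg_mul_I (Complex.I * (z : ℂ))
    rw [norm_mul, Complex.norm_I, Circle.norm_coe, one_mul, Complex.ofReal_one, one_mul] at this
    exact this
  push_cast
  rw [sub_mul, Complex.exp_sub, h2, Complex.exp_pi_div_two_mul_I]
  have := Circle.coe_ne_zero z
  field_simp

theorem exists_branch2 : ∃ D : C(Circle, ℝ), ∀ z : Circle, -(1 / 2) ≤ (z : ℂ).im →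
    z * Circle.exp (D z) = 1 := by
  obtain ⟨D, hD⟩ := exists_branch1
  refine ⟨⟨fun z => -D z⁻¹, by fun_prop⟩, fun z hz => ?_⟩
  have h1 := hD z⁻¹ (by
    rw [Circle.coe_inv_eq_conj, Complex.conj_im]
    linarith)
  change z * Circle.exp (-D z⁻¹) = 1
  rw [Circle.exp_neg]
  rw [← inv_inj, mul_inv_rev, inv_inv, inv_one, mul_comm]
  exact h1

variable (A : Type u) [TopologicalSpace A]

/-- the power map in the second factor -/
noncomputable def pw (m : ℕ) : C(A × Circle, A × Circle) := ⟨fun p => (p.1, p.2 ^ m), by fun_prop⟩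

theorem pw_add (m k : ℕ) (n : ℕ) (x : Homology (A × Circle) n) :
    Homology.map (pw A (m + k)) n x + Homology.map (pw A 0) n x =
      Homology.map (pw A m) n x + Homology.map (pw A k) n x := by
  obtain ⟨D₁, hD₁⟩ := exists_branch1
  obtain ⟨D₂, hD₂⟩ := exists_branch2
  let G : ℕ → ℕ → C(A × Circle, A × Circle) := fun m k =>
    ⟨fun p => (p.1, (p.2 * Circle.exp (D₁ p.2)) ^ m * (p.2 * Circle.exp (D₂ p.2)) ^ k), by
      fun_prop⟩
  have hG : ∀ m k, Homology.map (pw A (m + k)) n = Homology.map (G m k) n := by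
    intro m k
    refine map_homotopic ⟨fun q => (q.1.1, q.1.2 ^ (m + k) *
      Circle.exp ((q.2 : ℝ) * (m * D₁ q.1.2 + k * D₂ q.1.2))), by fun_prop⟩ _ _ ?_ ?_ n
    · intro x
      simp [pw]
    · intro x
      have h1 : Circle.exp (m * D₁ x.2 + k * D₂ x.2) =
          Circle.exp (D₁ x.2) ^ m * Circle.exp (D₂ x.2) ^ k := by
        have hpow : ∀ (m : ℕ) (r : ℝ), Circle.exp (m * r) = Circle.exp r ^ m := by
          intro m r
          induction m with
          | zero => simp
          | succ m ih =>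
            rw [pow_succ, ← ih, ← Circle.exp_add]
            congr 1
            push_cast
            ring
        rw [Circle.exp_add, hpow, hpow]
      simp only [ContinuousMap.coe_mk, Set.Icc.coe_one, one_mul, G, h1]
      rw [mul_pow, mul_pow, pow_add]
      congr 1
      rw [mul_mul_mul_comm]
  have h0 : Homology.map (pw A 0) n = Homology.map (G 0 0) n := hG 0 0
  have hm : Homology.map (pw A m) n = Homology.map (G m 0) n := hG m 0
  have hk : Homology.map (pw A k) n = Homology.map (G 0 k) n := by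
    have := hG 0 k
    rwa [Nat.zero_add] at this
  rw [hG m k, h0, hm, hk]
  let U : Set (A × Circle) := {p | -(1 / 2) < (p.2 : ℂ).im}
  let V : Set (A × Circle) := {p | (p.2 : ℂ).im < 1 / 2}
  refine additivity U V ?_ ?_ ?_ (G m 0) (G 0 k) (G m k) (G 0 0) ?_ ?_ ?_ ?_ n x
  · exact isOpen_lt continuous_const (by fun_prop)
  · exact isOpen_lt (by fun_prop) continuous_const
  · intro p
    by_cases h : (p.2 : ℂ).im < 1 / 2
    · exact Or.inr h
    · left
      change -(1 / 2) < (p.2 : ℂ).im
      linarith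
  · intro p hp
    have := hD₂ p.2 (le_of_lt hp)
    simp [G, this]
  · intro p hp
    have := hD₂ p.2 (le_of_lt hp)
    simp [G, this]
  · intro p hp
    have := hD₁ p.2 (le_of_lt hp)
    simp [G, this]
  · intro p hp
    have := hD₁ p.2 (le_of_lt hp)
    simp [G, this]

end circle

section glue

variable {W : Type u} [TopologicalSpace W] (A : Type v) [TopologicalSpace A]

/-- Gluing two copies of `A × S¹` along `A × S¹` by the second and the third power. -/
theorem HE_glue (U V : Set W) (hU : IsOpen U) (hV : IsOpen V) (hUV : ∀ x, x ∈ U ∨ x ∈ V)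
    (θ : C(W, A × Circle)) (hu : C(U, A × Circle)) (hv : C(V, A × Circle))
    (hi : C(↥(U ∩ V), A × Circle)) (Hu : HE hu) (Hv : HE hv) (Hi : HE hi)
    (r1 : hu.comp (inl U V) = (pw A 3).comp hi) (r2 : hv.comp (inr U V) = (pw A 2).comp hi)
    (r3 : θ.comp (sub U) = (pw A 2).comp hu) (r4 : θ.comp (sub V) = (pw A 3).comp hv) :
    HE θ := by
  have Bu := (HE_iff_bijective hu).mp Hu
  have Bv := (HE_iff_bijective hv).mp Hv
  have Bi := (HE_iff_bijective hi).mp Hi
  let δ : ∀ n, Homology (A × Circle) n → Homology (A × Circle) n := fun n x =>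
    x - Homology.map (pw A 0) n x
  have hδadd : ∀ n x y, δ n (x + y) = δ n x + δ n y := by
    intro n x y
    simp only [δ, _root_.map_add]
    abel
  have hδneg : ∀ n x, δ n (-x) = - δ n x := by
    intro n x
    simp only [δ, _root_.map_neg]
    abel
  have hδδ : ∀ n x, δ n (δ n x) = δ n x := by
    intro n x
    have h0 : Homology.map (pw A 0) n (Homology.map (pw A 0) n x) = Homology.map (pw A 0) n x := by
      rw [← map_comp]
      have : (pw A 0).comp (pw A 0) = pw A 0 := by ext p <;> simp [pw]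
      rw [this]
    simp only [δ, _root_.map_sub, h0, sub_self, sub_zero]
  have h1 : ∀ n x, Homology.map (pw A 1) n x = x := by
    intro n x
    have : pw A 1 = ContinuousMap.id _ := by ext p <;> simp [pw]
    rw [this, map_id]
  have p2 : ∀ n x, Homology.map (pw A 2) n x = x + δ n x := by
    intro n x
    have := pw_add A 1 1 n x
    rw [h1] at this
    simp only [δ]
    rw [← add_sub_assoc]
    exact eq_sub_of_add_eq this
  have p3 : ∀ n x, Homology.map (pw A 3) n x = x + δ n x + δ n x := by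
    intro n x
    have := pw_add A 2 1 n x
    rw [h1, p2] at this
    have h3 := eq_sub_of_add_eq this
    rw [h3]
    simp only [δ]
    abel
  have e1 : ∀ n c, Homology.map hu n (Homology.map (inl U V) n c) =
      Homology.map hi n c + δ n (Homology.map hi n c) + δ n (Homology.map hi n c) := by
    intro n c
    rw [← map_comp, r1, map_comp, p3]
  have e2 : ∀ n c, Homology.map hv n (Homology.map (inr U V) n c) =
      Homology.map hi n c + δ n (Homology.map hi n c) := by
    intro n c
    rw [← map_comp, r2, map_comp, p2]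
  have e3 : ∀ n c, Homology.map θ n (Homology.map (sub U) n c) =
      Homology.map hu n c + δ n (Homology.map hu n c) := by
    intro n c
    rw [← map_comp, r3, map_comp, p2]
  have e4 : ∀ n c, Homology.map θ n (Homology.map (sub V) n c) =
      Homology.map hv n c + δ n (Homology.map hv n c) + δ n (Homology.map hv n c) := by
    intro n c
    rw [← map_comp, r4, map_comp, p3]
  -- sums
  have inj : ∀ n (x : Homology U n) (y : Homology V n),
      Homology.map θ n (Homology.map (sub U) n x + Homology.map (sub V) n y) = 0 →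
      Homology.map (sub U) n x + Homology.map (sub V) n y = 0 := by
    intro n x y h
    rw [_root_.map_add, e3, e4] at h
    set a := Homology.map hu n x with ha
    set b := Homology.map hv n y with hb
    obtain ⟨c, hc⟩ := (Bi n).2 (a + δ n b)
    have hd : δ n a + δ n a + (δ n b + δ n b + δ n b) = 0 := by
      have h2 := congrArg (δ n) h
      simp only [hδadd, hδδ] at h2
      have h3 : δ n (0 : Homology (A × Circle) n) = 0 := by simp [δ]
      rw [h3] at h2
      rw [← h2]
    have h5 : Homology.map hu n (Homology.map (inl U V) n c) = a := by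
      rw [e1, hc]
      simp only [hδadd, hδδ]
      have : a + δ n b + (δ n a + δ n b) + (δ n a + δ n b) =
        a + (δ n a + δ n a + (δ n b + δ n b + δ n b)) := by abel
      rw [this, hd, add_zero]
    have h6 : Homology.map hv n (Homology.map (inr U V) n c) = -b := by
      rw [e2, hc]
      simp only [hδadd, hδδ]
      have : a + δ n b + (δ n a + δ n b) = (a + δ n a + (b + δ n b + δ n b)) - b := by abel
      rw [this, h, zero_sub]
    have h7 : Homology.map (inl U V) n c = x := (Bu n).1 (by rw [h5])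
    have h8 : Homology.map (inr U V) n c = -y := (Bv n).1 (by rw [h6, _root_.map_neg])
    have h9 : y = -Homology.map (inr U V) n c := by rw [h8, neg_neg]
    rw [← h7, h9, _root_.map_neg, ← map_comp, ← map_comp]
    have : (sub U).comp (inl U V) = (sub V).comp (inr U V) := rfl
    rw [this]
    exact add_neg_cancel _
  rw [HE_iff_bijective]
  intro n
  constructor
  · rw [← LinearMap.ker_eq_bot, Submodule.eq_bot_iff]
    intro z hz
    have hz' : Homology.map θ n z = 0 := hz
    cases n with
    | zero =>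
      obtain ⟨x, y, rfl⟩ := mvE0 U V hUV z
      exact inj 0 x y hz'
    | succ n =>
      obtain ⟨d, hd1, hd2, hd3⟩ := mvE2 U V hU hV hUV z
      have h2 := e1 n d
      have h3 := e2 n d
      rw [hd1, _root_.map_zero] at h2
      rw [hd2, _root_.map_zero] at h3
      have h4 : δ n (Homology.map hi n d) = 0 := by
        have : δ n (Homology.map hi n d) = (Homology.map hi n d + δ n (Homology.map hi n d) +
          δ n (Homology.map hi n d)) - (Homology.map hi n d + δ n (Homology.map hi n d)) := by abel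
        rw [this, ← h2, ← h3, sub_zero]
      rw [h4, add_zero] at h3
      have h5 : d = 0 := (Bi n).1 (by rw [← h3, _root_.map_zero])
      obtain ⟨x, y, rfl⟩ := hd3 h5
      exact inj (n + 1) x y hz'
  · intro b
    obtain ⟨x, hx⟩ := (Bu n).2 (b - δ n b - δ n b)
    obtain ⟨y, hy⟩ := (Bv n).2 (δ n b)
    refine ⟨Homology.map (sub U) n x + Homology.map (sub V) n y, ?_⟩
    rw [_root_.map_add, e3, e4, hx, hy]
    have h2 : b - δ n b - δ n b = b + -(δ n b) + -(δ n b) := by abel
    rw [h2]
    simp only [hδadd, hδneg, hδδ]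
    abel_nf

end glue

end Pool.Agent.Y199.Bi
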