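import Pool.Agent.Y199.Bi.Knot

/-! The affine part of the fibres: `A × {(w, x, y) : w (y² - x³) = s} → A × S¹` is a homology
isomorphism. -/

set_option autoImplicit false

namespace Pool.Agent.Y199.Bi

open Pool.Agent.Helper922.HB Complex

universe u

variable (A : Type u) [TopologicalSpace A]

/-- the affine part of the fibre over `s`, for the topological model -/
def Tset (s : ℂ) : Set (A × Circle × ℂ × ℂ) :=
  {p | (p.2.1 : ℂ) * (p.2.2.2 ^ 2 - p.2.2.1 ^ 3) = s}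

/-- the projection to `A × S¹` -/
def piT (s : ℂ) : C(Tset A s, A × Circle) := ⟨fun p => (p.1.1, p.1.2.1), by fun_prop⟩

theorem piT_zero : HE (piT A 0) := by
  refine HE_of_homotopyEquiv (piT A 0)
    ⟨fun q => ⟨(q.1, q.2, 0, 0), by simp [Tset]⟩, by fun_prop⟩
    ⟨fun q => ⟨(q.1.1.1, q.1.1.2.1, ((1 - (q.2 : ℝ) : ℝ) : ℂ) ^ 2 * q.1.1.2.2.1,
      ((1 - (q.2 : ℝ) : ℝ) : ℂ) ^ 3 * q.1.1.2.2.2), ?_⟩, ?_⟩
    ⟨Prod.fst, continuous_fst⟩ ?_ ?_ ?_ ?_
  · have h : (q.1.1.2.1 : ℂ) * (q.1.1.2.2.2 ^ 2 - q.1.1.2.2.1 ^ 3) = 0 := q.1.2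
    change (q.1.1.2.1 : ℂ) * ((_ * q.1.1.2.2.2) ^ 2 - (_ * q.1.1.2.2.1) ^ 3) = 0
    linear_combination ((1 - (q.2 : ℝ) : ℝ) : ℂ) ^ 6 * h
  · fun_prop
  · intro x
    apply Subtype.ext
    simp
  · intro x
    apply Subtype.ext
    simp [piT]
  · intro y; rfl
  · intro y; rfl

section roots

/-- the principal square root -/
noncomputable def sr (z : ℂ) : ℂ := z ^ (((2 : ℕ) : ℂ)⁻¹)

/-- the principal cube root -/
noncomputable def cb (z : ℂ) : ℂ := z ^ (((3 : ℕ) : ℂ)⁻¹)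

theorem sr_sq (z : ℂ) : sr z ^ 2 = z := cpow_nat_inv_pow z two_ne_zero

theorem cb_cube (z : ℂ) : cb z ^ 3 = z := cpow_nat_inv_pow z three_ne_zero

theorem sr_one : sr 1 = 1 := by simp [sr]

theorem cb_one : cb 1 = 1 := by simp [cb]

theorem sr_ne {z : ℂ} (hz : z ∈ slitPlane) : sr z ≠ 0 := by
  intro h
  have h1 := sr_sq z
  rw [h] at h1
  have h2 := slitPlane_ne_zero hz
  exact h2 (by rw [← h1]; simp)

theorem cb_ne {z : ℂ} (hz : z ∈ slitPlane) : cb z ≠ 0 := by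
  intro h
  have h1 := cb_cube z
  rw [h] at h1
  have h2 := slitPlane_ne_zero hz
  exact h2 (by rw [← h1]; simp)

theorem cont_sr {α : Type u} [TopologicalSpace α] {f : α → ℂ} (hf : Continuous f)
    (h : ∀ a, f a ∈ slitPlane) : Continuous fun a => sr (f a) :=
  hf.cpow continuous_const h

theorem cont_cb {α : Type u} [TopologicalSpace α] {f : α → ℂ} (hf : Continuous f)
    (h : ∀ a, f a ∈ slitPlane) : Continuous fun a => cb (f a) :=
  hf.cpow continuous_const h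

/-- positive combinations of points of the slit plane and positive reals -/
theorem slit_comb {z : ℂ} (hz : z ∈ slitPlane) {a b : ℝ} (ha : 0 ≤ a) (hb : 0 ≤ b)
    (h : 0 < a + b) : (a : ℂ) * z + b ∈ slitPlane := by
  rw [mem_slitPlane_iff] at hz ⊢
  simp only [add_re, mul_re, ofReal_re, ofReal_im, zero_mul, sub_zero, add_im, mul_im, add_zero]
  rcases ha.eq_or_lt with h0 | h0
  · left
    rw [← h0] at h ⊢
    linarith
  · rcases hz with h1 | h1
    · left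
      have := mul_pos h0 h1
      linarith
    · right
      exact mul_ne_zero h0.ne' h1

end roots

variable {A}

/-- the parameter `x³ w` -/
def xi (p : A × Circle × ℂ × ℂ) : ℂ := p.2.2.1 ^ 3 * (p.2.1 : ℂ)

theorem cont_xi : Continuous (xi : A × Circle × ℂ × ℂ → ℂ) := by
  unfold xi; fun_prop

theorem one_add_xi {p : A × Circle × ℂ × ℂ} (hp : p ∈ Tset A 1) :
    1 + xi p = p.2.2.2 ^ 2 * (p.2.1 : ℂ) := by
  have h : (p.2.1 : ℂ) * (p.2.2.2 ^ 2 - p.2.2.1 ^ 3) = 1 := hp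
  unfold xi
  linear_combination -h

theorem mem_T1 {a : A} {w : Circle} {x y z : ℂ} (h1 : x ^ 3 * (w : ℂ) = z)
    (h2 : y ^ 2 * (w : ℂ) = 1 + z) : (a, w, x, y) ∈ Tset A 1 := by
  change (w : ℂ) * (y ^ 2 - x ^ 3) = 1
  linear_combination h2 - h1

variable (A)

/-- the first open set -/
def UU : Set (Tset A 1) := {p | 1 + xi p.1 ∈ slitPlane}

/-- the second open set -/
def VV : Set (Tset A 1) := {p | -xi p.1 ∈ slitPlane}

theorem isOpen_UU : IsOpen (UU A) :=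
  isOpen_slitPlane.preimage (continuous_const.add (cont_xi.comp continuous_subtype_val))

theorem isOpen_VV : IsOpen (VV A) :=
  isOpen_slitPlane.preimage (cont_xi.comp continuous_subtype_val).neg

theorem UV_cover (p : Tset A 1) : p ∈ UU A ∨ p ∈ VV A := by
  by_contra h
  push Not at h
  obtain ⟨h1, h2⟩ := h
  have h1' : ¬ (1 + xi p.1 ∈ slitPlane) := h1
  have h2' : ¬ (-xi p.1 ∈ slitPlane) := h2
  rw [mem_slitPlane_iff] at h1' h2'
  push Not at h1' h2'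
  have h3 := h1'.1
  have h4 := h2'.1
  simp only [add_re, one_re, neg_re] at h3 h4
  linarith

variable {A}

theorem circle_mem {z : ℂ} {n : ℕ} (hn : n ≠ 0) {w : Circle} (h : z ^ n * (w : ℂ) = 1) :
    z ∈ Submonoid.unitSphere ℂ := by
  have h1 : ‖z‖ ^ n = 1 := by
    have := congrArg norm h
    rwa [norm_mul, norm_pow, Circle.norm_coe, mul_one, norm_one] at this
  have h2 : ‖z‖ = 1 := (pow_eq_one_iff_of_nonneg (norm_nonneg z) hn).mp h1
  exact mem_sphere_zero_iff_norm.mpr h2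

theorem tU_aux (p : UU A) :
    (p.1.1.2.2.2 / sr (1 + xi p.1.1)) ^ 2 * (p.1.1.2.1 : ℂ) = 1 := by
  have hs : 1 + xi p.1.1 ∈ slitPlane := p.2
  have h1 := sr_ne hs
  have h2 := sr_sq (1 + xi p.1.1)
  have h3 := one_add_xi p.1.2
  rw [div_pow, h2]
  have h4 : 1 + xi p.1.1 ≠ 0 := slitPlane_ne_zero hs
  field_simp
  rw [h3]

/-- the phase on the first open set -/
noncomputable def tU (p : UU A) : Circle :=
  ⟨p.1.1.2.2.2 / sr (1 + xi p.1.1), circle_mem two_ne_zero (tU_aux p)⟩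

theorem tU_coe (p : UU A) : (tU p : ℂ) = p.1.1.2.2.2 / sr (1 + xi p.1.1) := rfl

theorem tU_mul (p : UU A) : (tU p : ℂ) * sr (1 + xi p.1.1) = p.1.1.2.2.2 := by
  rw [tU_coe, div_mul_cancel₀ _ (sr_ne p.2)]

theorem tU_sq (p : UU A) : (tU p : ℂ) ^ 2 * (p.1.1.2.1 : ℂ) = 1 := tU_aux p

theorem cont_tU : Continuous (tU : UU A → Circle) := by
  refine Continuous.subtype_mk ?_ _
  refine Continuous.div (by fun_prop) (cont_sr ?_ fun p => p.2) fun p => sr_ne p.2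
  exact continuous_const.add (cont_xi.comp (by fun_prop))

theorem tV_aux (p : VV A) :
    (-(p.1.1.2.2.1 / cb (-xi p.1.1))) ^ 3 * (p.1.1.2.1 : ℂ) = 1 := by
  have hs : -xi p.1.1 ∈ slitPlane := p.2
  have h1 := cb_ne hs
  have h2 := cb_cube (-xi p.1.1)
  have h4 : -xi p.1.1 ≠ 0 := slitPlane_ne_zero hs
  have h5 : (-(p.1.1.2.2.1 / cb (-xi p.1.1))) ^ 3 = -(p.1.1.2.2.1 ^ 3 / (-xi p.1.1)) := by
    rw [Odd.neg_pow (by decide), div_pow, h2]
  rw [h5]
  have h6 : xi p.1.1 = p.1.1.2.2.1 ^ 3 * (p.1.1.2.1 : ℂ) := rfl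
  have h7 : xi p.1.1 ≠ 0 := fun h => h4 (by rw [h, neg_zero])
  rw [div_neg, neg_neg, div_mul_eq_mul_div, ← h6, div_self h7]

/-- the phase on the second open set -/
noncomputable def tV (p : VV A) : Circle :=
  ⟨-(p.1.1.2.2.1 / cb (-xi p.1.1)), circle_mem three_ne_zero (tV_aux p)⟩

theorem tV_coe (p : VV A) : (tV p : ℂ) = -(p.1.1.2.2.1 / cb (-xi p.1.1)) := rfl

theorem tV_mul (p : VV A) : (tV p : ℂ) * cb (-xi p.1.1) = -p.1.1.2.2.1 := by
  rw [tV_coe, neg_mul, div_mul_cancel₀ _ (cb_ne p.2)]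

theorem tV_cube (p : VV A) : (tV p : ℂ) ^ 3 * (p.1.1.2.1 : ℂ) = 1 := tV_aux p

theorem cont_tV : Continuous (tV : VV A → Circle) := by
  refine Continuous.subtype_mk ?_ _
  refine (Continuous.div (by fun_prop) (cont_cb ?_ fun p => p.2) fun p => cb_ne p.2).neg
  exact (cont_xi.comp (by fun_prop)).neg

theorem w_eq_of {w t : Circle} {n : ℕ} (h : (t : ℂ) ^ n * (w : ℂ) = 1) : w = (t ^ n)⁻¹ := by
  apply Circle.ext
  rw [Circle.coe_inv, Circle.coe_pow]
  exact eq_inv_of_mul_eq_one_right h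

theorem tU_w (p : UU A) : p.1.1.2.1 = ((tU p) ^ 2)⁻¹ := w_eq_of (tU_sq p)

theorem tV_w (p : VV A) : p.1.1.2.1 = ((tV p) ^ 3)⁻¹ := w_eq_of (tV_cube p)

/-- the map of the first open set -/
noncomputable def hu : C(UU A, A × Circle) :=
  ⟨fun p => (p.1.1.1, tU p), by
    refine Continuous.prodMk (by fun_prop) cont_tU⟩

/-- the map of the second open set -/
noncomputable def hv : C(VV A, A × Circle) :=
  ⟨fun p => (p.1.1.1, tV p), by
    refine Continuous.prodMk (by fun_prop) cont_tV⟩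

/-- the map of the intersection -/
noncomputable def hi : C(↥(UU A ∩ VV A), A × Circle) :=
  ⟨fun p => (p.1.1.1, tU (inl (UU A) (VV A) p) / tV (inr (UU A) (VV A) p)), by
    refine Continuous.prodMk (by fun_prop) ?_
    exact Continuous.div' (cont_tU.comp (inl _ _).continuous) (cont_tV.comp (inr _ _).continuous)⟩

theorem rel (p : ↥(UU A ∩ VV A)) :
    (tU (inl (UU A) (VV A) p)) ^ 2 = (tV (inr (UU A) (VV A) p)) ^ 3 := by
  have h1 := tU_w (inl (UU A) (VV A) p)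
  have h2 := tV_w (inr (UU A) (VV A) p)
  have h3 : (inl (UU A) (VV A) p).1.1.2.1 = (inr (UU A) (VV A) p).1.1.2.1 := rfl
  rw [h1, h2] at h3
  exact inv_injective h3

theorem rel3 (p : ↥(UU A ∩ VV A)) :
    (tU (inl (UU A) (VV A) p) / tV (inr (UU A) (VV A) p)) ^ 3 = tU (inl (UU A) (VV A) p) := by
  rw [div_pow, ← rel, pow_succ, mul_div_cancel_left]

theorem rel2 (p : ↥(UU A ∩ VV A)) :
    (tU (inl (UU A) (VV A) p) / tV (inr (UU A) (VV A) p)) ^ 2 = tV (inr (UU A) (VV A) p) := by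
  rw [div_pow, rel, pow_succ, mul_div_cancel_left]

theorem cont_coe : Continuous (fun z : Circle => (z : ℂ)) := by fun_prop

theorem HE_hu : HE (hu : C(UU A, A × Circle)) := by
  have key : ∀ (q : UU A × unitInterval),
      1 + ((1 - (q.2 : ℝ) : ℝ) : ℂ) ^ 3 * xi q.1.1.1 ∈ slitPlane := by
    intro q
    have h1 : (0 : ℝ) ≤ 1 - q.2 := by have := q.2.2.2; linarith
    have h2 : (1 - q.2 : ℝ) ≤ 1 := by have := q.2.2.1; linarith
    have h3 : (1 - (q.2 : ℝ)) ^ 3 ≤ 1 := pow_le_one₀ h1 h2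
    have := slit_comb (z := 1 + xi q.1.1.1) q.1.2 (a := (1 - q.2) ^ 3) (b := 1 - (1 - q.2) ^ 3)
      (by positivity) (by linarith) (by linarith)
    convert this using 1
    push_cast
    ring
  have hmem : ∀ (q : UU A × unitInterval), ((q.1.1.1.1, q.1.1.1.2.1,
      ((1 - (q.2 : ℝ) : ℝ) : ℂ) * q.1.1.1.2.2.1,
      (tU q.1 : ℂ) * sr (1 + ((1 - (q.2 : ℝ) : ℝ) : ℂ) ^ 3 * xi q.1.1.1)) : A × Circle × ℂ × ℂ) ∈
      Tset A 1 := by
    intro q
    refine mem_T1 (z := ((1 - (q.2 : ℝ) : ℝ) : ℂ) ^ 3 * xi q.1.1.1) ?_ ?_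
    · unfold xi; ring
    · have h1 := tU_sq q.1
      have h2 := sr_sq (1 + ((1 - (q.2 : ℝ) : ℝ) : ℂ) ^ 3 * xi q.1.1.1)
      rw [mul_pow, h2]
      linear_combination (1 + ((1 - (q.2 : ℝ) : ℝ) : ℂ) ^ 3 * xi q.1.1.1) * h1
  refine HE_of_homotopyEquiv hu
    ⟨fun q => ⟨⟨(q.1, (q.2 ^ 2)⁻¹, 0, (q.2 : ℂ)), ?_⟩, ?_⟩, ?_⟩
    ⟨fun q => ⟨⟨_, hmem q⟩, ?_⟩, ?_⟩
    ⟨Prod.fst, continuous_fst⟩ ?_ ?_ ?_ ?_
  · refine mem_T1 (z := 0) (by simp) ?_
    rw [Circle.coe_inv, Circle.coe_pow, add_zero]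
    exact mul_inv_cancel₀ (pow_ne_zero 2 (Circle.coe_ne_zero q.2))
  · change 1 + xi _ ∈ slitPlane
    simp [xi, one_mem_slitPlane]
  · fun_prop
  · change 1 + xi _ ∈ slitPlane
    have : xi ((q.1.1.1.1, q.1.1.1.2.1, ((1 - (q.2 : ℝ) : ℝ) : ℂ) * q.1.1.1.2.2.1,
      (tU q.1 : ℂ) * sr (1 + ((1 - (q.2 : ℝ) : ℝ) : ℂ) ^ 3 * xi q.1.1.1)) :
      A × Circle × ℂ × ℂ) = ((1 - (q.2 : ℝ) : ℝ) : ℂ) ^ 3 * xi q.1.1.1 := by unfold xi; ring
    rw [this]
    exact key q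
  · refine Continuous.subtype_mk (Continuous.subtype_mk ?_ _) _
    have h1 : Continuous fun q : UU A × unitInterval => tU q.1 := cont_tU.comp continuous_fst
    have h2 : Continuous fun q : UU A × unitInterval => xi q.1.1.1 := cont_xi.comp (by fun_prop)
    have h3 : Continuous fun q : UU A × unitInterval =>
        sr (1 + ((1 - (q.2 : ℝ) : ℝ) : ℂ) ^ 3 * xi q.1.1.1) := cont_sr (by fun_prop) key
    exact Continuous.prodMk (by fun_prop) (Continuous.prodMk (by fun_prop)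
      (Continuous.prodMk (by fun_prop) ((cont_coe.comp h1).mul h3)))
  · intro p
    apply Subtype.ext
    apply Subtype.ext
    have := tU_mul p
    simp only [ContinuousMap.coe_mk, Set.Icc.coe_zero, sub_zero, ofReal_one, one_mul, one_pow, this]
  · intro p
    apply Subtype.ext
    apply Subtype.ext
    have := tU_w p
    simp only [ContinuousMap.coe_mk, Set.Icc.coe_one, sub_self, ofReal_zero, zero_mul, hu, ← this,
      ne_eq, OfNat.ofNat_ne_zero, not_false_eq_true, zero_pow, add_zero, sr_one, mul_one]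
  · intro y; rfl
  · intro y
    refine Prod.ext rfl ?_
    apply Circle.ext
    change (y.2 : ℂ) = (y.2 : ℂ) / sr (1 + xi _)
    simp [xi, sr_one]

theorem HE_hv : HE (hv : C(VV A, A × Circle)) := by
  have key0 : ∀ p : Tset A 1, -xi p.1 = 1 - p.1.2.2.2 ^ 2 * (p.1.2.1 : ℂ) := by
    intro p
    rw [← one_add_xi p.2]; ring
  have key : ∀ (q : VV A × unitInterval),
      1 - ((1 - (q.2 : ℝ) : ℝ) : ℂ) ^ 2 * (q.1.1.1.2.2.2 ^ 2 * (q.1.1.1.2.1 : ℂ)) ∈
        slitPlane := by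
    intro q
    have h1 : (0 : ℝ) ≤ 1 - q.2 := by have := q.2.2.2; linarith
    have h2 : (1 - q.2 : ℝ) ≤ 1 := by have := q.2.2.1; linarith
    have h3 : (1 - (q.2 : ℝ)) ^ 2 ≤ 1 := pow_le_one₀ h1 h2
    have := slit_comb (z := -xi q.1.1.1) q.1.2 (a := (1 - q.2) ^ 2) (b := 1 - (1 - q.2) ^ 2)
      (by positivity) (by linarith) (by linarith)
    rw [key0] at this
    convert this using 1
    push_cast
    ring
  have hmem : ∀ (q : VV A × unitInterval), ((q.1.1.1.1, q.1.1.1.2.1,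
      -((tV q.1 : ℂ) * cb (1 - ((1 - (q.2 : ℝ) : ℝ) : ℂ) ^ 2 *
        (q.1.1.1.2.2.2 ^ 2 * (q.1.1.1.2.1 : ℂ)))),
      ((1 - (q.2 : ℝ) : ℝ) : ℂ) * q.1.1.1.2.2.2) : A × Circle × ℂ × ℂ) ∈ Tset A 1 := by
    intro q
    refine mem_T1 (z := -(1 - ((1 - (q.2 : ℝ) : ℝ) : ℂ) ^ 2 *
        (q.1.1.1.2.2.2 ^ 2 * (q.1.1.1.2.1 : ℂ)))) ?_ ?_
    · have h1 := tV_cube q.1
      have h2 := cb_cube (1 - ((1 - (q.2 : ℝ) : ℝ) : ℂ) ^ 2 *
        (q.1.1.1.2.2.2 ^ 2 * (q.1.1.1.2.1 : ℂ)))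
      rw [Odd.neg_pow (by decide), mul_pow, h2]
      linear_combination -(1 - ((1 - (q.2 : ℝ) : ℝ) : ℂ) ^ 2 *
        (q.1.1.1.2.2.2 ^ 2 * (q.1.1.1.2.1 : ℂ))) * h1
    · ring
  refine HE_of_homotopyEquiv hv
    ⟨fun q => ⟨⟨(q.1, (q.2 ^ 3)⁻¹, -(q.2 : ℂ), 0), ?_⟩, ?_⟩, ?_⟩
    ⟨fun q => ⟨⟨_, hmem q⟩, ?_⟩, ?_⟩
    ⟨Prod.fst, continuous_fst⟩ ?_ ?_ ?_ ?_
  · refine mem_T1 (z := -1) ?_ (by simp)
    rw [Circle.coe_inv, Circle.coe_pow, Odd.neg_pow (by decide), neg_mul,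
      mul_inv_cancel₀ (pow_ne_zero 3 (Circle.coe_ne_zero q.2))]
  · change -xi _ ∈ slitPlane
    have : xi ((q.1, (q.2 ^ 3)⁻¹, -(q.2 : ℂ), 0) : A × Circle × ℂ × ℂ) = -1 := by
      simp only [xi, Circle.coe_inv, Circle.coe_pow]
      rw [Odd.neg_pow (by decide), neg_mul,
        mul_inv_cancel₀ (pow_ne_zero 3 (Circle.coe_ne_zero q.2))]
    rw [this, neg_neg]
    exact one_mem_slitPlane
  · fun_prop
  · change -xi _ ∈ slitPlane
    rw [key0 ⟨_, hmem q⟩]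
    change 1 - (((1 - (q.2 : ℝ) : ℝ) : ℂ) * q.1.1.1.2.2.2) ^ 2 * (q.1.1.1.2.1 : ℂ) ∈ slitPlane
    have := key q
    convert this using 1
    ring
  · refine Continuous.subtype_mk (Continuous.subtype_mk ?_ _) _
    have h1 : Continuous fun q : VV A × unitInterval => tV q.1 := cont_tV.comp continuous_fst
    have h3 : Continuous fun q : VV A × unitInterval =>
        cb (1 - ((1 - (q.2 : ℝ) : ℝ) : ℂ) ^ 2 *
        (q.1.1.1.2.2.2 ^ 2 * (q.1.1.1.2.1 : ℂ))) := cont_cb (by fun_prop) key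
    exact Continuous.prodMk (by fun_prop) (Continuous.prodMk (by fun_prop)
      (Continuous.prodMk ((cont_coe.comp h1).mul h3).neg (by fun_prop)))
  · intro p
    apply Subtype.ext
    apply Subtype.ext
    have := tV_mul p
    have h2 := key0 p.1
    simp only [ContinuousMap.coe_mk, Set.Icc.coe_zero, sub_zero, ofReal_one, one_mul, one_pow,
      ← h2, this, neg_neg]
  · intro p
    apply Subtype.ext
    apply Subtype.ext
    have := tV_w p
    simp only [ContinuousMap.coe_mk, Set.Icc.coe_one, sub_self, ofReal_zero, zero_mul, hv, ← this,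
      ne_eq, OfNat.ofNat_ne_zero, not_false_eq_true, zero_pow, sub_zero, cb_one, mul_one]
  · intro y; rfl
  · intro y
    refine Prod.ext rfl ?_
    apply Circle.ext
    change (y.2 : ℂ) = -(-(y.2 : ℂ) /
      cb (-xi ((y.1, (y.2 ^ 3)⁻¹, -(y.2 : ℂ), 0) : A × Circle × ℂ × ℂ)))
    have : xi ((y.1, (y.2 ^ 3)⁻¹, -(y.2 : ℂ), 0) : A × Circle × ℂ × ℂ) = -1 := by
      simp only [xi, Circle.coe_inv, Circle.coe_pow]
      rw [Odd.neg_pow (by decide), neg_mul,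
        mul_inv_cancel₀ (pow_ne_zero 3 (Circle.coe_ne_zero y.2))]
    rw [this, neg_neg, cb_one, div_one, neg_neg]

theorem HE_hi : HE (hi : C(↥(UU A ∩ VV A), A × Circle)) := by
  -- the moving parameter
  have hxi : ∀ p : ↥(UU A ∩ VV A), 1 + xi p.1.1 ∈ slitPlane ∧ -xi p.1.1 ∈ slitPlane :=
    fun p => ⟨p.2.1, p.2.2⟩
  let X : ↥(UU A ∩ VV A) × unitInterval → ℂ := fun q =>
    ((1 - (q.2 : ℝ) : ℝ) : ℂ) * xi q.1.1.1 - (((q.2 : ℝ) / 2 : ℝ) : ℂ)
  have hX : ∀ q, X q = ((1 - (q.2 : ℝ) : ℝ) : ℂ) * xi q.1.1.1 - (((q.2 : ℝ) / 2 : ℝ) : ℂ) :=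
    fun q => rfl
  have key1 : ∀ q, 1 + X q ∈ slitPlane := by
    intro q
    have h0 := q.2.2.1
    have h1 : (0 : ℝ) ≤ 1 - q.2 := by have := q.2.2.2; linarith
    have := slit_comb (hxi q.1).1 (a := 1 - q.2) (b := q.2 / 2) h1 (by linarith) (by linarith)
    convert this using 1
    rw [hX]
    push_cast
    ring
  have key2 : ∀ q, -X q ∈ slitPlane := by
    intro q
    have h0 := q.2.2.1
    have h1 : (0 : ℝ) ≤ 1 - q.2 := by have := q.2.2.2; linarith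
    have := slit_comb (hxi q.1).2 (a := 1 - q.2) (b := q.2 / 2) h1 (by linarith) (by linarith)
    convert this using 1
    rw [hX]
    push_cast
    ring
  have hXc : Continuous X := by
    have h2 : Continuous fun q : ↥(UU A ∩ VV A) × unitInterval => xi q.1.1.1 :=
      cont_xi.comp (by fun_prop)
    fun_prop
  let a : ↥(UU A ∩ VV A) → Circle := fun p => tU (inl (UU A) (VV A) p)
  let b : ↥(UU A ∩ VV A) → Circle := fun p => tV (inr (UU A) (VV A) p)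
  have ha : ∀ p, (a p : ℂ) ^ 2 * (p.1.1.2.1 : ℂ) = 1 := fun p => tU_sq (inl (UU A) (VV A) p)
  have hb : ∀ p, (b p : ℂ) ^ 3 * (p.1.1.2.1 : ℂ) = 1 := fun p => tV_cube (inr (UU A) (VV A) p)
  have hac : Continuous a := cont_tU.comp (inl _ _).continuous
  have hbc : Continuous b := cont_tV.comp (inr _ _).continuous
  have pt1 : ∀ q : ↥(UU A ∩ VV A) × unitInterval,
      (-((b q.1 : ℂ) * cb (-X q))) ^ 3 * (q.1.1.1.2.1 : ℂ) = X q := by
    intro q
    rw [Odd.neg_pow (by decide), mul_pow, cb_cube]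
    linear_combination X q * hb q.1
  have pt2 : ∀ q : ↥(UU A ∩ VV A) × unitInterval,
      ((a q.1 : ℂ) * sr (1 + X q)) ^ 2 * (q.1.1.1.2.1 : ℂ) = 1 + X q := by
    intro q
    rw [mul_pow, sr_sq]
    linear_combination (1 + X q) * ha q.1
  let H : ↥(UU A ∩ VV A) × unitInterval → ↥(UU A ∩ VV A) := fun q =>
    ⟨⟨(q.1.1.1.1, q.1.1.1.2.1, -((b q.1 : ℂ) * cb (-X q)), (a q.1 : ℂ) * sr (1 + X q)),
      mem_T1 (pt1 q) (pt2 q)⟩, by
      constructor
      · change 1 + _ ^ 3 * _ ∈ slitPlane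
        rw [pt1 q]; exact key1 q
      · change -(_ ^ 3 * _) ∈ slitPlane
        rw [pt1 q]; exact key2 q⟩
  have hHc : Continuous H := by
    refine Continuous.subtype_mk (Continuous.subtype_mk ?_ _) _
    exact Continuous.prodMk (by fun_prop) (Continuous.prodMk (by fun_prop)
      (Continuous.prodMk ((cont_coe.comp (hbc.comp continuous_fst)).mul
        (cont_cb hXc.neg key2)).neg ((cont_coe.comp (hac.comp continuous_fst)).mul
        (cont_sr (continuous_const.add hXc) key1))))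
  -- the inverse
  have hhalf : (1 / 2 : ℂ) ∈ slitPlane := by
    rw [mem_slitPlane_iff]; left; norm_num
  have g1 : ∀ q : A × Circle, (-((q.2 : ℂ) ^ 2 * cb (1 / 2))) ^ 3 * (((q.2 ^ 6)⁻¹ : Circle) : ℂ) =
      -(1 / 2) := by
    intro q
    have h1 := Circle.coe_ne_zero q.2
    rw [Odd.neg_pow (by decide), mul_pow, cb_cube, Circle.coe_inv, Circle.coe_pow]
    field_simp
  have g2 : ∀ q : A × Circle, ((q.2 : ℂ) ^ 3 * sr (1 / 2)) ^ 2 * (((q.2 ^ 6)⁻¹ : Circle) : ℂ) =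
      1 + -(1 / 2) := by
    intro q
    have h1 := Circle.coe_ne_zero q.2
    rw [mul_pow, sr_sq, Circle.coe_inv, Circle.coe_pow]
    field_simp
    norm_num
  let g : A × Circle → ↥(UU A ∩ VV A) := fun q =>
    ⟨⟨(q.1, (q.2 ^ 6)⁻¹, -((q.2 : ℂ) ^ 2 * cb (1 / 2)), (q.2 : ℂ) ^ 3 * sr (1 / 2)),
      mem_T1 (g1 q) (g2 q)⟩, by
      constructor
      · change 1 + _ ^ 3 * _ ∈ slitPlane
        rw [g1 q]
        convert hhalf using 1
        norm_num
      · change -(_ ^ 3 * _) ∈ slitPlane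
        rw [g1 q, neg_neg]; exact hhalf⟩
  have hgc : Continuous g := by
    refine Continuous.subtype_mk (Continuous.subtype_mk ?_ _) _
    fun_prop
  have hxg : ∀ q, xi (g q).1.1 = -(1 / 2) := fun q => g1 q
  refine HE_of_homotopyEquiv hi ⟨g, hgc⟩ ⟨H, hHc⟩ ⟨Prod.fst, continuous_fst⟩ ?_ ?_ ?_ ?_
  · intro p
    have hX0 : X (p, 0) = xi p.1.1 := by simp [X]
    apply Subtype.ext
    apply Subtype.ext
    change (p.1.1.1, p.1.1.2.1, -((b p : ℂ) * cb (-X (p, 0))),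
      (a p : ℂ) * sr (1 + X (p, 0))) = p.1.1
    rw [hX0]
    have h1 : (b p : ℂ) * cb (-xi p.1.1) = -p.1.1.2.2.1 := tV_mul (inr (UU A) (VV A) p)
    have h2 : (a p : ℂ) * sr (1 + xi p.1.1) = p.1.1.2.2.2 := tU_mul (inl (UU A) (VV A) p)
    rw [h1, h2, neg_neg]
  · intro p
    have hX1 : X (p, 1) = -(1 / 2) := by simp [X]
    have e3 := rel3 p
    have e2 := rel2 p
    have hw := tU_w (inl (UU A) (VV A) p)
    apply Subtype.ext
    apply Subtype.ext
    change (p.1.1.1, p.1.1.2.1, -((b p : ℂ) * cb (-X (p, 1))),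
      (a p : ℂ) * sr (1 + X (p, 1))) = (p.1.1.1, ((a p / b p) ^ 6)⁻¹,
        -(((a p / b p : Circle) : ℂ) ^ 2 * cb (1 / 2)), ((a p / b p : Circle) : ℂ) ^ 3 * sr (1 / 2))
    rw [hX1, ← Circle.coe_pow, ← Circle.coe_pow]
    have e3' : (a p / b p) ^ 3 = a p := e3
    have e2' : (a p / b p) ^ 2 = b p := e2
    rw [e3', e2', neg_neg]
    have e6 : (a p / b p) ^ 6 = a p ^ 2 := by
      have : (a p / b p) ^ 6 = ((a p / b p) ^ 3) ^ 2 := by rw [← pow_mul]
      rw [this, e3']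
    have hw' : p.1.1.2.1 = (a p ^ 2)⁻¹ := hw
    rw [e6, ← hw']
    have : (1 + -(1 / 2) : ℂ) = 1 / 2 := by norm_num
    rw [this]
  · intro y; rfl
  · intro y
    refine Prod.ext rfl ?_
    change y.2 = a (g y) / b (g y)
    have h1 : a (g y) = y.2 ^ 3 := by
      apply Circle.ext
      have h2 : (a (g y) : ℂ) * sr (1 + xi (g y).1.1) = (y.2 : ℂ) ^ 3 * sr (1 / 2) :=
        tU_mul (inl (UU A) (VV A) (g y))
      rw [hxg, show (1 + -(1 / 2) : ℂ) = 1 / 2 by norm_num] at h2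
      rw [Circle.coe_pow]
      exact mul_right_cancel₀ (sr_ne hhalf) h2
    have h3 : b (g y) = y.2 ^ 2 := by
      apply Circle.ext
      have h2 : (b (g y) : ℂ) * cb (-xi (g y).1.1) = -(-((y.2 : ℂ) ^ 2 * cb (1 / 2))) :=
        tV_mul (inr (UU A) (VV A) (g y))
      rw [hxg, neg_neg, neg_neg] at h2
      rw [Circle.coe_pow]
      exact mul_right_cancel₀ (cb_ne hhalf) h2
    rw [h1, h3, pow_succ, mul_div_cancel_left]

/-- the knot complement -/
theorem HE_theta : HE (⟨fun p => (p.1.1, (p.1.2.1)⁻¹), by fun_prop⟩ :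
    C(Tset A 1, A × Circle)) := by
  refine HE_glue A (UU A) (VV A) (isOpen_UU A) (isOpen_VV A) (UV_cover A) _ hu hv hi HE_hu HE_hv
    HE_hi ?_ ?_ ?_ ?_
  · ext p
    · rfl
    · change (tU (inl (UU A) (VV A) p) : ℂ) =
        (((tU (inl (UU A) (VV A) p) / tV (inr (UU A) (VV A) p)) ^ 3 : Circle) : ℂ)
      rw [rel3]
  · ext p
    · rfl
    · change (tV (inr (UU A) (VV A) p) : ℂ) =
        (((tU (inl (UU A) (VV A) p) / tV (inr (UU A) (VV A) p)) ^ 2 : Circle) : ℂ)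
      rw [rel2]
  · ext p
    · rfl
    · change (((p.1.1.2.1)⁻¹ : Circle) : ℂ) = ((tU p ^ 2 : Circle) : ℂ)
      rw [tU_w, inv_inv]
  · ext p
    · rfl
    · change (((p.1.1.2.1)⁻¹ : Circle) : ℂ) = ((tV p ^ 3 : Circle) : ℂ)
      rw [tV_w, inv_inv]

end Pool.Agent.Y199.Bi
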