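import Pool.Agent.Y199.Bi.Geo
import Pool.Agent.Y199.Bi.Ts

/-! The total space is a closed submanifold of dimension three. -/

set_option autoImplicit false

open scoped LinearAlgebra.Projectivization

namespace Pool.Agent.Y199.Bi

open Complex Pool.Agent.Helper922.HB

noncomputable section

theorem hasFDerivAt_Psi {w : (Fin 3 → ℂ) → Fin 3 → ℂ} {v : Fin 3 → ℂ}
    (hw : DifferentiableAt ℂ w v) :
    HasFDerivAt (fun v => Psi (v 0) (w v))
      (ContinuousLinearMap.pi fun p : II =>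
        (w v p.1) • ((deriv (ET (tt p.1)) (v 0) p.2) • ContinuousLinearMap.proj (R := ℂ)
          (φ := fun _ : Fin 3 => ℂ) 0) +
        (ET (tt p.1) (v 0) p.2) • ((ContinuousLinearMap.proj (R := ℂ)
          (φ := fun _ : Fin 3 => ℂ) p.1).comp (fderiv ℂ w v))) v := by
  rw [hasFDerivAt_pi']
  intro p
  have h1 : HasFDerivAt (fun v => w v p.1)
      ((ContinuousLinearMap.proj (R := ℂ) (φ := fun _ : Fin 3 => ℂ) p.1).comp (fderiv ℂ w v)) v :=
    (hasFDerivAt_pi'.mp hw.hasFDerivAt) p.1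
  have h2 : HasDerivAt (fun u => ET (tt p.1) u p.2) (deriv (ET (tt p.1)) (v 0) p.2) (v 0) :=
    (hasDerivAt_pi.mp (ET_diff (tt p.1) (v 0)).hasDerivAt) p.2
  have h3 : HasFDerivAt (fun v : Fin 3 → ℂ => v 0) (ContinuousLinearMap.proj (R := ℂ)
          (φ := fun _ : Fin 3 => ℂ) 0) v := hasFDerivAt_apply 0 v
  have h4 := h2.comp_hasFDerivAt v h3
  have h5 := h1.mul h4
  exact h5

theorem imm_aux {w : (Fin 3 → ℂ) → Fin 3 → ℂ} {v : Fin 3 → ℂ} (hw : DifferentiableAt ℂ w v)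
    {i : Fin 3} (hi : w v i ≠ 0) (hi' : ∀ h, fderiv ℂ w v h i = 0) {h : Fin 3 → ℂ} {c : ℂ}
    (hc : fderiv ℂ (fun v => Psi (v 0) (w v)) v h = c • Psi (v 0) (w v)) :
    h 0 = 0 ∧ fderiv ℂ w v h = 0 := by
  rw [(hasFDerivAt_Psi hw).fderiv] at hc
  have hk : ∀ k : Fin 3, (w v k * h 0) • deriv (ET (tt k)) (v 0) +
      (fderiv ℂ w v h k) • ET (tt k) (v 0) = (c * w v k) • ET (tt k) (v 0) := by
    intro k
    funext j
    have := congrFun hc (k, j)
    simp only [ContinuousLinearMap.pi_apply, add_apply,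
      _root_.smul_apply, ContinuousLinearMap.comp_apply, ContinuousLinearMap.proj_apply,
      Psi, smul_eq_mul, Pi.smul_apply, Pi.add_apply] at this ⊢
    linear_combination this
  have h0 : h 0 = 0 := by
    by_contra h0
    have h1 := hk i
    rw [hi', zero_smul, add_zero] at h1
    apply ET_imm (tt i) (v 0) (c / h 0)
    have h2 : w v i * h 0 ≠ 0 := mul_ne_zero hi h0
    apply smul_right_injective _ h2
    change (w v i * h 0) • deriv (ET (tt i)) (v 0) = (w v i * h 0) • (c / h 0) • ET (tt i) (v 0)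
    rw [h1, smul_smul]
    congr 1
    field_simp
  have hc0 : c = 0 := by
    have h1 := hk i
    rw [hi', h0, mul_zero, zero_smul, zero_smul, add_zero] at h1
    rcases smul_eq_zero.mp h1.symm with h2 | h2
    · exact (mul_eq_zero.mp h2).resolve_right hi
    · exact absurd h2 (ET_ne _ _)
  refine ⟨h0, ?_⟩
  funext k
  have h1 := hk k
  rw [h0, mul_zero, zero_smul, zero_add, hc0, zero_mul, zero_smul] at h1
  exact (smul_eq_zero.mp h1).resolve_right (ET_ne _ _)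

theorem act_zero (w : Fin 3 → ℂ) : act 0 w = w := by
  funext i
  simp [act]

theorem int_zero {m n : ℤ} (h : ‖((m : ℂ) + n * I)‖ < 1) : m = 0 ∧ n = 0 := by
  have h1 := (abs_re_le_norm ((m : ℂ) + n * I)).trans_lt h
  have h2 := (abs_im_le_norm ((m : ℂ) + n * I)).trans_lt h
  simp at h1 h2
  have h3 : |m| < 1 := by exact_mod_cast h1
  have h4 : |n| < 1 := by exact_mod_cast h2
  exact ⟨Int.abs_lt_one_iff.mp h3, Int.abs_lt_one_iff.mp h4⟩

theorem openEmb {V : Set (Fin 3 → ℂ)} (hV : IsOpen V) (ψ : V → PP) (hψ : Continuous ψ)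
    (u0 : ℂ) (hu : ∀ v : V, ‖(ψ v).1.1 - u0‖ < 1 / 2)
    (D : Set PP) (hD : IsOpen D) (R : D → Fin 3 → ℂ) (hR : Continuous R)
    (h1 : ∀ v : V, ψ v ∈ D) (h2 : ∀ v : V, R ⟨ψ v, h1 v⟩ = v.1)
    (h3 : ∀ q : D, ∀ hv : R q ∈ V, ∃ c : ℂˣ, q.1 = trans 0 0 c (ψ ⟨R q, hv⟩))
    (h4 : ∀ v v' : V, ∀ c : ℂˣ, ψ v' = trans 0 0 c (ψ v) → v = v') :
    Topology.IsOpenEmbedding (fun v : V => PhiX (ψ v)) := by
  refine Topology.IsOpenEmbedding.of_continuous_injective_isOpenMap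
    (continuous_PhiX.comp hψ) ?_ ?_
  · intro v v' h
    obtain ⟨m, n, c, hc⟩ := PhiX_eq_iff.mp h
    have hu' : (ψ v').1.1 = (ψ v).1.1 + (m + n * I) := congrArg (fun q : PP => q.1.1) hc
    have h5 : ‖((m : ℂ) + n * I)‖ < 1 := by
      have h6 : (m : ℂ) + n * I = ((ψ v').1.1 - u0) - ((ψ v).1.1 - u0) := by
        rw [hu']; ring
      rw [h6]
      calc ‖((ψ v').1.1 - u0) - ((ψ v).1.1 - u0)‖ ≤ ‖(ψ v').1.1 - u0‖ + ‖(ψ v).1.1 - u0‖ :=
            norm_sub_le _ _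
        _ < 1 / 2 + 1 / 2 := add_lt_add (hu _) (hu _)
        _ = 1 := by norm_num
    obtain ⟨rfl, rfl⟩ := int_zero h5
    exact h4 v v' c hc
  · intro N hN
    have h5 : (fun v : V => PhiX (ψ v)) '' N =
        PhiX '' (Subtype.val '' (R ⁻¹' (Subtype.val '' N))) := by
      ext x
      constructor
      · rintro ⟨v, hv, rfl⟩
        refine ⟨ψ v, ⟨⟨ψ v, h1 v⟩, ?_, rfl⟩, rfl⟩
        exact ⟨v, hv, (h2 v).symm⟩
      · rintro ⟨_, ⟨q, ⟨v, hv, hq⟩, rfl⟩, rfl⟩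
        have hv' : R q ∈ V := by rw [← hq]; exact v.2
        refine ⟨v, hv, ?_⟩
        obtain ⟨c, hc⟩ := h3 q hv'
        have h6 : v = ⟨R q, hv'⟩ := Subtype.ext hq
        rw [← h6] at hc
        exact PhiX_eq_iff.mpr ⟨0, 0, c, hc⟩
    rw [h5]
    apply isOpenMap_PhiX
    apply hD.isOpenMap_subtype_val
    exact (hV.isOpenMap_subtype_val _ hN).preimage hR

/-- the first family of charts: domain -/
def V1 (u0 : ℂ) : Set (Fin 3 → ℂ) := {v | ‖v 0 - u0‖ < 1 / 2}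

/-- the first family of charts: coordinates -/
def w1 (v : Fin 3 → ℂ) : Fin 3 → ℂ := ![1, v 1, v 2]

/-- the first family of charts: the value of the projection -/
def a1 (v : Fin 3 → ℂ) : ℂ := v 2 ^ 2 - v 1 ^ 3

theorem w1_ne (v : Fin 3 → ℂ) : w1 v ≠ 0 := by
  intro h
  have := congrFun h 0
  simp [w1] at this

/-- the first family of charts: the map to the parameter space -/
def psi1 (v : Fin 3 → ℂ) : PP := ⟨(v 0, w1 v, a1 v), w1_ne v, by
  simp only [w1, a1, Matrix.cons_val_zero, Matrix.cons_val_one, Matrix.cons_val]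
  ring⟩

theorem diff_w1 : Differentiable ℂ w1 := by
  rw [differentiable_pi]
  intro i
  fin_cases i
  · change Differentiable ℂ fun v : Fin 3 → ℂ => (1 : ℂ)
    fun_prop
  · change Differentiable ℂ fun v : Fin 3 → ℂ => v 1
    fun_prop
  · change Differentiable ℂ fun v : Fin 3 → ℂ => v 2
    fun_prop

theorem cont_psi1 : Continuous psi1 := by
  refine Continuous.subtype_mk ?_ _
  have := diff_w1.continuous
  unfold a1
  fun_prop

theorem fderiv_w1 (v h : Fin 3 → ℂ) : fderiv ℂ w1 v h = ![0, h 1, h 2] := by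
  have : HasFDerivAt w1 (ContinuousLinearMap.pi ![(0 : (Fin 3 → ℂ) →L[ℂ] ℂ),
      ContinuousLinearMap.proj (R := ℂ) (φ := fun _ : Fin 3 => ℂ) 1,
      ContinuousLinearMap.proj (R := ℂ) (φ := fun _ : Fin 3 => ℂ) 2]) v := by
    rw [hasFDerivAt_pi]
    intro i
    fin_cases i
    · exact hasFDerivAt_const _ _
    · exact hasFDerivAt_apply 1 v
    · exact hasFDerivAt_apply 2 v
  rw [this.fderiv]
  funext i
  fin_cases i <;> rfl

/-- the first family of charts -/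
def chart1 (u0 : ℂ) : LocalParam 3 XX where
  V := V1 u0
  a := a1
  φ := fun v => Psi (v 0) (w1 v)
  isOpen_V := isOpen_lt (by fun_prop) continuous_const
  holo_a := by unfold a1; fun_prop
  holo_φ := fun v _ => (hasFDerivAt_Psi (diff_w1 v)).differentiableAt.differentiableWithinAt
  φ_ne := fun v _ => Psi_ne (w1_ne v) _
  mem := fun v _ => ⟨psi1 v, rfl⟩
  openEmbedding := by
    refine openEmb (isOpen_lt (by fun_prop) continuous_const) (fun v : V1 u0 => psi1 v)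
      (cont_psi1.comp continuous_subtype_val) u0 (fun v => v.2) {q : PP | q.1.2.1 0 ≠ 0}
      (isOpen_ne_fun (by fun_prop) continuous_const)
      (fun q => ![q.1.1.1, q.1.1.2.1 1 / q.1.1.2.1 0, q.1.1.2.1 2 / q.1.1.2.1 0]) ?_ ?_ ?_ ?_ ?_
    · refine continuous_pi fun i => ?_
      fin_cases i
      · change Continuous fun q : {q : PP | q.1.2.1 0 ≠ 0} => q.1.1.1
        fun_prop
      · change Continuous fun q : {q : PP | q.1.2.1 0 ≠ 0} => q.1.1.2.1 1 / q.1.1.2.1 0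
        exact Continuous.div (by fun_prop) (by fun_prop) fun q => q.2
      · change Continuous fun q : {q : PP | q.1.2.1 0 ≠ 0} => q.1.1.2.1 2 / q.1.1.2.1 0
        exact Continuous.div (by fun_prop) (by fun_prop) fun q => q.2
    · intro v
      change (1 : ℂ) ≠ 0
      exact one_ne_zero
    · intro v
      funext i
      fin_cases i
      · rfl
      · change v.1 1 / 1 = v.1 1
        exact div_one _
      · change v.1 2 / 1 = v.1 2
        exact div_one _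
    · intro q hq
      have h0 : q.1.1.2.1 0 ≠ 0 := q.2
      refine ⟨Units.mk0 _ h0, ?_⟩
      apply Subtype.ext
      refine Prod.ext ?_ (Prod.ext ?_ ?_)
      · change q.1.1.1 = q.1.1.1 + (((0 : ℤ) : ℂ) + ((0 : ℤ) : ℂ) * I)
        simp
      · change q.1.1.2.1 = (q.1.1.2.1 0) • act 0 _
        rw [act_zero]
        funext i
        fin_cases i
        · change q.1.1.2.1 0 = q.1.1.2.1 0 * 1
          ring
        · change q.1.1.2.1 1 = q.1.1.2.1 0 * (q.1.1.2.1 1 / q.1.1.2.1 0)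
          field_simp
        · change q.1.1.2.1 2 = q.1.1.2.1 0 * (q.1.1.2.1 2 / q.1.1.2.1 0)
          field_simp
      · change q.1.1.2.2 = (q.1.1.2.1 2 / q.1.1.2.1 0) ^ 2 - (q.1.1.2.1 1 / q.1.1.2.1 0) ^ 3
        have := q.1.2.2
        field_simp
        linear_combination -this
    · intro v v' c hc
      have e0 := congrArg (fun q : PP => q.1.1) hc
      have e1 := congrArg (fun q : PP => q.1.2.1) hc
      change w1 v' = (c : ℂ) • act 0 (w1 v) at e1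
      rw [act_zero] at e1
      have e2 : (1 : ℂ) = c * 1 := congrFun e1 0
      have e3 : v'.1 1 = c * v.1 1 := congrFun e1 1
      have e4 : v'.1 2 = c * v.1 2 := congrFun e1 2
      have e5 : v'.1 0 = v.1 0 + (((0 : ℤ) : ℂ) + ((0 : ℤ) : ℂ) * I) := e0
      rw [mul_one] at e2
      rw [← e2, one_mul] at e3 e4
      apply Subtype.ext
      funext i
      fin_cases i
      · change v.1 0 = v'.1 0
        rw [e5]; simp
      · exact e3.symm
      · exact e4.symm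
  immersion := by
    rintro v - h - ⟨c, hc⟩
    obtain ⟨h0, h1⟩ := imm_aux (diff_w1 v) (i := 0) (by simp [w1]) (fun h => by
      rw [fderiv_w1]; rfl) hc
    rw [fderiv_w1] at h1
    funext i
    fin_cases i
    · exact h0
    · exact congrFun h1 1
    · exact congrFun h1 2

/-- the second family of charts: domain -/
def V2 (u0 : ℂ) : Set (Fin 3 → ℂ) := {v | ‖v 0 - u0‖ < 1 / 2 ∧ ‖v 2‖ * ‖v 1‖ ^ 6 < 1}

/-- the second family of charts: coordinates -/
def w2 (v : Fin 3 → ℂ) : Fin 3 → ℂ := ![v 1 ^ 3, v 1 * cb (1 - v 2 * v 1 ^ 6), 1]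

theorem slit_of_lt {z : ℂ} (hz : ‖z‖ < 1) : 1 - z ∈ slitPlane := by
  left
  have := (abs_le.mp (abs_re_le_norm z)).2
  rw [sub_re, one_re]
  linarith

theorem slit_of_V {v : Fin 3 → ℂ} (hv : ‖v 2‖ * ‖v 1‖ ^ 6 < 1) :
    1 - v 2 * v 1 ^ 6 ∈ slitPlane := by
  apply slit_of_lt
  rw [norm_mul, norm_pow]
  exact hv

theorem w2_ne (v : Fin 3 → ℂ) : w2 v ≠ 0 := by
  intro h
  have := congrFun h 2
  simp [w2] at this

/-- the second family of charts: the map to the parameter space -/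
def psi2 (v : Fin 3 → ℂ) : PP := ⟨(v 0, w2 v, v 2), w2_ne v, by
  simp only [w2, Matrix.cons_val_zero, Matrix.cons_val_one, Matrix.cons_val]
  rw [mul_pow, cb_cube]
  ring⟩

theorem isOpen_V2 (u0 : ℂ) : IsOpen (V2 u0) := by
  have h1 : IsOpen {v : Fin 3 → ℂ | ‖v 0 - u0‖ < 1 / 2} := isOpen_lt (by fun_prop) continuous_const
  have h2 : IsOpen {v : Fin 3 → ℂ | ‖v 2‖ * ‖v 1‖ ^ 6 < 1} :=
    isOpen_lt (by fun_prop) continuous_const
  exact h1.inter h2

theorem diff_w2 {v : Fin 3 → ℂ} (hv : ‖v 2‖ * ‖v 1‖ ^ 6 < 1) : DifferentiableAt ℂ w2 v := by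
  rw [differentiableAt_pi]
  intro i
  fin_cases i
  · change DifferentiableAt ℂ (fun v : Fin 3 → ℂ => v 1 ^ 3) v
    fun_prop
  · change DifferentiableAt ℂ (fun v : Fin 3 → ℂ => v 1 * cb (1 - v 2 * v 1 ^ 6)) v
    have h1 : DifferentiableAt ℂ (fun v : Fin 3 → ℂ => cb (1 - v 2 * v 1 ^ 6)) v := by
      unfold cb
      exact DifferentiableAt.cpow (by fun_prop) (by fun_prop) (slit_of_V hv)
    fun_prop
  · change DifferentiableAt ℂ (fun v : Fin 3 → ℂ => (1 : ℂ)) v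
    fun_prop

theorem fderiv_w2 {v : Fin 3 → ℂ} (hv : ‖v 2‖ * ‖v 1‖ ^ 6 < 1) (h : Fin 3 → ℂ) :
    fderiv ℂ w2 v h 0 = 3 * v 1 ^ 2 * h 1 ∧ fderiv ℂ w2 v h 2 = 0 ∧
    (v 1 = 0 → fderiv ℂ w2 v h 1 = h 1) := by
  have hd := hasFDerivAt_pi'.mp (diff_w2 hv).hasFDerivAt
  refine ⟨?_, ?_, ?_⟩
  · have h1 : HasFDerivAt (fun v : Fin 3 → ℂ => v 1 ^ 3) _ v := hd 0
    have h2 : HasFDerivAt (fun v : Fin 3 → ℂ => v 1 ^ 3) _ v :=
      (hasFDerivAt_apply (𝕜 := ℂ) (1 : Fin 3) v).pow 3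
    have h3 := congrArg (fun L : (Fin 3 → ℂ) →L[ℂ] ℂ => L h) (h1.unique h2)
    simp only [ContinuousLinearMap.comp_apply, ContinuousLinearMap.proj_apply,
      _root_.smul_apply] at h3
    rw [h3]
    simp
  · have h1 : HasFDerivAt (fun v : Fin 3 → ℂ => (1 : ℂ)) _ v := hd 2
    have h2 : HasFDerivAt (fun v : Fin 3 → ℂ => (1 : ℂ)) (0 : (Fin 3 → ℂ) →L[ℂ] ℂ) v :=
      hasFDerivAt_const (1 : ℂ) v
    have h3 := congrArg (fun L : (Fin 3 → ℂ) →L[ℂ] ℂ => L h) (h1.unique h2)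
    simpa using h3
  · intro hv1
    have h1 : HasFDerivAt (fun v : Fin 3 → ℂ => v 1 * cb (1 - v 2 * v 1 ^ 6)) _ v := hd 1
    have hcb : DifferentiableAt ℂ (fun v : Fin 3 → ℂ => cb (1 - v 2 * v 1 ^ 6)) v := by
      unfold cb
      exact DifferentiableAt.cpow (by fun_prop) (by fun_prop) (slit_of_V hv)
    have h2 := (hasFDerivAt_apply (𝕜 := ℂ) (1 : Fin 3) v).mul hcb.hasFDerivAt
    have h3 := congrArg (fun L : (Fin 3 → ℂ) →L[ℂ] ℂ => L h) (h1.unique h2)
    simp only [ContinuousLinearMap.comp_apply, ContinuousLinearMap.proj_apply,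
      _root_.smul_apply, add_apply, hv1] at h3
    rw [h3]
    have h4 : (1 : ℂ) - v 2 * 0 ^ 6 = 1 := by simp
    rw [h4, cb_one]
    simp

theorem D2_slit {q : PP} (h2 : q.1.2.1 2 ≠ 0)
    (h : ‖q.1.2.2‖ * ‖q.1.2.1 0‖ ^ 2 < ‖q.1.2.1 2‖ ^ 2) :
    1 - q.1.2.2 * (q.1.2.1 0 / q.1.2.1 2) ^ 2 ∈ slitPlane := by
  apply slit_of_lt
  rw [norm_mul, norm_pow, norm_div, div_pow, mul_div_assoc']
  have : 0 < ‖q.1.2.1 2‖ ^ 2 := by positivity
  rw [div_lt_one this]
  exact h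

theorem D2_rel {q : PP} (h2 : q.1.2.1 2 ≠ 0) :
    (q.1.2.1 0 / q.1.2.1 2) * (1 - q.1.2.2 * (q.1.2.1 0 / q.1.2.1 2) ^ 2) =
      (q.1.2.1 1 / q.1.2.1 2) ^ 3 := by
  have := q.2.2
  field_simp
  linear_combination this

theorem D2_cube {q : PP} (h2 : q.1.2.1 2 ≠ 0)
    (h : ‖q.1.2.2‖ * ‖q.1.2.1 0‖ ^ 2 < ‖q.1.2.1 2‖ ^ 2) :
    (q.1.2.1 1 / q.1.2.1 2 / cb (1 - q.1.2.2 * (q.1.2.1 0 / q.1.2.1 2) ^ 2)) ^ 3 =
      q.1.2.1 0 / q.1.2.1 2 := by
  have h3 := slitPlane_ne_zero (D2_slit h2 h)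
  rw [div_pow, cb_cube, ← D2_rel h2]
  rw [mul_div_assoc, div_self h3, mul_one]

/-- the second family of charts -/
def chart2 (u0 : ℂ) : LocalParam 3 XX where
  V := V2 u0
  a := fun v => v 2
  φ := fun v => Psi (v 0) (w2 v)
  isOpen_V := isOpen_V2 u0
  holo_a := by fun_prop
  holo_φ := fun v hv => (hasFDerivAt_Psi (diff_w2 hv.2)).differentiableAt.differentiableWithinAt
  φ_ne := fun v _ => Psi_ne (w2_ne v) _
  mem := fun v _ => ⟨psi2 v, rfl⟩
  openEmbedding := by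
    refine openEmb (isOpen_V2 u0) (fun v : V2 u0 => psi2 v)
      ?_ u0 (fun v => v.2.1) {q : PP | q.1.2.1 2 ≠ 0 ∧
        ‖q.1.2.2‖ * ‖q.1.2.1 0‖ ^ 2 < ‖q.1.2.1 2‖ ^ 2} ?_
      (fun q => ![q.1.1.1, q.1.1.2.1 1 / q.1.1.2.1 2 /
        cb (1 - q.1.1.2.2 * (q.1.1.2.1 0 / q.1.1.2.1 2) ^ 2), q.1.1.2.2]) ?_ ?_ ?_ ?_ ?_
    · refine Continuous.subtype_mk ?_ _
      have c0 : Continuous fun v : V2 u0 => v.1 0 := (continuous_apply 0).comp continuous_subtype_val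
      have c2 : Continuous fun v : V2 u0 => v.1 2 := (continuous_apply 2).comp continuous_subtype_val
      refine Continuous.prodMk c0 (Continuous.prodMk ?_ c2)
      rw [continuous_iff_continuousAt]
      intro v
      exact ((diff_w2 v.2.2).continuousAt.comp continuous_subtype_val.continuousAt)
    · have o1 : IsOpen {q : PP | q.1.2.1 2 ≠ 0} := isOpen_ne_fun (by fun_prop) continuous_const
      have o2 : IsOpen {q : PP | ‖q.1.2.2‖ * ‖q.1.2.1 0‖ ^ 2 < ‖q.1.2.1 2‖ ^ 2} :=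
        isOpen_lt (by fun_prop) (by fun_prop)
      exact o1.inter o2
    · refine continuous_pi fun i => ?_
      fin_cases i
      · change Continuous fun q : {q : PP | q.1.2.1 2 ≠ 0 ∧
          ‖q.1.2.2‖ * ‖q.1.2.1 0‖ ^ 2 < ‖q.1.2.1 2‖ ^ 2} => q.1.1.1
        fun_prop
      · change Continuous fun q : {q : PP | q.1.2.1 2 ≠ 0 ∧
          ‖q.1.2.2‖ * ‖q.1.2.1 0‖ ^ 2 < ‖q.1.2.1 2‖ ^ 2} => q.1.1.2.1 1 / q.1.1.2.1 2 /
            cb (1 - q.1.1.2.2 * (q.1.1.2.1 0 / q.1.1.2.1 2) ^ 2)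
        refine Continuous.div (Continuous.div (by fun_prop) (by fun_prop) fun q => q.2.1) ?_
          fun q => cb_ne (D2_slit q.2.1 q.2.2)
        refine cont_cb ?_ fun q => D2_slit q.2.1 q.2.2
        refine Continuous.sub continuous_const (Continuous.mul (by fun_prop) (Continuous.pow ?_ 2))
        exact Continuous.div (by fun_prop) (by fun_prop) fun q => q.2.1
      · change Continuous fun q : {q : PP | q.1.2.1 2 ≠ 0 ∧
          ‖q.1.2.2‖ * ‖q.1.2.1 0‖ ^ 2 < ‖q.1.2.1 2‖ ^ 2} => q.1.1.2.2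
        fun_prop
    · intro v
      refine ⟨one_ne_zero, ?_⟩
      change ‖v.1 2‖ * ‖v.1 1 ^ 3‖ ^ 2 < ‖(1 : ℂ)‖ ^ 2
      rw [norm_pow, ← pow_mul, norm_one, one_pow]
      exact v.2.2
    · intro v
      funext i
      fin_cases i
      · rfl
      · change v.1 1 * cb (1 - v.1 2 * v.1 1 ^ 6) / 1 /
          cb (1 - v.1 2 * (v.1 1 ^ 3 / 1) ^ 2) = v.1 1
        rw [div_one, div_one, ← pow_mul]
        exact mul_div_cancel_right₀ _ (cb_ne (slit_of_V v.2.2))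
      · rfl
    · intro q hq
      have h0 : q.1.1.2.1 2 ≠ 0 := q.2.1
      have hcube := D2_cube q.2.1 q.2.2
      have hcb := cb_ne (D2_slit q.2.1 q.2.2)
      refine ⟨Units.mk0 _ h0, ?_⟩
      apply Subtype.ext
      refine Prod.ext ?_ (Prod.ext ?_ rfl)
      · change q.1.1.1 = q.1.1.1 + (((0 : ℤ) : ℂ) + ((0 : ℤ) : ℂ) * I)
        simp
      · change q.1.1.2.1 = (q.1.1.2.1 2) • act 0 _
        rw [act_zero]
        funext i
        fin_cases i
        · change q.1.1.2.1 0 = q.1.1.2.1 2 * (q.1.1.2.1 1 / q.1.1.2.1 2 /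
            cb (1 - q.1.1.2.2 * (q.1.1.2.1 0 / q.1.1.2.1 2) ^ 2)) ^ 3
          rw [hcube]
          field_simp
        · change q.1.1.2.1 1 = q.1.1.2.1 2 * ((q.1.1.2.1 1 / q.1.1.2.1 2 /
            cb (1 - q.1.1.2.2 * (q.1.1.2.1 0 / q.1.1.2.1 2) ^ 2)) * cb (1 - q.1.1.2.2 *
              (q.1.1.2.1 1 / q.1.1.2.1 2 /
            cb (1 - q.1.1.2.2 * (q.1.1.2.1 0 / q.1.1.2.1 2) ^ 2)) ^ 6))
          have e6 : (q.1.1.2.1 1 / q.1.1.2.1 2 /
            cb (1 - q.1.1.2.2 * (q.1.1.2.1 0 / q.1.1.2.1 2) ^ 2)) ^ 6 =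
              (q.1.1.2.1 0 / q.1.1.2.1 2) ^ 2 := by
            have e9 : ∀ t z : ℂ, t ^ 3 = z → t ^ 6 = z ^ 2 := by
              rintro t z rfl
              ring
            exact e9 _ _ hcube
          rw [e6, div_mul_cancel₀ _ hcb]
          field_simp
        · change q.1.1.2.1 2 = q.1.1.2.1 2 * 1
          ring
    · intro v v' c hc
      have e0 := congrArg (fun q : PP => q.1.1) hc
      have e1 := congrArg (fun q : PP => q.1.2.1) hc
      have e7 : v'.1 2 = v.1 2 := congrArg (fun q : PP => q.1.2.2) hc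
      change w2 v' = (c : ℂ) • act 0 (w2 v) at e1
      rw [act_zero] at e1
      have e2 : (1 : ℂ) = c * 1 := congrFun e1 2
      have e3 : v'.1 1 ^ 3 = c * v.1 1 ^ 3 := congrFun e1 0
      have e4 : v'.1 1 * cb (1 - v'.1 2 * v'.1 1 ^ 6) = c * (v.1 1 * cb (1 - v.1 2 * v.1 1 ^ 6)) :=
        congrFun e1 1
      have e5 : v'.1 0 = v.1 0 + (((0 : ℤ) : ℂ) + ((0 : ℤ) : ℂ) * I) := e0
      rw [mul_one] at e2
      rw [← e2, one_mul] at e3 e4
      have e8 : v'.1 1 ^ 6 = v.1 1 ^ 6 := by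
        have h1 : v'.1 1 ^ 6 = (v'.1 1 ^ 3) ^ 2 := by ring
        have h2 : v.1 1 ^ 6 = (v.1 1 ^ 3) ^ 2 := by ring
        rw [h1, h2, e3]
      rw [e7, e8] at e4
      apply Subtype.ext
      funext i
      fin_cases i
      · change v.1 0 = v'.1 0
        rw [e5]; simp
      · exact (mul_right_cancel₀ (cb_ne (slit_of_V v.2.2)) e4).symm
      · exact e7.symm
  immersion := by
    rintro v hv h ha ⟨c, hc⟩
    obtain ⟨h0, h1⟩ := imm_aux (diff_w2 hv.2) (i := 2) (by simp [w2]) (fun h =>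
      (fderiv_w2 hv.2 h).2.1) hc
    have h2 : h 2 = 0 := by
      have : fderiv ℂ (fun v : Fin 3 → ℂ => v 2) v h = h 2 := by
        rw [(hasFDerivAt_apply (𝕜 := ℂ) (2 : Fin 3) v).fderiv]
        rfl
      rw [← this]
      exact ha
    funext i
    fin_cases i
    · exact h0
    · change h 1 = 0
      by_cases hv1 : v 1 = 0
      · rw [← (fderiv_w2 hv.2 h).2.2 hv1, h1]
        rfl
      · have h3 := (fderiv_w2 hv.2 h).1
        rw [h1] at h3
        have h4 : 3 * v 1 ^ 2 * h 1 = 0 := h3.symm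
        exact (mul_eq_zero.mp h4).resolve_left (mul_ne_zero three_ne_zero (pow_ne_zero 2 hv1))
    · exact h2

theorem cases_XX (p : ℂ × ℙ ℂ (II → ℂ)) (hp : p ∈ XX) :
    (∃ (u0 : ℂ) (v : Fin 3 → ℂ) (hv : v ∈ (chart1 u0).V), (chart1 u0).pt v hv = p) ∨
    (∃ (u0 : ℂ) (v : Fin 3 → ℂ) (hv : v ∈ (chart2 u0).V), (chart2 u0).pt v hv = p) := by
  obtain ⟨q, rfl⟩ := hp
  by_cases h0 : q.1.2.1 0 = 0
  · right
    have h1 : q.1.2.1 1 = 0 := by
      have := q.2.2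
      rw [h0] at this
      have h3 : q.1.2.1 1 ^ 3 = 0 := by linear_combination -this
      exact pow_eq_zero_iff three_ne_zero |>.mp h3
    have h2 : q.1.2.1 2 ≠ 0 := by
      intro h2
      apply q.2.1
      funext i
      fin_cases i
      · exact h0
      · exact h1
      · exact h2
    have hv : ![q.1.1, 0, q.1.2.2] ∈ (chart2 q.1.1).V := by
      refine ⟨?_, ?_⟩
      · change ‖q.1.1 - q.1.1‖ < 1 / 2
        rw [sub_self, norm_zero]; norm_num
      · change ‖q.1.2.2‖ * ‖(0 : ℂ)‖ ^ 6 < 1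
        rw [norm_zero]; norm_num
    refine ⟨q.1.1, ![q.1.1, 0, q.1.2.2], hv, ?_⟩
    change Phi (psi2 ![q.1.1, 0, q.1.2.2]) = Phi q
    rw [← Phi_trans 0 0 (Units.mk0 _ h2) (psi2 ![q.1.1, 0, q.1.2.2])]
    congr 1
    apply Subtype.ext
    refine Prod.ext ?_ (Prod.ext ?_ rfl)
    · change q.1.1 + (((0 : ℤ) : ℂ) + ((0 : ℤ) : ℂ) * I) = q.1.1
      simp
    · change (q.1.2.1 2) • act 0 _ = q.1.2.1
      rw [act_zero]
      funext i
      fin_cases i
      · change q.1.2.1 2 * (0 : ℂ) ^ 3 = q.1.2.1 0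
        rw [h0]; ring
      · change q.1.2.1 2 * ((0 : ℂ) * _) = q.1.2.1 1
        rw [h1]; ring
      · change q.1.2.1 2 * 1 = q.1.2.1 2
        ring
  · left
    have hv : ![q.1.1, q.1.2.1 1 / q.1.2.1 0, q.1.2.1 2 / q.1.2.1 0] ∈ (chart1 q.1.1).V := by
      change ‖q.1.1 - q.1.1‖ < 1 / 2
      rw [sub_self, norm_zero]; norm_num
    refine ⟨q.1.1, _, hv, ?_⟩
    change Phi (psi1 _) = Phi q
    rw [← Phi_trans 0 0 (Units.mk0 _ h0) (psi1 _)]
    congr 1
    apply Subtype.ext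
    refine Prod.ext ?_ (Prod.ext ?_ ?_)
    · change q.1.1 + (((0 : ℤ) : ℂ) + ((0 : ℤ) : ℂ) * I) = q.1.1
      simp
    · change (q.1.2.1 0) • act 0 _ = q.1.2.1
      rw [act_zero]
      funext i
      fin_cases i
      · change q.1.2.1 0 * 1 = q.1.2.1 0
        ring
      · change q.1.2.1 0 * (q.1.2.1 1 / q.1.2.1 0) = q.1.2.1 1
        field_simp
      · change q.1.2.1 0 * (q.1.2.1 2 / q.1.2.1 0) = q.1.2.1 2
        field_simp
    · change (q.1.2.1 2 / q.1.2.1 0) ^ 2 - (q.1.2.1 1 / q.1.2.1 0) ^ 3 = q.1.2.2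
      have := q.2.2
      field_simp
      linear_combination this

theorem exists_param (p : ℂ × ℙ ℂ (II → ℂ)) (hp : p ∈ XX) :
    ∃ (P : LocalParam 3 XX) (v : Fin 3 → ℂ) (hv : v ∈ P.V), P.pt v hv = p := by
  rcases cases_XX p hp with ⟨u0, v, hv, h⟩ | ⟨u0, v, hv, h⟩
  · exact ⟨chart1 u0, v, hv, h⟩
  · exact ⟨chart2 u0, v, hv, h⟩

theorem XX_submanifold : IsClosedSubmanifold 3 XX := ⟨isClosed_XX, exists_param⟩

end

end Pool.Agent.Y199.Bi
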