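import Pool.Agent.Helper922.HB.MV

/-! Comparison of Mayer-Vietoris sequences, and consequences. -/

set_option autoImplicit false

namespace Pool.Agent.Y199.Bi

open Pool.Agent.Helper922.HB

universe u v w

section comparison

variable {X : Type u} [TopologicalSpace X] {Y : Type v} [TopologicalSpace Y]

theorem Cyc_of_Bdy {X : Type u} [TopologicalSpace X] {n : ℕ} {z : Sing X n →₀ ℤ}
    (h : z ∈ Bdy X n) : z ∈ Cyc X n := Bdy_le_Cyc n h

/-- the restriction of a map to a preimage -/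
def rp (f : C(X, Y)) (U : Set Y) : C(↥(f ⁻¹' U), U) := f.restrictPreimage U

/-- the restriction of a map to the preimage of an intersection -/
def rpI (f : C(X, Y)) (U V : Set Y) : C(↥(f ⁻¹' U ∩ f ⁻¹' V), ↥(U ∩ V)) :=
  ⟨fun x => ⟨f x, x.2⟩, by fun_prop⟩

theorem rp_sub (f : C(X, Y)) (U : Set Y) (n : ℕ) (z : Sing ↥(f ⁻¹' U) n →₀ ℤ) :
    push (sub U) n (push (rp f U) n z) = push f n (push (sub (f ⁻¹' U)) n z) := by
  rw [push_push, push_push]; rfl

theorem rp_inl (f : C(X, Y)) (U V : Set Y) (n : ℕ) (z : Sing ↥(f ⁻¹' U ∩ f ⁻¹' V) n →₀ ℤ) :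
    push (inl U V) n (push (rpI f U V) n z) =
      push (rp f U) n (push (inl (f ⁻¹' U) (f ⁻¹' V)) n z) := by
  rw [push_push, push_push]; rfl

theorem rp_inr (f : C(X, Y)) (U V : Set Y) (n : ℕ) (z : Sing ↥(f ⁻¹' U ∩ f ⁻¹' V) n →₀ ℤ) :
    push (inr U V) n (push (rpI f U V) n z) =
      push (rp f V) n (push (inr (f ⁻¹' U) (f ⁻¹' V)) n z) := by
  rw [push_push, push_push]; rfl

/-- If `push f` of `z` is a cycle class zero... the injectivity step. -/
theorem cmp_inj (f : C(X, Y)) (U V : Set Y) (hU : IsOpen U) (hV : IsOpen V)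
    (hUV : ∀ y, y ∈ U ∨ y ∈ V) (hfU : HE (rp f U)) (hfV : HE (rp f V)) (hfI : HE (rpI f U V))
    (n : ℕ) (u : Sing ↥(f ⁻¹' U) n →₀ ℤ) (v : Sing ↥(f ⁻¹' V) n →₀ ℤ)
    (hu : u ∈ Cyc _ n) (hv : v ∈ Cyc _ n)
    (h : push f n (push (sub (f ⁻¹' U)) n u + push (sub (f ⁻¹' V)) n v) ∈ Bdy Y n) :
    push (sub (f ⁻¹' U)) n u + push (sub (f ⁻¹' V)) n v ∈ Bdy X n := by
  rw [map_add, ← rp_sub, ← rp_sub] at h
  obtain ⟨d', hd', h1, h2⟩ := mv_inj U V hU hV hUV n _ _ (push_mem_Cyc (rp f U) n u hu)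
    (push_mem_Cyc (rp f V) n v hv) h
  obtain ⟨d, hd, h3⟩ := (hfI n).2 d' hd'
  have h4 : push (rp f U) n (u - push (inl (f ⁻¹' U) (f ⁻¹' V)) n d) ∈ Bdy U n := by
    rw [map_sub, ← rp_inl]
    have h5 := push_mem_Bdy (inl U V) n _ h3
    rw [map_sub] at h5
    have h6 := (Bdy U n).add_mem h1 h5
    rwa [sub_add_sub_cancel] at h6
  have h5 : push (rp f V) n (v + push (inr (f ⁻¹' U) (f ⁻¹' V)) n d) ∈ Bdy V n := by
    rw [map_add, ← rp_inr]
    have h5 := push_mem_Bdy (inr U V) n _ h3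
    rw [map_sub] at h5
    have h6 := (Bdy V n).sub_mem h2 h5
    have h7 : push (rp f V) n v + push (inr U V) n d' -
        (push (inr U V) n d' - push (inr U V) n (push (rpI f U V) n d)) =
        push (rp f V) n v + push (inr U V) n (push (rpI f U V) n d) := by abel
    rwa [h7] at h6
  have h6 := (hfU n).1 _ ((Cyc _ n).sub_mem hu (push_mem_Cyc (inl _ _) n d hd)) h4
  have h7 := (hfV n).1 _ ((Cyc _ n).add_mem hv (push_mem_Cyc (inr _ _) n d hd)) h5
  have h8 := (Bdy X n).add_mem (push_mem_Bdy (sub _) n _ h6) (push_mem_Bdy (sub _) n _ h7)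
  rw [map_sub, map_add] at h8
  have h9 : push (sub (f ⁻¹' U)) n (push (inl (f ⁻¹' U) (f ⁻¹' V)) n d) =
      push (sub (f ⁻¹' V)) n (push (inr (f ⁻¹' U) (f ⁻¹' V)) n d) := by
    rw [mvx_push_inl, mvx_push_inr]
  rw [h9] at h8
  have h10 : ∀ a b c : Sing X n →₀ ℤ, a - c + (b + c) = a + b := fun a b c => by abel
  rwa [h10] at h8

theorem HE_of_cover (f : C(X, Y)) (U V : Set Y) (hU : IsOpen U) (hV : IsOpen V)
    (hUV : ∀ y, y ∈ U ∨ y ∈ V) (hfU : HE (rp f U)) (hfV : HE (rp f V))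
    (hfI : HE (rpI f U V)) : HE f := by
  have hU' : IsOpen (f ⁻¹' U) := hU.preimage f.continuous
  have hV' : IsOpen (f ⁻¹' V) := hV.preimage f.continuous
  have hUV' : ∀ x, x ∈ f ⁻¹' U ∨ x ∈ f ⁻¹' V := fun x => hUV (f x)
  intro n
  constructor
  · intro z hz hfz
    cases n with
    | zero =>
      obtain ⟨u, v, rfl⟩ := mv_zero (f ⁻¹' U) (f ⁻¹' V) hUV' z
      exact cmp_inj f U V hU hV hUV hfU hfV hfI 0 u v Submodule.mem_top Submodule.mem_top hfz
    | succ n =>
      obtain ⟨u, v, d, hd, hs, hbu, hbv⟩ := mv_split (f ⁻¹' U) (f ⁻¹' V) hU' hV' hUV' n z hz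
      have h1 : push f (n + 1) (push (sub (f ⁻¹' U)) (n + 1) u + push (sub (f ⁻¹' V)) (n + 1) v) ∈
          Bdy Y (n + 1) := by
        have h2 := push_mem_Bdy f (n + 1) _ hs
        rw [map_sub] at h2
        have h3 := (Bdy Y (n + 1)).sub_mem hfz h2
        rwa [sub_sub_cancel] at h3
      have h2 : push (rpI f U V) n d ∈ Bdy _ n := by
        refine mv_conn U V hU hV hUV n (push (rp f U) (n + 1) u) (push (rp f V) (n + 1) v) _
          ?_ ?_ ?_
        · rw [bdry_push, hbu, rp_inl]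
        · rw [bdry_push, hbv, map_neg, rp_inr]
        · rw [rp_sub, rp_sub, ← map_add]; exact h1
      obtain ⟨e, he⟩ := (hfI n).1 d hd h2
      set u' := u - push (inl (f ⁻¹' U) (f ⁻¹' V)) (n + 1) e with hu'
      set v' := v + push (inr (f ⁻¹' U) (f ⁻¹' V)) (n + 1) e with hv'
      have hcu : u' ∈ Cyc _ (n + 1) := by
        change bdry _ n u' = 0
        rw [hu', map_sub, hbu, bdry_push]
        erw [he]
        rw [sub_self]
      have hcv : v' ∈ Cyc _ (n + 1) := by
        change bdry _ n v' = 0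
        rw [hv', map_add, hbv, bdry_push]
        erw [he]
        rw [neg_add_cancel]
      have hsum : push (sub (f ⁻¹' U)) (n + 1) u + push (sub (f ⁻¹' V)) (n + 1) v =
          push (sub (f ⁻¹' U)) (n + 1) u' + push (sub (f ⁻¹' V)) (n + 1) v' := by
        rw [hu', hv', map_sub, map_add, mvx_push_inl, mvx_push_inr]
        abel
      have h3 := cmp_inj f U V hU hV hUV hfU hfV hfI (n + 1) u' v' hcu hcv (by
        rw [← hsum]; exact h1)
      rw [← hsum] at h3
      have h4 := (Bdy X (n + 1)).add_mem hs h3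
      rwa [sub_add_cancel] at h4
  · intro b hb
    cases n with
    | zero =>
      obtain ⟨u', v', rfl⟩ := mv_zero U V hUV b
      obtain ⟨u, hu, h1⟩ := (hfU 0).2 u' Submodule.mem_top
      obtain ⟨v, hv, h2⟩ := (hfV 0).2 v' Submodule.mem_top
      refine ⟨push (sub _) 0 u + push (sub _) 0 v, Submodule.mem_top, ?_⟩
      rw [map_add, ← rp_sub, ← rp_sub]
      have h3 := (Bdy Y 0).add_mem (push_mem_Bdy (sub U) 0 _ h1) (push_mem_Bdy (sub V) 0 _ h2)
      rw [map_sub, map_sub] at h3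
      have h10 : ∀ a b c d : Sing Y 0 →₀ ℤ, a - c + (b - d) = a + b - (c + d) :=
        fun a b c d => by abel
      rwa [h10] at h3
    | succ n =>
      obtain ⟨u', v', d', hd', hs, hbu, hbv⟩ := mv_split U V hU hV hUV n b hb
      obtain ⟨d, hd, e', he'⟩ := (hfI n).2 d' hd'
      -- the pushed chains bound
      have h1 : push (rp f U) n (push (inl (f ⁻¹' U) (f ⁻¹' V)) n d) ∈ Bdy U n := by
        refine ⟨u' - push (inl U V) (n + 1) e', ?_⟩
        rw [map_sub, hbu, bdry_push, he', map_sub, rp_inl]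
        abel
      have h2 : push (rp f V) n (push (inr (f ⁻¹' U) (f ⁻¹' V)) n d) ∈ Bdy V n := by
        refine ⟨-v' - push (inr U V) (n + 1) e', ?_⟩
        rw [map_sub, map_neg, hbv, bdry_push, he', map_sub, rp_inr]
        abel
      obtain ⟨u, hu⟩ := (hfU n).1 _ (push_mem_Cyc (inl _ _) n d hd) h1
      obtain ⟨v, hv⟩ := (hfV n).1 _ (push_mem_Cyc (inr _ _) n d hd) h2
      set z := push (sub (f ⁻¹' U)) (n + 1) u - push (sub (f ⁻¹' V)) (n + 1) v with hz
      have hcz : z ∈ Cyc X (n + 1) := by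
        change bdry X n z = 0
        rw [hz, map_sub, bdry_push, bdry_push, hu, hv, mvx_push_inl, mvx_push_inr, sub_self]
      -- correct
      set a := u' - push (inl U V) (n + 1) e' - push (rp f U) (n + 1) u with ha
      set c := v' + push (inr U V) (n + 1) e' + push (rp f V) (n + 1) v with hc
      have hca : a ∈ Cyc U (n + 1) := by
        change bdry U n a = 0
        rw [ha, map_sub, map_sub, hbu, bdry_push, bdry_push, he', map_sub, hu, rp_inl]
        abel
      have hcc : c ∈ Cyc V (n + 1) := by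
        change bdry V n c = 0
        rw [hc, map_add, map_add, hbv, bdry_push, bdry_push, he', map_sub, hv, rp_inr]
        abel
      obtain ⟨a₁, ha₁, h3⟩ := (hfU (n + 1)).2 a hca
      obtain ⟨c₁, hc₁, h4⟩ := (hfV (n + 1)).2 c hcc
      refine ⟨z + (push (sub _) (n + 1) a₁ + push (sub _) (n + 1) c₁),
        (Cyc X (n + 1)).add_mem hcz ((Cyc X (n + 1)).add_mem (push_mem_Cyc _ _ _ ha₁)
          (push_mem_Cyc _ _ _ hc₁)), ?_⟩
      have h5 := (Bdy Y (n + 1)).add_mem (push_mem_Bdy (sub U) (n + 1) _ h3)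
        (push_mem_Bdy (sub V) (n + 1) _ h4)
      have h6 := (Bdy Y (n + 1)).add_mem hs h5
      have h7 : b - (push (sub U) (n + 1) u' + push (sub V) (n + 1) v') +
          (push (sub U) (n + 1) (a - push (rp f U) (n + 1) a₁) +
            push (sub V) (n + 1) (c - push (rp f V) (n + 1) c₁)) =
          b - push f (n + 1) (z + (push (sub (f ⁻¹' U)) (n + 1) a₁ +
            push (sub (f ⁻¹' V)) (n + 1) c₁)) := by
        rw [ha, hc, hz]
        simp only [map_sub, map_add, rp_sub, mvx_push_inl, mvx_push_inr]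
        abel
      rwa [h7] at h6

end comparison

end Pool.Agent.Y199.Bi
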