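import Pool.Agent.Y199.Bi.Ts2

/-! The part near infinity. -/

set_option autoImplicit false

namespace Pool.Agent.Y199.Bi

open Pool.Agent.Helper922.HB Complex

universe u

variable (A : Type u) [TopologicalSpace A]

/-- the neighbourhood of infinity -/
def NN : Set (A × Circle × ℂ × ℂ) := {p | ‖p.2.2.2‖ * ‖p.2.2.1‖ ^ 6 < 1}

/-- the punctured neighbourhood of infinity -/
def NP : Set (A × Circle × ℂ × ℂ) := {p | ‖p.2.2.2‖ * ‖p.2.2.1‖ ^ 6 < 1 ∧ p.2.2.1 ≠ 0}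

theorem NN_HE (s : ℂ) : HE (sub {m : NN A | m.1.2.2.2 = s}) := by
  have hmem : ∀ (a : A) (w : Circle) (v s' : ℂ) (c d : ℝ), 0 ≤ c → c ≤ 1 → 0 ≤ d → d ≤ 1 →
      (a, w, v, s') ∈ NN A → ((a, w, (c : ℂ) * v, (d : ℂ) * s') : A × Circle × ℂ × ℂ) ∈ NN A := by
    intro a w v s' c d hc hc1 hd hd1 h
    have h : ‖s'‖ * ‖v‖ ^ 6 < 1 := h
    change ‖(d : ℂ) * s'‖ * ‖(c : ℂ) * v‖ ^ 6 < 1
    rw [norm_mul, norm_mul, norm_real, norm_real, Real.norm_of_nonneg hc, Real.norm_of_nonneg hd,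
      mul_pow]
    have h1 : d * c ^ 6 ≤ 1 := mul_le_one₀ hd1 (by positivity) (pow_le_one₀ hc hc1)
    have h2 : d * ‖s'‖ * (c ^ 6 * ‖v‖ ^ 6) = (d * c ^ 6) * (‖s'‖ * ‖v‖ ^ 6) := by ring
    rw [h2]
    calc (d * c ^ 6) * (‖s'‖ * ‖v‖ ^ 6) ≤ 1 * (‖s'‖ * ‖v‖ ^ 6) :=
          mul_le_mul_of_nonneg_right h1 (by positivity)
      _ < 1 := by rw [one_mul]; exact h
  have hI : ∀ t : unitInterval, (0 : ℝ) ≤ 1 - t ∧ (1 - t : ℝ) ≤ 1 := fun t =>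
    ⟨by have := t.2.2; linarith, by have := t.2.1; linarith⟩
  have h1 : HE (⟨fun p => (p.1.1, p.1.2.1), by fun_prop⟩ : C(NN A, A × Circle)) := by
    refine HE_of_homotopyEquiv _ ⟨fun q => ⟨(q.1, q.2, 0, 0), by simp [NN]⟩, by fun_prop⟩
      ⟨fun q => ⟨(q.1.1.1, q.1.1.2.1, ((1 - (q.2 : ℝ) : ℝ) : ℂ) * q.1.1.2.2.1,
        ((1 - (q.2 : ℝ) : ℝ) : ℂ) * q.1.1.2.2.2), hmem _ _ _ _ _ _ (hI q.2).1 (hI q.2).2
          (hI q.2).1 (hI q.2).2 q.1.2⟩, by fun_prop⟩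
      ⟨Prod.fst, continuous_fst⟩ ?_ ?_ ?_ ?_
    · intro x; apply Subtype.ext; simp
    · intro x; apply Subtype.ext; simp
    · intro y; rfl
    · intro y; rfl
  refine HE.of_comp_left h1 ?_
  refine HE_of_homotopyEquiv _ ⟨fun q => ⟨⟨(q.1, q.2, 0, s), by simp [NN]⟩, rfl⟩, by fun_prop⟩
    ⟨fun q => ⟨⟨(q.1.1.1.1, q.1.1.1.2.1, ((1 - (q.2 : ℝ) : ℝ) : ℂ) * q.1.1.1.2.2.1, s), ?_⟩, rfl⟩,
      ?_⟩ ⟨Prod.fst, continuous_fst⟩ ?_ ?_ ?_ ?_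
  · have h2 := hmem _ _ _ _ _ 1 (hI q.2).1 (hI q.2).2 zero_le_one le_rfl q.1.1.2
    have h3 : q.1.1.1.2.2.2 = s := q.1.2
    rw [h3, ofReal_one, one_mul] at h2
    exact h2
  · refine Continuous.subtype_mk (Continuous.subtype_mk ?_ _) _
    fun_prop
  · intro x
    have h3 : x.1.1.2.2.2 = s := x.2
    apply Subtype.ext; apply Subtype.ext
    refine Prod.ext rfl (Prod.ext rfl (Prod.ext ?_ h3.symm))
    simp
  · intro x
    apply Subtype.ext; apply Subtype.ext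
    refine Prod.ext rfl (Prod.ext rfl (Prod.ext ?_ rfl))
    simp
  · intro y; rfl
  · intro y; rfl

theorem ph_mem {v : ℂ} (hv : v ≠ 0) : v / ‖v‖ ∈ Submonoid.unitSphere ℂ := by
  apply mem_sphere_zero_iff_norm.mpr
  rw [norm_div, norm_real, norm_norm, div_self (norm_pos_iff.mpr hv).ne']

/-- the phase of the third coordinate -/
noncomputable def phN (p : NP A) : Circle := ⟨p.1.2.2.1 / ‖p.1.2.2.1‖, ph_mem p.2.2⟩

theorem phN_mul (p : NP A) : (phN A p : ℂ) * ‖p.1.2.2.1‖ = p.1.2.2.1 := by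
  change p.1.2.2.1 / ‖p.1.2.2.1‖ * ‖p.1.2.2.1‖ = p.1.2.2.1
  have : ((‖p.1.2.2.1‖ : ℝ) : ℂ) ≠ 0 := by exact_mod_cast (norm_pos_iff.mpr p.2.2).ne'
  field_simp

theorem cont_phN : Continuous (phN A) := by
  refine Continuous.subtype_mk ?_ _
  refine Continuous.div (by fun_prop) (by fun_prop) fun p => ?_
  exact_mod_cast (norm_pos_iff.mpr p.2.2).ne'

theorem NP_HE (s : ℂ) : HE (sub {m : NP A | m.1.2.2.2 = s}) := by
  have hI : ∀ t : unitInterval, (0 : ℝ) ≤ 1 - t ∧ (1 - t : ℝ) ≤ 1 := fun t =>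
    ⟨by have := t.2.2; linarith, by have := t.2.1; linarith⟩
  have hpos : ∀ p : NP A, 0 < ‖p.1.2.2.1‖ := fun p => norm_pos_iff.mpr p.2.2
  -- the interpolated modulus
  have hr : ∀ (ρ : ℝ) (_ : 0 < ρ) (r : ℝ) (_ : 0 < r) (t : unitInterval),
      0 < (1 - (t : ℝ)) * r + t * ρ := by
    intro ρ hρ r hr t
    have h0 := t.2.1
    have h1 := (hI t).1
    by_cases ht : (t : ℝ) = 0
    · rw [ht]; simpa using hr
    · have : (0 : ℝ) < t := lt_of_le_of_ne h0 (Ne.symm ht)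
      have h2 := mul_pos this hρ
      have h3 := mul_nonneg h1 hr.le
      linarith
  have h1 : HE (⟨fun p => (p.1.1, p.1.2.1, phN A p),
      Continuous.prodMk (by fun_prop) (Continuous.prodMk (by fun_prop) (cont_phN A))⟩ :
      C(NP A, A × Circle × Circle)) := by
    let R : NP A × unitInterval → ℝ := fun q => (1 - (q.2 : ℝ)) * ‖q.1.1.2.2.1‖ + q.2 * 1
    have hR : ∀ q, 0 < R q := fun q => hr 1 one_pos _ (hpos q.1) q.2
    have hRc : Continuous R := by fun_prop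
    have hR0 : ∀ q, ((R q : ℝ) : ℂ) ≠ 0 := fun q => by exact_mod_cast (hR q).ne'
    refine HE_of_homotopyEquiv _ ⟨fun q => ⟨(q.1, q.2.1, (q.2.2 : ℂ), 0), by simp [NP]⟩, by
        fun_prop⟩
      ⟨fun q => ⟨(q.1.1.1, q.1.1.2.1, (phN A q.1 : ℂ) * (R q : ℝ),
        ((1 - (q.2 : ℝ) : ℝ) : ℂ) * q.1.1.2.2.2 * ((‖q.1.1.2.2.1‖ : ℝ) : ℂ) ^ 6 /
          ((R q : ℝ) : ℂ) ^ 6), ?_⟩, ?_⟩
      ⟨Prod.fst, continuous_fst⟩ ?_ ?_ ?_ ?_
    · constructor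
      · change ‖((1 - (q.2 : ℝ) : ℝ) : ℂ) * q.1.1.2.2.2 * ((‖q.1.1.2.2.1‖ : ℝ) : ℂ) ^ 6 /
          ((R q : ℝ) : ℂ) ^ 6‖ * ‖(phN A q.1 : ℂ) * (R q : ℝ)‖ ^ 6 < 1
        rw [norm_div, norm_mul, norm_mul, norm_mul, Circle.norm_coe, one_mul, norm_pow, norm_pow,
          norm_real, norm_real, norm_real, norm_norm, Real.norm_of_nonneg (hR q).le,
          Real.norm_of_nonneg (hI q.2).1, div_mul_cancel₀ _ (pow_ne_zero 6 (hR q).ne')]
        have h2 : ‖q.1.1.2.2.2‖ * ‖q.1.1.2.2.1‖ ^ 6 < 1 := q.1.2.1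
        calc (1 - (q.2 : ℝ)) * ‖q.1.1.2.2.2‖ * ‖q.1.1.2.2.1‖ ^ 6 =
            (1 - (q.2 : ℝ)) * (‖q.1.1.2.2.2‖ * ‖q.1.1.2.2.1‖ ^ 6) := by ring
          _ ≤ 1 * (‖q.1.1.2.2.2‖ * ‖q.1.1.2.2.1‖ ^ 6) :=
            mul_le_mul_of_nonneg_right (hI q.2).2 (by positivity)
          _ < 1 := by rw [one_mul]; exact h2
      · exact mul_ne_zero (Circle.coe_ne_zero _) (hR0 q)
    · refine Continuous.subtype_mk ?_ _
      have c1 : Continuous fun q : NP A × unitInterval => (phN A q.1 : ℂ) :=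
        cont_coe.comp ((cont_phN A).comp continuous_fst)
      refine Continuous.prodMk (by fun_prop) (Continuous.prodMk (by fun_prop)
        (Continuous.prodMk (c1.mul (continuous_ofReal.comp hRc)) ?_))
      exact Continuous.div (by fun_prop) ((continuous_ofReal.comp hRc).pow 6)
        fun q => pow_ne_zero 6 (hR0 q)
    · intro x
      have hx : ((‖x.1.2.2.1‖ : ℝ) : ℂ) ≠ 0 := by exact_mod_cast (hpos x).ne'
      apply Subtype.ext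
      refine Prod.ext rfl (Prod.ext rfl (Prod.ext ?_ ?_))
      · change (phN A x : ℂ) * (((1 - ((0 : unitInterval) : ℝ)) * ‖x.1.2.2.1‖ +
          ((0 : unitInterval) : ℝ) * 1 : ℝ) : ℂ) = x.1.2.2.1
        rw [Set.Icc.coe_zero, sub_zero, one_mul, zero_mul, add_zero, phN_mul]
      · change ((1 - ((0 : unitInterval) : ℝ) : ℝ) : ℂ) * x.1.2.2.2 *
          ((‖x.1.2.2.1‖ : ℝ) : ℂ) ^ 6 / (((1 - ((0 : unitInterval) : ℝ)) * ‖x.1.2.2.1‖ +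
          ((0 : unitInterval) : ℝ) * 1 : ℝ) : ℂ) ^ 6 = x.1.2.2.2
        rw [Set.Icc.coe_zero, sub_zero, one_mul, zero_mul, add_zero, ofReal_one, one_mul,
          mul_div_cancel_right₀ _ (pow_ne_zero 6 hx)]
    · intro x
      apply Subtype.ext
      refine Prod.ext rfl (Prod.ext rfl (Prod.ext ?_ ?_))
      · change (phN A x : ℂ) * (((1 - ((1 : unitInterval) : ℝ)) * ‖x.1.2.2.1‖ +
          ((1 : unitInterval) : ℝ) * 1 : ℝ) : ℂ) = phN A x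
        simp
      · change ((1 - ((1 : unitInterval) : ℝ) : ℝ) : ℂ) * x.1.2.2.2 *
          ((‖x.1.2.2.1‖ : ℝ) : ℂ) ^ 6 / (((1 - ((1 : unitInterval) : ℝ)) * ‖x.1.2.2.1‖ +
          ((1 : unitInterval) : ℝ) * 1 : ℝ) : ℂ) ^ 6 = 0
        simp
    · intro y; rfl
    · intro y
      refine Prod.ext rfl (Prod.ext rfl ?_)
      apply Circle.ext
      change (y.2.2 : ℂ) = (y.2.2 : ℂ) / ‖(y.2.2 : ℂ)‖
      rw [Circle.norm_coe, ofReal_one, div_one]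
  refine HE.of_comp_left h1 ?_
  -- the fibre
  obtain ⟨ρ, hρ, hρs⟩ : ∃ ρ : ℝ, 0 < ρ ∧ ‖s‖ * ρ ^ 6 < 1 := by
    refine ⟨1 / (1 + ‖s‖), by positivity, ?_⟩
    have h2 : (1 / (1 + ‖s‖)) ≤ 1 := by
      rw [div_le_one (by positivity)]; linarith [norm_nonneg s]
    have h3 : (1 / (1 + ‖s‖)) ^ 6 ≤ 1 / (1 + ‖s‖) := by
      calc (1 / (1 + ‖s‖)) ^ 6 = (1 / (1 + ‖s‖)) ^ 5 * (1 / (1 + ‖s‖)) := by ring
        _ ≤ 1 * (1 / (1 + ‖s‖)) := mul_le_mul_of_nonneg_right (pow_le_one₀ (by positivity) h2)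
            (by positivity)
        _ = _ := one_mul _
    calc ‖s‖ * (1 / (1 + ‖s‖)) ^ 6 ≤ ‖s‖ * (1 / (1 + ‖s‖)) :=
          mul_le_mul_of_nonneg_left h3 (norm_nonneg s)
      _ = ‖s‖ / (1 + ‖s‖) := by ring
      _ < 1 := by rw [div_lt_one (by positivity)]; linarith
  let R : {m : NP A | m.1.2.2.2 = s} × unitInterval → ℝ := fun q =>
    (1 - (q.2 : ℝ)) * ‖q.1.1.1.2.2.1‖ + q.2 * ρ
  have hR : ∀ q, 0 < R q := fun q => hr ρ hρ _ (hpos q.1.1) q.2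
  have hRc : Continuous R := by fun_prop
  have hR0 : ∀ q, ((R q : ℝ) : ℂ) ≠ 0 := fun q => by exact_mod_cast (hR q).ne'
  have hRs : ∀ q, ‖s‖ * R q ^ 6 < 1 := by
    intro q
    have h2 : ‖q.1.1.1.2.2.2‖ * ‖q.1.1.1.2.2.1‖ ^ 6 < 1 := q.1.1.2.1
    have h3 : q.1.1.1.2.2.2 = s := q.1.2
    rw [h3] at h2
    rcases le_total (‖q.1.1.1.2.2.1‖) ρ with h4 | h4
    · have h5 : R q ≤ ρ := by
        have : (1 - (q.2 : ℝ)) * ‖q.1.1.1.2.2.1‖ ≤ (1 - (q.2 : ℝ)) * ρ :=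
          mul_le_mul_of_nonneg_left h4 (hI q.2).1
        simp only [R]; linarith
      exact lt_of_le_of_lt (mul_le_mul_of_nonneg_left (pow_le_pow_left₀ (hR q).le h5 6)
        (norm_nonneg s)) hρs
    · have h5 : R q ≤ ‖q.1.1.1.2.2.1‖ := by
        have : (q.2 : ℝ) * ρ ≤ (q.2 : ℝ) * ‖q.1.1.1.2.2.1‖ :=
          mul_le_mul_of_nonneg_left h4 q.2.2.1
        simp only [R]; linarith
      exact lt_of_le_of_lt (mul_le_mul_of_nonneg_left (pow_le_pow_left₀ (hR q).le h5 6)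
        (norm_nonneg s)) h2
  refine HE_of_homotopyEquiv _ ⟨fun q => ⟨⟨(q.1, q.2.1, (q.2.2 : ℂ) * (ρ : ℝ), s), ?_⟩, rfl⟩, ?_⟩
    ⟨fun q => ⟨⟨(q.1.1.1.1, q.1.1.1.2.1, (phN A q.1.1 : ℂ) * (R q : ℝ), s), ?_⟩, rfl⟩, ?_⟩
    ⟨Prod.fst, continuous_fst⟩ ?_ ?_ ?_ ?_
  · constructor
    · change ‖s‖ * ‖(q.2.2 : ℂ) * (ρ : ℝ)‖ ^ 6 < 1
      rw [norm_mul, Circle.norm_coe, one_mul, norm_real, Real.norm_of_nonneg hρ.le]
      exact hρs
    · exact mul_ne_zero (Circle.coe_ne_zero _) (by exact_mod_cast hρ.ne')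
  · refine Continuous.subtype_mk (Continuous.subtype_mk ?_ _) _
    fun_prop
  · constructor
    · change ‖s‖ * ‖(phN A q.1.1 : ℂ) * (R q : ℝ)‖ ^ 6 < 1
      rw [norm_mul, Circle.norm_coe, one_mul, norm_real, Real.norm_of_nonneg (hR q).le]
      exact hRs q
    · exact mul_ne_zero (Circle.coe_ne_zero _) (hR0 q)
  · refine Continuous.subtype_mk (Continuous.subtype_mk ?_ _) _
    have c1 : Continuous fun q : {m : NP A | m.1.2.2.2 = s} × unitInterval =>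
        (phN A q.1.1 : ℂ) := cont_coe.comp ((cont_phN A).comp (by fun_prop))
    exact Continuous.prodMk (by fun_prop) (Continuous.prodMk (by fun_prop)
      (Continuous.prodMk (c1.mul (continuous_ofReal.comp hRc)) continuous_const))
  · intro x
    have h3 : x.1.1.2.2.2 = s := x.2
    apply Subtype.ext; apply Subtype.ext
    refine Prod.ext rfl (Prod.ext rfl (Prod.ext ?_ h3.symm))
    change (phN A x.1 : ℂ) * (((1 - ((0 : unitInterval) : ℝ)) * ‖x.1.1.2.2.1‖ +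
          ((0 : unitInterval) : ℝ) * ρ : ℝ) : ℂ) = x.1.1.2.2.1
    rw [Set.Icc.coe_zero, sub_zero, one_mul, zero_mul, add_zero, phN_mul]
  · intro x
    apply Subtype.ext; apply Subtype.ext
    refine Prod.ext rfl (Prod.ext rfl (Prod.ext ?_ rfl))
    change (phN A x.1 : ℂ) * (((1 - ((1 : unitInterval) : ℝ)) * ‖x.1.1.2.2.1‖ +
          ((1 : unitInterval) : ℝ) * ρ : ℝ) : ℂ) = (phN A x.1 : ℂ) * (ρ : ℝ)
    simp
  · intro y; rfl
  · intro y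
    refine Prod.ext rfl (Prod.ext rfl ?_)
    apply Circle.ext
    change (y.2.2 : ℂ) = ((y.2.2 : ℂ) * (ρ : ℝ)) / ‖(y.2.2 : ℂ) * (ρ : ℝ)‖
    rw [norm_mul, Circle.norm_coe, one_mul, norm_real, Real.norm_of_nonneg hρ.le]
    have : ((ρ : ℝ) : ℂ) ≠ 0 := by exact_mod_cast hρ.ne'
    field_simp

end Pool.Agent.Y199.Bi
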