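import Pool.Agent.H667R3.W7

/-! Projective embedding of the square elliptic curve by sigma functions, with characters. -/

set_option autoImplicit false

open scoped PeriodPair

namespace Pool.Agent.Y199.Bi

open H667R3 Complex

noncomputable section

/-- the square lattice -/
def LL : PeriodPair := sq 1 one_ne_zero

theorem mem_LL {x : ℂ} : x ∈ LL.lattice ↔ ∃ m n : ℤ, (m : ℂ) + n * I = x := by
  rw [LL, mem_sq]
  simp

/-- a point off the lattice -/
def w0 : ℂ := LL.ω₁ / 2

theorem w0_notMem : w0 ∉ LL.lattice := LL.ω₁_div_two_notMem_lattice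

/-- sigma function of the square lattice -/
def sg (u : ℂ) : ℂ := sigma LL u

theorem sg_zero_iff {u : ℂ} : sg u = 0 ↔ u ∈ LL.lattice := sigma_eq_zero_iff LL

theorem sg_diff : Differentiable ℂ sg := differentiable_sigma LL

/-- the basic embedding -/
def E0 (u : ℂ) : Fin 4 → ℂ :=
  ![sg u ^ 4, sg u ^ 2 * (sg (u + w0) * sg (u - w0)), (sg (u + w0) * sg (u - w0)) ^ 2, sg (2 * u)]

theorem sg_two {u : ℂ} (hu : u ∉ LL.lattice) : sg (2 * u) = -(sg u ^ 4 * ℘'[LL] u) := by
  have h1 := wp'_eq LL hu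
  have h2 : sigma LL u ≠ 0 := sigma_ne_zero LL hu
  rw [h1, sg, sg]
  field_simp

theorem two_mem {z : ℂ} (hz : z ∈ LL.lattice) : 2 * z ∈ LL.lattice := by
  rw [two_mul]; exact add_mem hz hz

theorem E0_add {l : ℂ} (hl : l ∈ LL.lattice) :
    ∃ C : ℂ, C ≠ 0 ∧ ∀ u, E0 (u + l) = (C * exp (4 * eta LL l * u)) • E0 u := by
  obtain ⟨C, hC, h⟩ := sigma_add_coe LL hl
  have h : ∀ z, sg (z + l) = C * exp (eta LL l * z) * sg z := h
  refine ⟨C ^ 4, pow_ne_zero 4 hC, fun u => ?_⟩
  have e1 : sg (u + l + w0) = C * exp (eta LL l * (u + w0)) * sg (u + w0) := by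
    rw [← h]; ring_nf
  have e2 : sg (u + l - w0) = C * exp (eta LL l * (u - w0)) * sg (u - w0) := by
    rw [← h]; ring_nf
  have e3 : exp (eta LL l * (u + w0)) * exp (eta LL l * (u - w0)) = exp (eta LL l * u) ^ 2 := by
    rw [← exp_add, ← exp_nat_mul]; congr 1; push_cast; ring
  have e4 : exp (4 * eta LL l * u) = exp (eta LL l * u) ^ 4 := by
    rw [← exp_nat_mul]; congr 1; push_cast; ring
  have e5 : sg (2 * (u + l)) = C ^ 4 * exp (4 * eta LL l * u) * sg (2 * u) := by
    by_cases hu : u ∈ LL.lattice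
    · have h1 : 2 * u ∈ LL.lattice := two_mem hu
      have h2 : 2 * (u + l) ∈ LL.lattice := two_mem (add_mem hu hl)
      rw [sg_zero_iff.mpr h1, sg_zero_iff.mpr h2, mul_zero]
    · have hu' : u + l ∉ LL.lattice := fun hc => hu ((add_mem_iff LL hl).mp hc)
      rw [sg_two hu, sg_two hu', h u, LL.derivWeierstrassP_add_coe u ⟨l, hl⟩, e4]
      ring
  funext i
  fin_cases i
  · simp only [E0, Fin.zero_eta, Matrix.cons_val_zero, Pi.smul_apply, smul_eq_mul]
    rw [h u, e4]; ring
  · simp only [E0, Fin.mk_one, Matrix.cons_val_one, Matrix.cons_val_zero, Pi.smul_apply,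
      smul_eq_mul]
    rw [h u, e1, e2, e4]
    linear_combination C ^ 4 * exp (eta LL l * u) ^ 2 * sg u ^ 2 * sg (u + w0) * sg (u - w0) * e3
  · simp only [E0, Fin.reduceFinMk, Matrix.cons_val, Pi.smul_apply, smul_eq_mul]
    rw [e1, e2, e4]
    linear_combination C ^ 4 * sg (u + w0) ^ 2 * sg (u - w0) ^ 2 *
      (exp (eta LL l * (u + w0)) * exp (eta LL l * (u - w0)) + exp (eta LL l * u) ^ 2) * e3
  · simp only [E0, Fin.reduceFinMk, Matrix.cons_val, Pi.smul_apply, smul_eq_mul]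
    exact e5

theorem E0_ne (u : ℂ) : E0 u ≠ 0 := by
  intro h
  by_cases hu : u ∈ LL.lattice
  · have h2 : (sg (u + w0) * sg (u - w0)) ^ 2 = 0 := congrFun h 2
    rw [pow_eq_zero_iff two_ne_zero, mul_eq_zero, sg_zero_iff, sg_zero_iff] at h2
    rcases h2 with h2 | h2
    · apply w0_notMem
      have := sub_mem h2 hu
      rwa [add_sub_cancel_left] at this
    · apply w0_notMem
      have := sub_mem hu h2
      rwa [sub_sub_cancel] at this
  · have h2 : sg u ^ 4 = 0 := congrFun h 0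
    rw [pow_eq_zero_iff (by norm_num), sg_zero_iff] at h2
    exact hu h2

theorem pt_inj {z w : ℂ} (hz : z ∉ LL.lattice) (hw : w ∉ LL.lattice) (h1 : ℘[LL] z = ℘[LL] w)
    (h2 : ℘'[LL] z = ℘'[LL] w) : z - w ∈ LL.lattice := by
  rcases (wp_eq_iff LL hz hw).1 h1 with h | h
  · have e : w = -z + (z + w) := by ring
    have h3 : ℘'[LL] w = -℘'[LL] z := by
      rw [e, LL.derivWeierstrassP_add_coe (-z) ⟨z + w, h⟩, LL.derivWeierstrassP_neg]
    have h4 : ℘'[LL] z = 0 := by
      rw [← h2] at h3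
      linear_combination (1 / 2 : ℂ) * h3
    have h5 : 2 * z ∈ LL.lattice := by
      by_contra hc
      exact wp'_ne_zero LL hc h4
    have e2 : z - w = 2 * z - (z + w) := by ring
    rw [e2]
    exact sub_mem h5 h
  · exact h

theorem E0_one {u : ℂ} (hu : u ∉ LL.lattice) :
    sg u ^ 2 * (sg (u + w0) * sg (u - w0)) = -(sg u ^ 4 * sg w0 ^ 2 * (℘[LL] u - ℘[LL] w0)) := by
  have h := wp_sub_wp LL hu w0_notMem
  have h1 : sigma LL u ≠ 0 := sigma_ne_zero LL hu
  have h2 : sigma LL w0 ≠ 0 := sigma_ne_zero LL w0_notMem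
  rw [h]
  simp only [sg]
  field_simp

theorem E0_inj {u v c : ℂ} (h : E0 u = c • E0 v) : u - v ∈ LL.lattice := by
  have hc : c ≠ 0 := by
    rintro rfl
    rw [zero_smul] at h
    exact E0_ne u h
  have h0 : sg u ^ 4 = c * sg v ^ 4 := congrFun h 0
  have h1 : sg u ^ 2 * (sg (u + w0) * sg (u - w0)) =
      c * (sg v ^ 2 * (sg (v + w0) * sg (v - w0))) := congrFun h 1
  have h3 : sg (2 * u) = c * sg (2 * v) := congrFun h 3
  by_cases hu : u ∈ LL.lattice
  · have hv : v ∈ LL.lattice := by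
      rw [sg_zero_iff.mpr hu, zero_pow (by norm_num)] at h0
      have := (mul_eq_zero.mp h0.symm).resolve_left hc
      rwa [pow_eq_zero_iff (by norm_num), sg_zero_iff] at this
    exact sub_mem hu hv
  · have hu0 : sg u ≠ 0 := fun hh => hu (sg_zero_iff.mp hh)
    have hv : v ∉ LL.lattice := by
      intro hv
      rw [sg_zero_iff.mpr hv, zero_pow (by norm_num), mul_zero] at h0
      exact hu0 (pow_eq_zero_iff (by norm_num) |>.mp h0)
    have hv0 : sg v ≠ 0 := fun hh => hv (sg_zero_iff.mp hh)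
    have hw0 : sg w0 ≠ 0 := fun hh => w0_notMem (sg_zero_iff.mp hh)
    rw [E0_one hu, E0_one hv, h0] at h1
    rw [sg_two hu, sg_two hv, h0] at h3
    refine pt_inj hu hv ?_ ?_
    · have h4 : c * sg v ^ 4 * sg w0 ^ 2 * (℘[LL] u - ℘[LL] v) = 0 := by linear_combination -h1
      have h5 := (mul_eq_zero.mp h4).resolve_left
        (mul_ne_zero (mul_ne_zero hc (pow_ne_zero 4 hv0)) (pow_ne_zero 2 hw0))
      exact sub_eq_zero.mp h5
    · have h4 : c * sg v ^ 4 * (℘'[LL] u - ℘'[LL] v) = 0 := by linear_combination -h3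
      have h5 := (mul_eq_zero.mp h4).resolve_left (mul_ne_zero hc (pow_ne_zero 4 hv0))
      exact sub_eq_zero.mp h5

theorem deriv_sg_ne {l : ℂ} (hl : l ∈ LL.lattice) : deriv sg l ≠ 0 := by
  obtain ⟨C, hC, h⟩ := sigma_add_coe LL hl
  have h1 : HasDerivAt (fun z => sigma LL (z + l)) (deriv (sigma LL) (0 + l)) 0 :=
    (((differentiable_sigma LL) (0 + l)).hasDerivAt).comp_add_const 0 l
  have h2 : HasDerivAt (fun z => C * Complex.exp (eta LL l * z) * sigma LL z) C 0 := by
    have e1 : HasDerivAt (fun z : ℂ => C * Complex.exp (eta LL l * z))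
        (C * (Complex.exp (eta LL l * 0) * (eta LL l * 1))) 0 :=
      ((((hasDerivAt_id (0 : ℂ)).const_mul (eta LL l))).cexp).const_mul C
    have e2 : HasDerivAt (sigma LL) 1 0 := by
      have := ((differentiable_sigma LL) 0).hasDerivAt
      rwa [deriv_sigma_zero] at this
    have e3 := e1.mul e2
    refine e3.congr_deriv ?_
    rw [sigma_zero]
    simp
  have h3 : (fun z => sigma LL (z + l)) = fun z => C * Complex.exp (eta LL l * z) * sigma LL z :=
    funext h
  rw [h3] at h1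
  have := h1.unique h2
  rw [zero_add] at this
  change deriv (sigma LL) l ≠ 0
  rw [this]
  exact hC

theorem E0_diff : Differentiable ℂ E0 := by
  have h := sg_diff
  rw [differentiable_pi]
  intro i
  fin_cases i
  · change Differentiable ℂ fun u => sg u ^ 4
    fun_prop
  · change Differentiable ℂ fun u => sg u ^ 2 * (sg (u + w0) * sg (u - w0))
    fun_prop
  · change Differentiable ℂ fun u => (sg (u + w0) * sg (u - w0)) ^ 2
    fun_prop
  · change Differentiable ℂ fun u => sg (2 * u)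
    fun_prop

theorem hasDerivAt_E0 (u : ℂ) (i : Fin 4) : HasDerivAt (fun v => E0 v i) (deriv E0 u i) u :=
  (hasDerivAt_pi.mp (E0_diff u).hasDerivAt) i

theorem E0_imm (u c : ℂ) : deriv E0 u ≠ c • E0 u := by
  intro h
  have hd := hasDerivAt_E0 u
  rw [h] at hd
  by_cases hu : 2 * u ∈ LL.lattice
  · have h3 : HasDerivAt (fun v => sg (2 * v)) (c * sg (2 * u)) u := hd 3
    have h4 : HasDerivAt (fun v => sg (2 * v)) (deriv sg (2 * u) * 2) u := by
      have h5 : HasDerivAt (fun v : ℂ => 2 * v) 2 u := by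
        simpa using (hasDerivAt_id u).const_mul (2 : ℂ)
      exact (sg_diff (2 * u)).hasDerivAt.comp u h5
    have h5 := h3.unique h4
    rw [sg_zero_iff.mpr hu, mul_zero] at h5
    exact (mul_ne_zero (deriv_sg_ne hu) two_ne_zero) h5.symm
  · have hu' : u ∉ LL.lattice := fun h => hu (two_mem h)
    have hu0 : sg u ≠ 0 := fun hh => hu' (sg_zero_iff.mp hh)
    have hw0 : sg w0 ≠ 0 := fun hh => w0_notMem (sg_zero_iff.mp hh)
    have h0 : HasDerivAt (fun v => sg v ^ 4) (c * sg u ^ 4) u := hd 0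
    have h1 : HasDerivAt (fun v => sg v ^ 2 * (sg (v + w0) * sg (v - w0)))
      (c * (sg u ^ 2 * (sg (u + w0) * sg (u - w0)))) u := hd 1
    have h2 := h1.div h0 (pow_ne_zero 4 hu0)
    have h3 : HasDerivAt (fun v => -(sg w0 ^ 2 * (℘[LL] v - ℘[LL] w0)))
        (-(sg w0 ^ 2 * ℘'[LL] u)) u :=
      (((hasDerivAt_weierstrassP LL hu').sub_const _).const_mul _).neg
    have h4 : HasDerivAt (fun v => sg v ^ 2 * (sg (v + w0) * sg (v - w0)) / sg v ^ 4)
        (-(sg w0 ^ 2 * ℘'[LL] u)) u := by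
      refine h3.congr_of_eventuallyEq ?_
      filter_upwards [(isOpen_compl LL).mem_nhds hu'] with v hv
      have hv0 : sg v ≠ 0 := fun hh => hv (sg_zero_iff.mp hh)
      rw [E0_one hv]
      field_simp
    have h5 := h2.unique h4
    have h6 : ((c * (sg u ^ 2 * (sg (u + w0) * sg (u - w0)))) * sg u ^ 4 -
      (sg u ^ 2 * (sg (u + w0) * sg (u - w0))) * (c * sg u ^ 4)) / (sg u ^ 4) ^ 2 = 0 := by
      have : (c * (sg u ^ 2 * (sg (u + w0) * sg (u - w0)))) * sg u ^ 4 -
        (sg u ^ 2 * (sg (u + w0) * sg (u - w0))) * (c * sg u ^ 4) = 0 := by ring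
      rw [this, zero_div]
    rw [h6] at h5
    have h7 : sg w0 ^ 2 * ℘'[LL] u = 0 := neg_eq_zero.mp h5.symm
    exact (mul_ne_zero (pow_ne_zero 2 hw0) (wp'_ne_zero LL hu)) h7

/-- the embedding twisted by the character with parameter `t` -/
def ET (t : ℝ) (u : ℂ) : Fin 4 → ℂ := exp (-(Real.pi * I * t * u)) • E0 (u - I * t / 4)

theorem ET_diff (t : ℝ) : Differentiable ℂ (ET t) := by
  have h := E0_diff
  unfold ET
  fun_prop

theorem ET_ne (t : ℝ) (u : ℂ) : ET t u ≠ 0 := by
  intro h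
  rcases smul_eq_zero.mp h with h | h
  · exact exp_ne_zero _ h
  · exact E0_ne _ h

theorem ET_inj {t : ℝ} {u v c : ℂ} (h : ET t u = c • ET t v) :
    ∃ m n : ℤ, u - v = m + n * I := by
  have h1 : E0 (u - I * t / 4) = (exp (-(Real.pi * I * t * u)))⁻¹ • (c •
      exp (-(Real.pi * I * t * v)) • E0 (v - I * t / 4)) := by
    have h2 : ET t u = exp (-(Real.pi * I * t * u)) • E0 (u - I * t / 4) := rfl
    have h3 : ET t v = exp (-(Real.pi * I * t * v)) • E0 (v - I * t / 4) := rfl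
    rw [← h3, ← h, h2, inv_smul_smul₀ (exp_ne_zero _)]
  rw [smul_smul, smul_smul] at h1
  obtain ⟨m, n, hmn⟩ := mem_LL.mp (E0_inj h1)
  refine ⟨m, n, ?_⟩
  rw [hmn]; ring

theorem ET_imm (t : ℝ) (u c : ℂ) : deriv (ET t) u ≠ c • ET t u := by
  intro h
  have h1 : HasDerivAt (ET t) (exp (-(Real.pi * I * t * u)) • deriv E0 (u - I * t / 4) +
      (exp (-(Real.pi * I * t * u)) * (-(Real.pi * I * t))) • E0 (u - I * t / 4)) u := by
    have e1 : HasDerivAt (fun v : ℂ => exp (-(Real.pi * I * t * v)))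
        (exp (-(Real.pi * I * t * u)) * (-(Real.pi * I * t))) u := by
      have : HasDerivAt (fun v : ℂ => -(Real.pi * I * t * v)) (-(Real.pi * I * t)) u := by
        simpa using ((hasDerivAt_id u).const_mul (Real.pi * I * t : ℂ)).fun_neg
      exact this.cexp
    have e2 : HasDerivAt (fun v : ℂ => E0 (v - I * t / 4)) (deriv E0 (u - I * t / 4)) u := by
      exact (E0_diff (u - I * t / 4)).hasDerivAt.comp_sub_const u _
    exact e1.smul e2
  have h2 := h1.deriv
  rw [h] at h2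
  have hE := exp_ne_zero (-(Real.pi * I * t * u))
  apply E0_imm (u - I * t / 4) (c + Real.pi * I * t)
  have h3 : ET t u = exp (-(Real.pi * I * t * u)) • E0 (u - I * t / 4) := rfl
  rw [h3] at h2
  have h4 : exp (-(Real.pi * I * t * u)) • deriv E0 (u - I * t / 4) =
      exp (-(Real.pi * I * t * u)) • ((c + Real.pi * I * t) • E0 (u - I * t / 4)) := by
    have h5 := eq_sub_of_add_eq h2.symm
    rw [h5, smul_smul, smul_smul, ← sub_smul]
    congr 1
    ring
  exact smul_right_injective _ hE h4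

theorem eta_val (m n : ℤ) : eta LL (m + n * I) = Real.pi * (m - n * I) := by
  have h1 : (1 : ℂ) ∈ LL.lattice := mem_LL.mpr ⟨1, 0, by simp⟩
  have hI : I ∈ LL.lattice := mem_LL.mpr ⟨0, 1, by simp⟩
  have e1 : eta LL 1 = Real.pi := by
    have := legendre_sq (c := 1) (hc := one_ne_zero)
    rw [one_mul] at this
    exact this
  have e2 : eta LL I = -I * Real.pi := by
    have := eta_I_mul (L := LL) CM_sq h1
    rw [mul_one, e1] at this
    exact this
  have hm : (m : ℂ) ∈ LL.lattice := mem_LL.mpr ⟨m, 0, by simp⟩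
  have hn : (n : ℂ) * I ∈ LL.lattice := mem_LL.mpr ⟨0, n, by simp⟩
  rw [eta_add LL hm hn, eta_zsmul LL hI n, e2]
  have := eta_zsmul LL h1 m
  rw [mul_one] at this
  rw [this, e1]
  ring

theorem ET_add (m n : ℤ) : ∃ g : ℂ → ℂ, (∀ u, g u ≠ 0) ∧ ∀ (t : ℝ) (u : ℂ),
    ET t (u + (m + n * I)) = (g u * exp (-(2 * Real.pi * I * t * m))) • ET t u := by
  obtain ⟨C, hC, h⟩ := E0_add (mem_LL.mpr ⟨m, n, rfl⟩)
  refine ⟨fun u => C * exp (4 * eta LL (m + n * I) * u), fun u => mul_ne_zero hC (exp_ne_zero _),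
    fun t u => ?_⟩
  unfold ET
  have e1 : u + (m + n * I) - I * t / 4 = (u - I * t / 4) + (m + n * I) := by ring
  rw [e1, h, smul_smul, smul_smul]
  congr 1
  rw [eta_val]
  have e2 : exp (-(Real.pi * I * t * (u + (m + n * I)))) *
      (C * exp (4 * (Real.pi * (m - n * I)) * (u - I * t / 4))) =
      C * exp (-(Real.pi * I * t * (u + (m + n * I))) +
        4 * (Real.pi * (m - n * I)) * (u - I * t / 4)) := by rw [exp_add]; ring
  have e3 : C * exp (4 * (Real.pi * (m - n * I)) * u) * exp (-(2 * Real.pi * I * t * m)) *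
      exp (-(Real.pi * I * t * u)) = C * exp (4 * (Real.pi * (m - n * I)) * u +
        -(2 * Real.pi * I * t * m) + -(Real.pi * I * t * u)) := by
    rw [exp_add, exp_add]; ring
  rw [e2, e3]
  congr 2
  linear_combination (0 : ℂ) * I_sq

end

end Pool.Agent.Y199.Bi
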