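import Pool.Agent.Y199.Bi.Prj

/-! Submersivity of the projection can be tested in one local parametrisation. -/

set_option autoImplicit false

open scoped LinearAlgebra.Projectivization Topology

namespace Pool.Agent.Y199.Bi

open Pool.Agent.Helper922.HB Asymptotics Filter

noncomputable section

variable {ι : Type} [Fintype ι] {d : ℕ}

/-- affine coordinates -/
def aff (a : (Fin d → ℂ) → ℂ) (φ : (Fin d → ℂ) → ι → ℂ) (i : ι) (v : Fin d → ℂ) : ℂ × (ι → ℂ) :=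
  (a v, fun j => φ v j / φ v i)

theorem aff_diff {a : (Fin d → ℂ) → ℂ} {φ : (Fin d → ℂ) → ι → ℂ} {i : ι} {v : Fin d → ℂ}
    (ha : DifferentiableAt ℂ a v) (hφ : DifferentiableAt ℂ φ v) (hi : φ v i ≠ 0) :
    DifferentiableAt ℂ (aff a φ i) v := by
  refine DifferentiableAt.prodMk ha ?_
  rw [differentiableAt_pi]
  intro j
  have h1 : ∀ k, DifferentiableAt ℂ (fun v => φ v k) v := differentiableAt_pi.mp hφ
  have h2 : DifferentiableAt ℂ (fun v => (φ v i)⁻¹) v :=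
    DifferentiableAt.comp (g := fun z : ℂ => z⁻¹) v (differentiableAt_inv hi) (h1 i)
  have h3 : DifferentiableAt ℂ (fun v => φ v j * (φ v i)⁻¹) v := (h1 j).fun_mul h2
  simpa only [div_eq_mul_inv] using h3

theorem aff_inj {a : (Fin d → ℂ) → ℂ} {φ : (Fin d → ℂ) → ι → ℂ} {i : ι} {v : Fin d → ℂ}
    (ha : DifferentiableAt ℂ a v) (hφ : DifferentiableAt ℂ φ v) (hi : φ v i ≠ 0)
    (himm : ∀ h, fderiv ℂ a v h = 0 → (∃ c : ℂ, fderiv ℂ φ v h = c • φ v) → h = 0) :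
    LinearMap.ker (fderiv ℂ (aff a φ i) v : (Fin d → ℂ) →ₗ[ℂ] ℂ × (ι → ℂ)) = ⊥ := by
  rw [LinearMap.ker_eq_bot']
  intro h hh
  have hF := (aff_diff ha hφ hi).hasFDerivAt
  have hh' : fderiv ℂ (aff a φ i) v h = 0 := hh
  have h1 : HasFDerivAt a ((ContinuousLinearMap.fst ℂ ℂ (ι → ℂ)).comp
    (fderiv ℂ (aff a φ i) v)) v := hF.fst
  have h2 : HasFDerivAt (fun v => fun j => φ v j / φ v i) ((ContinuousLinearMap.snd ℂ ℂ (ι → ℂ)).comp
    (fderiv ℂ (aff a φ i) v)) v := hF.snd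
  have h3 := hasFDerivAt_pi'.mp h2
  have h4 := hasFDerivAt_pi'.mp hφ.hasFDerivAt
  refine himm h ?_ ⟨fderiv ℂ φ v h i / φ v i, ?_⟩
  · rw [h1.fderiv]
    change (fderiv ℂ (aff a φ i) v h).1 = 0
    rw [hh']
    rfl
  · funext j
    have h5 := (h3 j).mul (h4 i)
    have h6 : (fun v => φ v j / φ v i * φ v i) =ᶠ[𝓝 v] fun v => φ v j := by
      have hc : ContinuousAt (fun v => φ v i) v := (h4 i).continuousAt
      filter_upwards [hc.eventually_ne hi] with x hx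
      exact div_mul_cancel₀ _ hx
    have h7 := (h5.congr_of_eventuallyEq h6.symm).unique (h4 j)
    have h8 := congrArg (fun L : (Fin d → ℂ) →L[ℂ] ℂ => L h) h7
    simp only [add_apply, _root_.smul_apply, ContinuousLinearMap.comp_apply,
      ContinuousLinearMap.proj_apply, hh', smul_eq_mul] at h8
    change fderiv ℂ φ v h j = (fderiv ℂ φ v h i / φ v i) * φ v j
    rw [← h8]
    simp
    ring

theorem submersive_of_param {X : Set (ℂ × ℙ ℂ (ι → ℂ))} (Q : LocalParam d X) (w₀ : Fin d → ℂ)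
    (hw₀ : w₀ ∈ Q.V) (h₀ : Fin d → ℂ) (hκ : fderiv ℂ Q.a w₀ h₀ ≠ 0) :
    ProjSubmersiveAt d X (Q.pt w₀ hw₀) := by
  intro P v₀ hv₀ hp
  by_contra hcon
  push Not at hcon
  have hPa0 : fderiv ℂ P.a v₀ = 0 := ContinuousLinearMap.ext hcon
  obtain ⟨i, hi⟩ : ∃ i, P.φ v₀ i ≠ 0 := by
    by_contra hc
    push Not at hc
    exact P.φ_ne v₀ hv₀ (funext hc)
  have dPa := P.holo_a.differentiableAt (P.isOpen_V.mem_nhds hv₀)
  have dPφ := P.holo_φ.differentiableAt (P.isOpen_V.mem_nhds hv₀)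
  have dQa := Q.holo_a.differentiableAt (Q.isOpen_V.mem_nhds hw₀)
  have dQφ := Q.holo_φ.differentiableAt (Q.isOpen_V.mem_nhds hw₀)
  -- the two parametrisations agree on affine coordinates
  have hagree : ∀ v (hv : v ∈ P.V) w (hw : w ∈ Q.V), P.pt v hv = Q.pt w hw →
      P.a v = Q.a w ∧ ∃ c : ℂ, c ≠ 0 ∧ c • Q.φ w = P.φ v := by
    intro v hv w hw h
    refine ⟨congrArg Prod.fst h, ?_⟩
    have h2 : Projectivization.mk ℂ (P.φ v) (P.φ_ne v hv) =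
      Projectivization.mk ℂ (Q.φ w) (Q.φ_ne w hw) := congrArg Prod.snd h
    rw [Projectivization.mk_eq_mk_iff'] at h2
    obtain ⟨c, hc⟩ := h2
    refine ⟨c, ?_, hc⟩
    rintro rfl
    rw [zero_smul] at hc
    exact P.φ_ne v hv hc.symm
  have hQi : Q.φ w₀ i ≠ 0 := by
    obtain ⟨-, c, -, hc⟩ := hagree v₀ hv₀ w₀ hw₀ hp
    intro h
    apply hi
    rw [← hc, Pi.smul_apply, h, smul_zero]
  have hF : ∀ v (hv : v ∈ P.V) w (hw : w ∈ Q.V), P.pt v hv = Q.pt w hw →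
      aff P.a P.φ i v = aff Q.a Q.φ i w := by
    intro v hv w hw h
    obtain ⟨h1, c, hc, h2⟩ := hagree v hv w hw h
    refine Prod.ext h1 ?_
    funext j
    change P.φ v j / P.φ v i = Q.φ w j / Q.φ w i
    rw [← h2]
    simp only [Pi.smul_apply, smul_eq_mul]
    exact mul_div_mul_left _ _ hc
  -- the transition function
  let e : P.V → X := fun v => (⟨P.pt v v.2, P.mem v v.2⟩ : X)
  let g : Q.V → X := fun w => (⟨Q.pt w w.2, Q.mem w w.2⟩ : X)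
  have he : Topology.IsOpenEmbedding e := P.openEmbedding
  have hg : Topology.IsOpenEmbedding g := Q.openEmbedding
  have hpe : e ⟨v₀, hv₀⟩ = g ⟨w₀, hw₀⟩ := Subtype.ext hp
  classical
  let r : Q.V → P.V := fun w => if h : g w ∈ Set.range e then h.choose else ⟨v₀, hv₀⟩
  have hr : ∀ w, g w ∈ Set.range e → e (r w) = g w := by
    intro w hw
    have : r w = hw.choose := dif_pos hw
    rw [this]
    exact hw.choose_spec
  have hev : ∀ᶠ w in 𝓝 (⟨w₀, hw₀⟩ : Q.V), e (r w) = g w := by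
    have h1 : Set.range e ∈ 𝓝 (g ⟨w₀, hw₀⟩) := by
      rw [← hpe]
      exact he.isOpen_range.mem_nhds ⟨_, rfl⟩
    filter_upwards [hg.continuous.continuousAt.preimage_mem_nhds h1] with w hw
    exact hr w hw
  have hr0 : Tendsto r (𝓝 (⟨w₀, hw₀⟩ : Q.V)) (𝓝 (⟨v₀, hv₀⟩ : P.V)) := by
    rw [he.isInducing.tendsto_nhds_iff, hpe]
    have hgt : Tendsto g (𝓝 (⟨w₀, hw₀⟩ : Q.V)) (𝓝 (g ⟨w₀, hw₀⟩)) := hg.continuous.tendsto _
    exact hgt.congr' (hev.mono fun w hw => hw.symm)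
  have hr1 : Tendsto (fun w => (r w : Fin d → ℂ)) (𝓝 (⟨w₀, hw₀⟩ : Q.V)) (𝓝 v₀) :=
    (continuous_subtype_val.tendsto (⟨v₀, hv₀⟩ : P.V)).comp hr0
  have hval : Tendsto (fun w : Q.V => (w : Fin d → ℂ)) (𝓝 (⟨w₀, hw₀⟩ : Q.V)) (𝓝 w₀) :=
    continuous_subtype_val.tendsto (⟨w₀, hw₀⟩ : Q.V)
  -- estimates
  have hPF := (aff_diff dPa dPφ hi).hasFDerivAt
  have hQF := (aff_diff dQa dQφ hQi).hasFDerivAt
  have hind : Topology.IsInducing (fderiv ℂ (aff P.a P.φ i) v₀) :=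
    (LinearMap.isClosedEmbedding_of_injective (aff_inj dPa dPφ hi
      (P.immersion v₀ hv₀))).isInducing
  have hth := hPF.isTheta_sub hind
  have h1 : (fun w : Q.V => (r w : Fin d → ℂ) - v₀) =O[𝓝 (⟨w₀, hw₀⟩ : Q.V)]
      (fun w => aff P.a P.φ i (r w) - aff P.a P.φ i v₀) := hth.2.comp_tendsto hr1
  have h2 : (fun w : Q.V => aff Q.a Q.φ i w - aff Q.a Q.φ i w₀) =O[𝓝 (⟨w₀, hw₀⟩ : Q.V)]
      (fun w : Q.V => (w : Fin d → ℂ) - w₀) := hQF.isBigO_sub.comp_tendsto hval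
  have h3 : (fun w : Q.V => aff P.a P.φ i (r w) - aff P.a P.φ i v₀)
      =ᶠ[𝓝 (⟨w₀, hw₀⟩ : Q.V)] (fun w : Q.V => aff Q.a Q.φ i w - aff Q.a Q.φ i w₀) := by
    filter_upwards [hev] with w hw
    rw [hF (r w) (r w).2 w w.2 (congrArg Subtype.val hw), hF v₀ hv₀ w₀ hw₀ hp]
  have h4 : (fun w : Q.V => (r w : Fin d → ℂ) - v₀) =O[𝓝 (⟨w₀, hw₀⟩ : Q.V)]
      (fun w : Q.V => (w : Fin d → ℂ) - w₀) := (h1.congr' EventuallyEq.rfl h3).trans h2
  have h5 : (fun v => P.a v - P.a v₀) =o[𝓝 v₀] fun v => v - v₀ := by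
    have := dPa.hasFDerivAt.isLittleO
    rw [hPa0] at this
    simpa using this
  have h6 : (fun w : Q.V => P.a (r w) - P.a v₀) =o[𝓝 (⟨w₀, hw₀⟩ : Q.V)]
      (fun w : Q.V => (w : Fin d → ℂ) - w₀) := (h5.comp_tendsto hr1).trans_isBigO h4
  have h7 : (fun w : Q.V => Q.a w - Q.a w₀) =o[𝓝 (⟨w₀, hw₀⟩ : Q.V)]
      (fun w : Q.V => (w : Fin d → ℂ) - w₀) := by
    refine h6.congr' ?_ EventuallyEq.rfl
    filter_upwards [hev] with w hw
    rw [(hagree (r w) (r w).2 w w.2 (congrArg Subtype.val hw)).1, (hagree v₀ hv₀ w₀ hw₀ hp).1]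
  have h8 : (fun w => Q.a w - Q.a w₀) =o[𝓝 w₀] fun w => w - w₀ := by
    have hm : map (Subtype.val : Q.V → _) (𝓝 (⟨w₀, hw₀⟩ : Q.V)) = 𝓝 w₀ :=
      Q.isOpen_V.isOpenEmbedding_subtypeVal.map_nhds_eq _
    rw [← hm, isLittleO_map]
    exact h7
  have h9 : HasFDerivAt Q.a (0 : (Fin d → ℂ) →L[ℂ] ℂ) w₀ := by
    rw [hasFDerivAt_iff_isLittleO]
    simpa using h8
  apply hκ
  rw [h9.fderiv]
  rfl

end

end Pool.Agent.Y199.Bi
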