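import Pool.Agent.Y199.Bi.Hom
import Pool.Agent.Y199.Bi.Trn

/-! Smoothness and connectedness of the fibres; failure of smoothness over the origin. -/

set_option autoImplicit false

open scoped LinearAlgebra.Projectivization Topology

namespace Pool.Agent.Y199.Bi

open Complex Pool.Agent.Helper922.HB

noncomputable section

section H0

universe u

variable {X : Type u} [TopologicalSpace X]

/-- the vertex of the standard zero-simplex -/
def vx : stdSimplex ℝ (Fin 1) := stdSimplex.vertex 0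

/-- the constant zero-simplex -/
def cst (x : X) : Sing X 0 := ContinuousMap.const _ x

instance pc_simplex : PathConnectedSpace (stdSimplex ℝ (Fin 2)) := by
  rw [← isPathConnected_iff_pathConnectedSpace]
  exact (convex_stdSimplex ℝ (Fin 2)).isPathConnected ⟨_, single_mem_stdSimplex ℝ 0⟩

open Classical in
/-- counting the vertices in one path component -/
def eps (x : X) : (Sing X 0 →₀ ℤ) →ₗ[ℤ] ℤ :=
  Finsupp.linearCombination ℤ (fun σ : Sing X 0 => if Joined x (σ vx) then (1 : ℤ) else 0)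

theorem bdry_single (σ : Sing X 1) : bdry X 0 (Finsupp.single σ 1) =
    Finsupp.single (sface 0 0 σ) 1 - Finsupp.single (sface 0 1 σ) 1 := by
  have h : bdry X 0 = ((-1 : ℤ) ^ (0 : ℕ)) • Finsupp.lmapDomain ℤ ℤ (sface 0 0) +
      ((-1 : ℤ) ^ (1 : ℕ)) • Finsupp.lmapDomain ℤ ℤ (sface 0 1) := by
    unfold bdry
    exact Fin.sum_univ_two _
  rw [h, pow_zero, one_smul, pow_one, neg_smul, one_smul, LinearMap.add_apply,
    LinearMap.neg_apply, Finsupp.lmapDomain_apply, Finsupp.lmapDomain_apply,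
    Finsupp.mapDomain_single, Finsupp.mapDomain_single, sub_eq_add_neg]

theorem eps_single (x : X) (σ : Sing X 0) :
    (Joined x (σ vx) → eps x (Finsupp.single σ 1) = 1) ∧
    (¬ Joined x (σ vx) → eps x (Finsupp.single σ 1) = 0) := by
  constructor
  · intro h
    rw [eps, Finsupp.linearCombination_single, if_pos h, smul_eq_mul, mul_one]
  · intro h
    rw [eps, Finsupp.linearCombination_single, if_neg h, smul_zero]

theorem eps_bdry (x : X) (z : Sing X 1 →₀ ℤ) : eps x (bdry X 0 z) = 0 := by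
  have h : (eps x).comp (bdry X 0) = 0 := by
    apply Finsupp.lhom_ext'
    intro σ
    apply LinearMap.ext_ring
    change eps x (bdry X 0 (Finsupp.single σ 1)) = 0
    rw [bdry_single, map_sub]
    have hab : ∀ a b : stdSimplex ℝ (Fin 2), Joined (σ a) (σ b) := by
      intro a b
      exact (PathConnectedSpace.joined a b).map σ.continuous
    have h2 : Joined (sface 0 0 σ vx) (sface 0 1 σ vx) := hab _ _
    by_cases h3 : Joined x (sface 0 0 σ vx)
    · rw [(eps_single x _).1 h3, (eps_single x _).1 (h3.trans h2), sub_self]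
    · rw [(eps_single x _).2 h3, (eps_single x _).2 (fun h => h3 (h.trans h2.symm)), sub_self]
  exact LinearMap.congr_fun h z

theorem joined_of_bdy (x y : X)
    (h : Finsupp.single (cst x) (1 : ℤ) - Finsupp.single (cst y) 1 ∈ Bdy X 0) : Joined x y := by
  obtain ⟨z, hz⟩ := h
  have h1 := eps_bdry x z
  rw [hz, map_sub, (eps_single x (cst x)).1 (Joined.refl x)] at h1
  by_contra h3
  rw [(eps_single x (cst y)).2 h3] at h1
  simp at h1

theorem bdy_of_joined {x y : X} (h : Joined x y) :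
    Finsupp.single (cst x) (1 : ℤ) - Finsupp.single (cst y) 1 ∈ Bdy X 0 := by
  obtain ⟨γ⟩ := h
  let σ : Sing X 1 := ⟨fun a => γ.extend (a.1 0), γ.continuous_extend.comp
    ((continuous_apply 0).comp continuous_subtype_val)⟩
  refine ⟨Finsupp.single σ 1, ?_⟩
  have hf : ∀ i : Fin 2, ∀ w : X, σ (stdSimplex.vertex (i.succAbove 0)) = w →
      sface 0 i σ = cst w := by
    intro i w hw
    ext a
    have ha : a = stdSimplex.vertex 0 := Subsingleton.elim _ _
    change σ (stdSimplex.map i.succAbove a) = w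
    rw [ha, stdSimplex.map_vertex]
    exact hw
  have h0 : sface 0 0 σ = cst x := by
    apply hf
    have h2 : ((stdSimplex.vertex (S := ℝ) ((0 : Fin 2).succAbove 0)).1 0) = 0 := by
      simp
    change γ.extend ((stdSimplex.vertex (S := ℝ) ((0 : Fin 2).succAbove 0)).1 0) = x
    rw [h2, γ.extend_zero]
  have h1 : sface 0 1 σ = cst y := by
    apply hf
    have h2 : ((stdSimplex.vertex (S := ℝ) ((1 : Fin 2).succAbove 0)).1 0) = 1 := by
      simp
    change γ.extend ((stdSimplex.vertex (S := ℝ) ((1 : Fin 2).succAbove 0)).1 0) = y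
    rw [h2, γ.extend_one]
  rw [bdry_single, h0, h1]

theorem joined_of_HE {Y : Type u} [TopologicalSpace Y] (f : C(X, Y)) (hf : HE f) {x y : X}
    (h : Joined (f x) (f y)) : Joined x y := by
  apply joined_of_bdy
  refine (hf 0).1 _ Submodule.mem_top ?_
  rw [map_sub]
  have h1 : ∀ z : X, push f 0 (Finsupp.single (cst z) 1) = Finsupp.single (cst (f z)) 1 := by
    intro z
    exact Finsupp.mapDomain_single
  rw [h1, h1]
  exact bdy_of_joined h

end H0

theorem pathConnected_XX : PathConnectedSpace XX := by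
  have h1 : IsPathConnected (PhiX '' D1) := by
    have h2 := isPathConnected_range (continuous_subtype_val.comp pA_quot.continuous)
    rw [Set.range_comp, pA_quot.surjective.range_eq, Set.image_univ, Subtype.range_coe] at h2
    exact h2
  have h3 : IsPathConnected (PhiX '' D2) := by
    have h4 : IsPathConnected {z : ℝ × ℝ × ℂ × ℂ | ‖z.2.2.2‖ * ‖z.2.2.1‖ ^ 6 < 1} := by
      have h0 : (0 : ℝ × ℝ × ℂ × ℂ) ∈
          {z : ℝ × ℝ × ℂ × ℂ | ‖z.2.2.2‖ * ‖z.2.2.1‖ ^ 6 < 1} := by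
        change ‖(0 : ℂ)‖ * ‖(0 : ℂ)‖ ^ 6 < 1
        norm_num
      refine StarConvex.isPathConnected (a := 0) ?_ h0
      rw [starConvex_zero_iff]
      intro z hz t ht ht1
      have hz : ‖z.2.2.2‖ * ‖z.2.2.1‖ ^ 6 < 1 := hz
      change ‖t • z.2.2.2‖ * ‖t • z.2.2.1‖ ^ 6 < 1
      rw [norm_smul, norm_smul, Real.norm_of_nonneg ht]
      have h5 : t ^ 7 ≤ 1 := pow_le_one₀ ht ht1
      calc t * ‖z.2.2.2‖ * (t * ‖z.2.2.1‖) ^ 6 = t ^ 7 * (‖z.2.2.2‖ * ‖z.2.2.1‖ ^ 6) := by ring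
        _ ≤ 1 * (‖z.2.2.2‖ * ‖z.2.2.1‖ ^ 6) := mul_le_mul_of_nonneg_right h5 (by positivity)
        _ < 1 := by rw [one_mul]; exact hz
    have : PathConnectedSpace ZZ := isPathConnected_iff_pathConnectedSpace.mp h4
    have h2 := isPathConnected_range (continuous_subtype_val.comp pN_quot.continuous)
    rw [Set.range_comp, pN_quot.surjective.range_eq, Set.image_univ, Subtype.range_coe] at h2
    exact h2
  have h5 : IsPathConnected (PhiX '' D1 ∪ PhiX '' D2) := by
    refine h1.union h3 ?_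
    let q : PP := psi2 ![0, 1, 0]
    have hq1 : q ∈ D1 := by
      change (1 : ℂ) ^ 3 ≠ 0
      norm_num
    have hq2 : q ∈ D2 := by
      refine ⟨one_ne_zero, ?_⟩
      change ‖(0 : ℂ)‖ * ‖(1 : ℂ) ^ 3‖ ^ 2 < ‖(1 : ℂ)‖ ^ 2
      norm_num
    exact ⟨PhiX q, ⟨q, hq1, rfl⟩, ⟨q, hq2, rfl⟩⟩
  have h6 : PhiX '' D1 ∪ PhiX '' D2 = Set.univ := Set.eq_univ_of_forall D_cover
  rw [h6] at h5
  exact pathConnectedSpace_iff_univ.mpr h5

/-- the fibres are path connected -/
theorem fibre_joined (s : ℂ) (x y : ↥(fX ⁻¹' {s})) : Joined x y := by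
  obtain ⟨c⟩ := exists_charts
  have := pathConnected_XX
  exact joined_of_HE _ (c.HE_fibre s) (PathConnectedSpace.joined _ _)

theorem exists_sqrt (s : ℂ) : ∃ y : ℂ, y ^ 2 = s := ⟨sr s, sr_sq s⟩

theorem fibre_connected (s : ℂ) : IsConnected {x : ℙ ℂ (II → ℂ) | (s, x) ∈ XX} := by
  obtain ⟨y, hy⟩ := exists_sqrt s
  have h0 : (Phi (psi1 ![0, 0, y])) ∈ XX := ⟨_, rfl⟩
  have hs : (Phi (psi1 ![0, 0, y])).1 = s := by
    change y ^ 2 - 0 ^ 3 = s
    rw [hy]; ring
  have hne : Nonempty ↥(fX ⁻¹' {s}) := ⟨⟨⟨_, h0⟩, hs⟩⟩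
  have : PathConnectedSpace ↥(fX ⁻¹' {s}) := ⟨hne, fibre_joined s⟩
  have h1 : IsConnected (Set.range fun x : ↥(fX ⁻¹' {s}) => x.1.1.2) :=
    isConnected_range (by fun_prop)
  have h2 : (Set.range fun x : ↥(fX ⁻¹' {s}) => x.1.1.2) = {x : ℙ ℂ (II → ℂ) | (s, x) ∈ XX} := by
    ext x
    constructor
    · rintro ⟨z, rfl⟩
      have h3 : z.1.1.1 = s := z.2
      have h4 : ((s, z.1.1.2) : ℂ × ℙ ℂ (II → ℂ)) = z.1.1 := Prod.ext h3.symm rfl
      change ((s, z.1.1.2) : ℂ × ℙ ℂ (II → ℂ)) ∈ XX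
      rw [h4]
      exact z.1.2
    · intro hx
      exact ⟨⟨⟨(s, x), hx⟩, rfl⟩, rfl⟩
  rwa [h2] at h1

theorem fderiv_a1 (v h : Fin 3 → ℂ) : fderiv ℂ a1 v h = 2 * v 2 * h 2 - 3 * v 1 ^ 2 * h 1 := by
  have h1 := ((hasFDerivAt_apply (𝕜 := ℂ) (2 : Fin 3) v).pow 2).sub
    ((hasFDerivAt_apply (𝕜 := ℂ) (1 : Fin 3) v).pow 3)
  have h2 : HasFDerivAt a1 _ v := h1
  rw [h2.fderiv]
  simp

theorem submersive_XX (p : ℂ × ℙ ℂ (II → ℂ)) (hp : p ∈ XX) (hs : p.1 ≠ 0) :
    ProjSubmersiveAt 3 XX p := by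
  rcases cases_XX p hp with ⟨u0, v, hv, rfl⟩ | ⟨u0, v, hv, rfl⟩
  · have hs' : v 2 ^ 2 - v 1 ^ 3 ≠ 0 := hs
    by_cases h2 : v 2 = 0
    · have h1 : v 1 ≠ 0 := by
        intro h1
        apply hs'
        rw [h1, h2]
        ring
      refine submersive_of_param (chart1 u0) v hv ![0, 1, 0] ?_
      change fderiv ℂ a1 v ![0, 1, 0] ≠ 0
      rw [fderiv_a1]
      simpa using h1
    · refine submersive_of_param (chart1 u0) v hv ![0, 0, 1] ?_
      change fderiv ℂ a1 v ![0, 0, 1] ≠ 0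
      rw [fderiv_a1]
      simpa using h2
  · refine submersive_of_param (chart2 u0) v hv ![0, 0, 1] ?_
    change fderiv ℂ (fun v : Fin 3 → ℂ => v 2) v ![0, 0, 1] ≠ 0
    rw [(hasFDerivAt_apply (𝕜 := ℂ) (2 : Fin 3) v).fderiv]
    simp

theorem not_submersive : ∃ p ∈ XX, ¬ ProjSubmersiveAt 3 XX p := by
  have hv : (0 : Fin 3 → ℂ) ∈ (chart1 0).V := by
    change ‖(0 : ℂ) - 0‖ < 1 / 2
    norm_num
  refine ⟨(chart1 0).pt 0 hv, (chart1 0).mem 0 hv, fun h => ?_⟩
  obtain ⟨k, hk⟩ := h (chart1 0) 0 hv rfl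
  apply hk
  change fderiv ℂ a1 0 k = 0
  rw [fderiv_a1]
  simp

end

end Pool.Agent.Y199.Bi
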