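import Pool.Agent.Y199.Bi.Ts

/-! The affine part of the fibres, for all values of the parameter. -/

set_option autoImplicit false

namespace Pool.Agent.Y199.Bi

open Pool.Agent.Helper922.HB Complex

universe u

variable (A : Type u) [TopologicalSpace A]

theorem piT_one : HE (piT A 1) := by
  let e : A × Circle ≃ₜ A × Circle :=
    { toFun := fun q => (q.1, q.2⁻¹)
      invFun := fun q => (q.1, q.2⁻¹)
      left_inv := fun q => by simp
      right_inv := fun q => by simp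
      continuous_toFun := by fun_prop
      continuous_invFun := by fun_prop }
  have h1 : HE (⟨e, e.continuous⟩ : C(A × Circle, A × Circle)) := HE_of_homeo e _ fun x => rfl
  refine HE.of_comp_left h1 ?_
  exact HE_theta

theorem piT_HE (s : ℂ) : HE (piT A s) := by
  by_cases hs : s = 0
  · rw [hs]; exact piT_zero A
  have hn : 0 < ‖s‖ := norm_pos_iff.mpr hs
  obtain ⟨κ, hκ, hκ6⟩ : ∃ κ : ℝ, 0 < κ ∧ κ ^ 6 = ‖s‖ :=
    ⟨‖s‖ ^ ((6 : ℕ) : ℝ)⁻¹, Real.rpow_pos_of_pos hn _, Real.rpow_inv_natCast_pow hn.le (by norm_num)⟩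
  have hκ0 : (κ : ℂ) ≠ 0 := by exact_mod_cast hκ.ne'
  have hκ6' : (κ : ℂ) ^ 6 = ‖s‖ := by exact_mod_cast hκ6
  have hn0 : ((‖s‖ : ℝ) : ℂ) ≠ 0 := by exact_mod_cast hn.ne'
  let e : Circle := ⟨s / ‖s‖, by
    apply mem_sphere_zero_iff_norm.mpr
    rw [norm_div, norm_real, norm_norm, div_self hn.ne']⟩
  have he : (e : ℂ) * ‖s‖ = s := by
    change s / ‖s‖ * ‖s‖ = s
    field_simp
  have hec := Circle.coe_ne_zero e
  let φ : Tset A s ≃ₜ Tset A 1 :=
    { toFun := fun p => ⟨(p.1.1, p.1.2.1 * e⁻¹, p.1.2.2.1 / κ ^ 2, p.1.2.2.2 / κ ^ 3), by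
        have h : (p.1.2.1 : ℂ) * (p.1.2.2.2 ^ 2 - p.1.2.2.1 ^ 3) = s := p.2
        change ((p.1.2.1 * e⁻¹ : Circle) : ℂ) * ((p.1.2.2.2 / κ ^ 3) ^ 2 -
          (p.1.2.2.1 / κ ^ 2) ^ 3) = 1
        rw [Circle.coe_mul, Circle.coe_inv]
        have : (p.1.2.1 : ℂ) * (e : ℂ)⁻¹ * ((p.1.2.2.2 / κ ^ 3) ^ 2 - (p.1.2.2.1 / κ ^ 2) ^ 3) =
          ((p.1.2.1 : ℂ) * (p.1.2.2.2 ^ 2 - p.1.2.2.1 ^ 3)) / ((e : ℂ) * κ ^ 6) := by
          field_simp
        rw [this, h, hκ6', he, div_self hs]⟩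
      invFun := fun p => ⟨(p.1.1, p.1.2.1 * e, κ ^ 2 * p.1.2.2.1, κ ^ 3 * p.1.2.2.2), by
        have h : (p.1.2.1 : ℂ) * (p.1.2.2.2 ^ 2 - p.1.2.2.1 ^ 3) = 1 := p.2
        change ((p.1.2.1 * e : Circle) : ℂ) * ((κ ^ 3 * p.1.2.2.2) ^ 2 -
          (κ ^ 2 * p.1.2.2.1) ^ 3) = s
        rw [Circle.coe_mul, ← he, ← hκ6']
        linear_combination (e : ℂ) * κ ^ 6 * h⟩
      left_inv := fun p => by
        apply Subtype.ext
        refine Prod.ext rfl (Prod.ext ?_ (Prod.ext ?_ ?_))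
        · simp
        · change κ ^ 2 * (p.1.2.2.1 / κ ^ 2) = p.1.2.2.1
          field_simp
        · change κ ^ 3 * (p.1.2.2.2 / κ ^ 3) = p.1.2.2.2
          field_simp
      right_inv := fun p => by
        apply Subtype.ext
        refine Prod.ext rfl (Prod.ext ?_ (Prod.ext ?_ ?_))
        · simp
        · change (κ ^ 2 * p.1.2.2.1) / κ ^ 2 = p.1.2.2.1
          field_simp
        · change (κ ^ 3 * p.1.2.2.2) / κ ^ 3 = p.1.2.2.2
          field_simp
      continuous_toFun := by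
        refine Continuous.subtype_mk ?_ _
        refine Continuous.prodMk (by fun_prop) (Continuous.prodMk (by fun_prop)
          (Continuous.prodMk ?_ ?_))
        · exact Continuous.div_const (by fun_prop) _
        · exact Continuous.div_const (by fun_prop) _
      continuous_invFun := by
        refine Continuous.subtype_mk ?_ _
        fun_prop }
  let ρ : A × Circle ≃ₜ A × Circle :=
    { toFun := fun q => (q.1, q.2 * e)
      invFun := fun q => (q.1, q.2 * e⁻¹)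
      left_inv := fun q => by simp
      right_inv := fun q => by simp
      continuous_toFun := by fun_prop
      continuous_invFun := by fun_prop }
  have h1 : HE (⟨φ, φ.continuous⟩ : C(Tset A s, Tset A 1)) := HE_of_homeo φ _ fun x => rfl
  have h2 : HE (⟨ρ, ρ.continuous⟩ : C(A × Circle, A × Circle)) := HE_of_homeo ρ _ fun x => rfl
  have h3 := h2.comp ((piT_one A).comp h1)
  convert h3 using 1
  ext p
  · rfl
  · change ((p.1.2.1 : Circle) : ℂ) = ((p.1.2.1 * e⁻¹ * e : Circle) : ℂ)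
    simp

/-- the affine part of the total space -/
def incT (s : ℂ) : C(Tset A s, A × Circle × ℂ × ℂ) := ⟨Subtype.val, continuous_subtype_val⟩

theorem incT_HE (s : ℂ) : HE (incT A s) := by
  have h1 : HE (⟨fun p => (p.1, p.2.1), by fun_prop⟩ : C(A × Circle × ℂ × ℂ, A × Circle)) := by
    refine HE_of_homotopyEquiv _ ⟨fun q => (q.1, q.2, 0, 0), by fun_prop⟩
      ⟨fun q => (q.1.1, q.1.2.1, ((1 - (q.2 : ℝ) : ℝ) : ℂ) * q.1.2.2.1,
        ((1 - (q.2 : ℝ) : ℝ) : ℂ) * q.1.2.2.2), by fun_prop⟩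
      ⟨Prod.fst, continuous_fst⟩ ?_ ?_ ?_ ?_
    · intro x; simp
    · intro x; simp
    · intro y; rfl
    · intro y; rfl
  refine HE.of_comp_left h1 ?_
  exact piT_HE A s

end Pool.Agent.Y199.Bi
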